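import Pool.Agent.Lib.MP_f80667_ag.Cv.Rcy

/-!
# Polynomials for the trace relation and for the multiplication by `p`

* `tr_poly`: `∏ (X - b_i)` and `X ^ (r - 1) (X - ∑ b_i)` are congruent to the second order.
* `mult_poly`: `(X - p ^ s) ^ p X` and `X ^ p (X - p ^ (s + 1))` are congruent modulo `p ^ (s + 2)`.
* `exists_cj`: the polynomial of the conjugates of `b` and the polynomial of the trace of `b`.
-/

open ZC BE PE CV Polynomial IntermediateField

namespace GX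

section poly

variable {K Ω : Type} [Field K] [Field Ω] [Algebra K Ω] {L : Ld K Ω}

/-- The norms of the coefficients are at most `t`. -/
def Cle (L : Ld K Ω) (t : ℝ) (P : Polynomial Ω) : Prop := ∀ i, L.nm (P.coeff i) ≤ t

theorem Cle.add {t : ℝ} {P Q : Polynomial Ω} (hP : Cle L t P) (hQ : Cle L t Q) :
    Cle L t (P + Q) := fun i => by
  rw [coeff_add]
  exact (L.add _ _).trans (max_le (hP i) (hQ i))

theorem Cle.neg {t : ℝ} {P : Polynomial Ω} (hP : Cle L t P) : Cle L t (-P) := fun i => by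
  rw [coeff_neg, L.neg]
  exact hP i

theorem Cle.sub {t : ℝ} {P Q : Polynomial Ω} (hP : Cle L t P) (hQ : Cle L t Q) :
    Cle L t (P - Q) := by
  rw [sub_eq_add_neg]
  exact hP.add hQ.neg

theorem Cle.mono {t t' : ℝ} (h : t ≤ t') {P : Polynomial Ω} (hP : Cle L t P) : Cle L t' P :=
  fun i => (hP i).trans h

theorem Cle.mul {t t' : ℝ} (ht : 0 ≤ t) (ht' : 0 ≤ t') {P Q : Polynomial Ω} (hP : Cle L t P)
    (hQ : Cle L t' Q) : Cle L (t * t') (P * Q) := fun i => by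
  rw [coeff_mul]
  refine L.sum_le _ _ (mul_nonneg ht ht') fun x _ => ?_
  rw [L.mul]
  exact mul_le_mul (hP _) (hQ _) (L.nonneg _) ht

theorem cle_C {c : Ω} {t : ℝ} (h : L.nm c ≤ t) : Cle L t (C c) := fun i => by
  rw [coeff_C]
  split_ifs
  · exact h
  · rw [L.zero]
    exact (L.nonneg _).trans h

theorem cle_Xpow (n : ℕ) : Cle L 1 (X ^ n : Polynomial Ω) := fun i => by
  rw [coeff_X_pow]
  split_ifs
  · rw [L.one]
  · rw [L.zero]
    exact zero_le_one

theorem cle_XC {c : Ω} (h : L.nm c ≤ 1) : Cle L 1 (X - C c) := by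
  have h1 := cle_Xpow (L := L) 1
  rw [pow_one] at h1
  exact h1.sub (cle_C h)

theorem Cle.mul_one {t : ℝ} (ht : 0 ≤ t) {P Q : Polynomial Ω} (hP : Cle L t P)
    (hQ : Cle L 1 Q) : Cle L t (P * Q) := by
  have h := hP.mul ht zero_le_one hQ
  rwa [_root_.mul_one] at h

theorem Cle.one_mul {t : ℝ} (ht : 0 ≤ t) {P Q : Polynomial Ω} (hP : Cle L 1 P)
    (hQ : Cle L t Q) : Cle L t (P * Q) := by
  have h := hP.mul zero_le_one ht hQ
  rwa [_root_.one_mul] at h

theorem Cle.pow {P : Polynomial Ω} (hP : Cle L 1 P) (n : ℕ) : Cle L 1 (P ^ n) := by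
  induction n with
  | zero =>
    rw [pow_zero]
    have h := cle_Xpow (L := L) 0
    rwa [pow_zero] at h
  | succ n ih =>
    rw [pow_succ]
    exact ih.mul_one zero_le_one hP

/-- The product of the `X - b_i` up to the second order. -/
theorem tr_poly {ι : Type} (s : Finset ι) (b : ι → Ω) {t : ℝ} (ht : 0 ≤ t) (ht1 : t ≤ 1)
    (hb : ∀ i ∈ s, L.nm (b i) ≤ t) : Cle L (t ^ 2) (∏ i ∈ s, (X - C (b i)) -
      (X ^ s.card - C (∑ i ∈ s, b i) * X ^ (s.card - 1))) := by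
  classical
  induction s using Finset.induction_on with
  | empty =>
    intro i
    simp only [Finset.prod_empty, Finset.card_empty, Finset.sum_empty, C_0, zero_mul,
      pow_zero, sub_zero, sub_self, coeff_zero, L.zero]
    exact pow_nonneg ht _
  | insert a s ha ih =>
    have hs : ∀ i ∈ s, L.nm (b i) ≤ t := fun i hi => hb i (Finset.mem_insert_of_mem hi)
    have ha1 := hb a (Finset.mem_insert_self a s)
    have ih := ih hs
    have hsum : L.nm (∑ i ∈ s, b i) ≤ t := L.sum_le _ _ ht hs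
    rw [Finset.prod_insert ha, Finset.sum_insert ha, Finset.card_insert_of_notMem ha,
      Nat.add_sub_cancel]
    obtain ⟨R, hR⟩ : ∃ R, R = ∏ i ∈ s, (X - C (b i)) -
      (X ^ s.card - C (∑ i ∈ s, b i) * X ^ (s.card - 1)) := ⟨_, rfl⟩
    rw [← hR] at ih
    have e0 : ∏ i ∈ s, (X - C (b i)) = R +
        (X ^ s.card - C (∑ i ∈ s, b i) * X ^ (s.card - 1)) := by
      rw [hR]
      ring
    have e1 : C (∑ i ∈ s, b i) * X ^ (s.card - 1) * X = C (∑ i ∈ s, b i) * X ^ s.card := by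
      rcases Nat.eq_zero_or_pos s.card with h | h
      · rw [Finset.card_eq_zero] at h
        subst h
        rw [Finset.sum_empty, C_0, zero_mul, zero_mul, zero_mul]
      · rw [mul_assoc, ← pow_succ, Nat.sub_add_cancel h]
    have e2 : (X - C (b a)) * ∏ i ∈ s, (X - C (b i)) -
        (X ^ (s.card + 1) - C (b a + ∑ i ∈ s, b i) * X ^ s.card) =
        R * (X - C (b a)) + C (b a * ∑ i ∈ s, b i) * X ^ (s.card - 1) := by
      rw [e0]
      have e3 : (X - C (b a)) * (R + (X ^ s.card - C (∑ i ∈ s, b i) * X ^ (s.card - 1))) =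
          R * (X - C (b a)) + (X ^ (s.card + 1) -
            C (∑ i ∈ s, b i) * X ^ (s.card - 1) * X) - C (b a) * X ^ s.card +
            C (b a) * C (∑ i ∈ s, b i) * X ^ (s.card - 1) := by
        ring
      rw [e3, e1, ← C_mul, C_add]
      ring
    rw [e2]
    have ht2 : 0 ≤ t ^ 2 := pow_nonneg ht _
    refine (ih.mul_one ht2 (cle_XC (ha1.trans ht1))).add ((cle_C ?_).mul_one ht2 (cle_Xpow _))
    rw [L.mul, sq]
    exact mul_le_mul ha1 hsum (L.nonneg _) ht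

/-- `(X - p ^ s) ^ p X` and `X ^ p (X - p ^ (s + 1))` are congruent modulo `p ^ (s + 2)`. -/
theorem mult_poly [CharZero K] (hp : 2 < L.p) {s : ℕ} (hs : s ≠ 0) :
    Cle L (L.nm (L.p : Ω) ^ (s + 2)) ((X - C ((L.p : Ω) ^ s)) ^ L.p * X -
      X ^ L.p * (X - C ((L.p : Ω) ^ (s + 1)))) := by
  obtain ⟨a, ha⟩ : ∃ a : Ω, a = (L.p : Ω) ^ s := ⟨_, rfl⟩
  have hpos := L.p_pos
  have hle : L.nm (L.p : Ω) ≤ 1 := L.lt.le
  have han : L.nm a = L.nm (L.p : Ω) ^ s := by rw [ha, L.pow]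
  have hpp : L.p.Prime := L.pp
  have hr : ∀ {m n : ℕ}, m ≤ n → L.nm (L.p : Ω) ^ n ≤ L.nm (L.p : Ω) ^ m := fun h =>
    pow_le_pow_of_le_one hpos.le hle h
  obtain ⟨k, hk⟩ : ∃ k, L.p = k + 2 := ⟨L.p - 2, by omega⟩
  rw [pow_succ (L.p : Ω) s, ← ha]
  have e1 : (X - C a) ^ L.p = ∑ m ∈ Finset.range (k + 1), X ^ m * C (-a) ^ (L.p - m) *
      ((L.p.choose m : ℕ) : Polynomial Ω) + X ^ (k + 1) * C (-a) * (L.p : Polynomial Ω) +
        X ^ (k + 2) := by
    rw [sub_eq_add_neg, ← C_neg, add_pow, hk, Finset.sum_range_succ, Finset.sum_range_succ,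
      Nat.sub_self, pow_zero, mul_one, Nat.choose_self, Nat.cast_one, mul_one,
      show k + 2 - (k + 1) = 1 by omega, pow_one, Nat.choose_succ_self_right]
  have e2 : (X - C a) ^ L.p * X - X ^ L.p * (X - C (a * (L.p : Ω))) =
      (∑ m ∈ Finset.range (k + 1), X ^ m * C (-a) ^ (L.p - m) *
        ((L.p.choose m : ℕ) : Polynomial Ω)) * X := by
    have e3 : (L.p : Polynomial Ω) = C (L.p : Ω) := (map_natCast C L.p).symm
    have e4 : X ^ L.p = (X ^ (k + 2) : Polynomial Ω) := by rw [hk]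
    rw [e1, e4, e3, C_neg, C_mul]
    ring
  rw [e2]
  have hX : Cle L 1 (X : Polynomial Ω) := by
    have h := cle_Xpow (L := L) 1
    rwa [pow_one] at h
  refine Cle.mul_one (pow_nonneg hpos.le _) ?_ hX
  intro i
  rw [finsetSum_coeff]
  refine L.sum_le _ _ (pow_nonneg hpos.le _) fun m hm => ?_
  rw [Finset.mem_range] at hm
  have h1 : Cle L (L.nm (L.p : Ω) ^ (s + 2)) (X ^ m * C (-a) ^ (L.p - m) *
      ((L.p.choose m : ℕ) : Polynomial Ω)) := by
    have e5 : X ^ m * C (-a) ^ (L.p - m) * ((L.p.choose m : ℕ) : Polynomial Ω) =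
        C ((-a) ^ (L.p - m) * (L.p.choose m : ℕ)) * X ^ m := by
      rw [C_mul, C_pow, map_natCast]
      ring
    rw [e5]
    refine Cle.mul_one (pow_nonneg hpos.le _) (cle_C ?_) (cle_Xpow _)
    rw [L.mul, L.pow, L.neg, han, ← pow_mul]
    by_cases hm0 : m = 0
    · subst hm0
      rw [Nat.choose_zero_right, Nat.cast_one, L.one, mul_one, Nat.sub_zero]
      refine hr ?_
      have h2 : s * 3 ≤ s * L.p := Nat.mul_le_mul_left s hp
      omega
    · obtain ⟨q, hq⟩ := hpp.dvd_choose_self hm0 (by omega)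
      have h2 : L.nm ((L.p.choose m : ℕ) : Ω) ≤ L.nm (L.p : Ω) := by
        rw [hq, Nat.cast_mul, L.mul]
        exact mul_le_of_le_one_right hpos.le (L.nat_le _)
      refine (mul_le_mul_of_nonneg_left h2 (pow_nonneg hpos.le _)).trans ?_
      rw [← pow_succ]
      refine hr ?_
      have h3 : s * 2 ≤ s * (L.p - m) := Nat.mul_le_mul_left s (by omega)
      omega
  exact h1 i

end poly

section cj

variable {K Ω : Type} [Field K] [CharZero K] [Field Ω] [Algebra K Ω] [IsAlgClosure K Ω]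
  {L : Ld K Ω}

omit [CharZero K] [IsAlgClosure K Ω] in
private theorem cj_map {M M' : IntermediateField K Ω} {b : Ω} (hb : b ∈ M')
    (s : Finset (Ω ≃ₐ[K] Ω)) (h₁ : ∀ γ ∈ s, γ ∈ M.fixingSubgroup)
    (h₂ : ∀ γ ∈ M.fixingSubgroup, ∃! δ, δ ∈ s ∧ δ⁻¹ * γ ∈ M'.fixingSubgroup)
    {τ : Ω ≃ₐ[K] Ω} (hτ : τ ∈ M.fixingSubgroup) :
    ∏ γ ∈ s, (X - C (τ (γ b))) = ∏ γ ∈ s, (X - C (γ b)) := by
  have hm : ∀ γ (hγ : γ ∈ s), τ * γ ∈ M.fixingSubgroup := fun γ hγ =>
    M.fixingSubgroup.mul_mem hτ (h₁ γ hγ)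
  refine Finset.prod_bij (fun γ hγ => (h₂ (τ * γ) (hm γ hγ)).choose) ?_ ?_ ?_ ?_
  · intro γ hγ
    exact (h₂ (τ * γ) (hm γ hγ)).choose_spec.1.1
  · intro γ hγ γ' hγ' heq
    have e₁ := (h₂ (τ * γ) (hm γ hγ)).choose_spec.1.2
    have e₂ := (h₂ (τ * γ') (hm γ' hγ')).choose_spec.1.2
    dsimp only at heq
    rw [heq] at e₁
    have e₃ : γ⁻¹ * γ' ∈ M'.fixingSubgroup := by
      have e₄ := M'.fixingSubgroup.mul_mem (M'.fixingSubgroup.inv_mem e₁) e₂
      have e₅ : ((h₂ (τ * γ') (hm γ' hγ')).choose⁻¹ * (τ * γ))⁻¹ *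
          ((h₂ (τ * γ') (hm γ' hγ')).choose⁻¹ * (τ * γ')) = γ⁻¹ * γ' := by group
      rwa [e₅] at e₄
    have e₆ : γ'⁻¹ * γ' ∈ M'.fixingSubgroup := by
      rw [inv_mul_cancel]
      exact M'.fixingSubgroup.one_mem
    exact (h₂ γ' (h₁ γ' hγ')).unique ⟨hγ, e₃⟩ ⟨hγ', e₆⟩
  · intro δ hδ
    obtain ⟨γ, ⟨hγ, e₁⟩, -⟩ := h₂ (τ⁻¹ * δ)
      (M.fixingSubgroup.mul_mem (M.fixingSubgroup.inv_mem hτ) (h₁ δ hδ))
    refine ⟨γ, hγ, ?_⟩
    have e₂ := (h₂ (τ * γ) (hm γ hγ)).choose_spec.1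
    have e₃ : δ⁻¹ * (τ * γ) ∈ M'.fixingSubgroup := by
      have e₄ := M'.fixingSubgroup.inv_mem e₁
      have e₅ : (γ⁻¹ * (τ⁻¹ * δ))⁻¹ = δ⁻¹ * (τ * γ) := by group
      rwa [e₅] at e₄
    exact (h₂ (τ * γ) (hm γ hγ)).unique e₂ ⟨hδ, e₃⟩
  · intro γ hγ
    have e₁ := (h₂ (τ * γ) (hm γ hγ)).choose_spec.1.2
    have e₂ := (IntermediateField.mem_fixingSubgroup_iff M' _).1 e₁ b hb
    rw [AlgEquiv.mul_apply] at e₂
    have e₃ := congrArg (h₂ (τ * γ) (hm γ hγ)).choose e₂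
    rw [← AlgEquiv.mul_apply, mul_inv_cancel, AlgEquiv.one_apply, AlgEquiv.mul_apply] at e₃
    rw [e₃]

/-- The polynomial of the conjugates of `b` and the polynomial of the trace. -/
theorem exists_cj {M M' : IntermediateField K Ω} (h : M ≤ M') [FiniteDimensional K M'] {b : Ω}
    (hb : b ∈ M') {t : ℝ} (ht : L.nm b ≤ t) (ht1 : t < 1) :
    ∃ q q' : Polynomial Ω, Dpo L M q ∧ Dpo L M q' ∧ q.natDegree = q'.natDegree ∧
      (∀ i, L.nm (q.coeff i - q'.coeff i) ≤ t ^ 2) ∧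
      ∀ {F : Type} [Field F] [Algebra F K] [Algebra F Ω] [IsScalarTower F K Ω] {V : Vr F} [Hf V]
        (P : Ω → V.pt Ω), (∀ γ ∈ M.fixingSubgroup, ∀ c, L.nm c < 1 → V.act γ (P c) = P (γ c)) →
        rcy P q = Nm M M' (Finsupp.single (P b) 1) ∧
        rcy P q' = Nm M M' (Finsupp.single (P 0) 1) +
          (Finsupp.single (P (Nm M M' b)) 1 - Finsupp.single (P 0) 1) := by
  classical
  obtain ⟨s, h₀, h₁, h₂, h₃⟩ := nm_rep h
  have ht0 : 0 ≤ t := (L.nonneg b).trans ht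
  have hbγ : ∀ γ : Ω ≃ₐ[K] Ω, L.nm (γ b) ≤ t := fun γ => by rw [L.act]; exact ht
  have hTr : Nm M M' b = ∑ γ ∈ s, γ b := h₃ Ω b
  have hTm : Nm M M' b ∈ M := fx_mem.1 (nm_fx h (fx_mem.2 hb))
  have hTn : L.nm (Nm M M' b) ≤ t := by
    rw [hTr]
    exact L.sum_le _ _ ht0 fun γ _ => hbγ γ
  have hs1 : 1 ≤ s.card := by
    obtain ⟨δ, ⟨hδ, -⟩, -⟩ := h₂ 1 (M.fixingSubgroup.one_mem)
    exact Finset.card_pos.2 ⟨δ, hδ⟩
  obtain ⟨q, hq⟩ : ∃ q : Polynomial Ω, q = ∏ γ ∈ s, (X - C (γ b)) := ⟨_, rfl⟩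
  obtain ⟨q', hq'⟩ : ∃ q' : Polynomial Ω, q' = X ^ (s.card - 1) * (X - C (Nm M M' b)) := ⟨_, rfl⟩
  have hqm : q.Monic := by
    rw [hq]
    exact monic_prod_of_monic _ _ fun γ _ => monic_X_sub_C _
  have hqm' : q'.Monic := by
    rw [hq']
    exact (monic_X_pow _).mul (monic_X_sub_C _)
  have hqd : q.natDegree = s.card := by
    rw [hq, natDegree_prod_of_monic _ _ fun γ _ => monic_X_sub_C _,
      Finset.sum_congr rfl fun γ _ => natDegree_X_sub_C _, Finset.sum_const, smul_eq_mul, mul_one]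
  have hqd' : q'.natDegree = s.card := by
    rw [hq', (monic_X_pow _).natDegree_mul (monic_X_sub_C _), natDegree_X_pow, natDegree_X_sub_C,
      Nat.sub_add_cancel hs1]
  have hE : q' = X ^ s.card - C (∑ γ ∈ s, γ b) * X ^ (s.card - 1) := by
    rw [hq', mul_sub, ← pow_succ, Nat.sub_add_cancel hs1, hTr]
    ring
  have hc : Cle L (t ^ 2) (q - q') := by
    rw [hE, hq]
    exact tr_poly s (fun γ => γ b) ht0 ht1.le fun γ _ => hbγ γ
  have hmem' : ∀ i, q'.coeff i ∈ M := by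
    intro i
    rw [hE, ← hTr, coeff_sub, coeff_C_mul, coeff_X_pow, coeff_X_pow]
    refine sub_mem ?_ (mul_mem hTm ?_)
    · split_ifs
      · exact one_mem M
      · exact zero_mem M
    · split_ifs
      · exact one_mem M
      · exact zero_mem M
  have hlt' : ∀ i < q'.natDegree, L.nm (q'.coeff i) ≤ t := by
    intro i hi
    rw [hqd'] at hi
    rw [hE, ← hTr, coeff_sub, coeff_C_mul, coeff_X_pow, coeff_X_pow, if_neg hi.ne, zero_sub, L.neg]
    split_ifs
    · rw [mul_one]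
      exact hTn
    · rw [mul_zero, L.zero]
      exact ht0
  have htt : t ^ 2 ≤ t := by
    rw [sq]
    exact mul_le_of_le_one_right ht0 ht1.le
  refine ⟨q, q', ⟨hqm, ?_, ?_⟩, ⟨hqm', hmem', fun i hi => (hlt' i hi).trans_lt ht1⟩,
    hqd.trans hqd'.symm, ?_, ?_⟩
  · intro i
    refine mem_of_fix M fun τ hτ => ?_
    have e1 : q.map (τ : Ω →+* Ω) = q := by
      rw [hq, Polynomial.map_prod]
      have e2 : ∀ γ ∈ s, ((X : Polynomial Ω) - C (γ b)).map (τ : Ω →+* Ω) = X - C (τ (γ b)) := by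
        intro γ _
        rw [Polynomial.map_sub, map_X, map_C]
        rfl
      rw [Finset.prod_congr rfl e2]
      exact cj_map hb s h₁ h₂ hτ
    have e3 : (q.map (τ : Ω →+* Ω)).coeff i = q.coeff i := by rw [e1]
    rw [coeff_map] at e3
    exact e3
  · intro i hi
    have e1 : q.coeff i = (q - q').coeff i + q'.coeff i := by
      rw [coeff_sub, sub_add_cancel]
    rw [e1]
    exact (L.add _ _).trans_lt (max_lt ((hc i).trans_lt (htt.trans_lt ht1))
      ((hlt' i (by rw [hqd', ← hqd]; exact hi)).trans_lt ht1))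
  · intro i
    have e1 := hc i
    rwa [coeff_sub] at e1
  · intro F _ _ _ _ V _ P hP
    have hb1 : L.nm b < 1 := ht.trans_lt ht1
    have h01 : L.nm (0 : Ω) < 1 := by rw [L.zero]; exact zero_lt_one
    constructor
    · have e1 : q.roots = s.val.map fun γ => γ b := by
        have e2 : q = ((s.val.map fun γ : Ω ≃ₐ[K] Ω => γ b).map fun a => X - C a).prod := by
          rw [hq, Multiset.map_map]
          rfl
        rw [e2, roots_multiset_prod_X_sub_C]
      rw [rcy, e1, Multiset.map_map, h₃ _ (Finsupp.single (P b) 1)]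
      change ∑ γ ∈ s, Finsupp.single (P (γ b)) (1 : ℤ) = _
      refine Finset.sum_congr rfl fun γ hγ => ?_
      rw [smul_single, hP γ (h₁ γ hγ) b hb1]
    · have hX : (X ^ (s.card - 1) : Polynomial Ω) ≠ 0 := (monic_X_pow _).ne_zero
      rw [hq', rcy_mul P hX (X_sub_C_ne_zero _), rcy_X_pow, rcy_X_sub,
        h₃ _ (Finsupp.single (P 0) 1)]
      have e1 : ∑ γ ∈ s, γ • (Finsupp.single (P 0) (1 : ℤ) : V.pt Ω →₀ ℤ) =
          Finsupp.single (P 0) (s.card : ℤ) := by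
        have e2 : ∀ γ ∈ s, γ • (Finsupp.single (P 0) (1 : ℤ) : V.pt Ω →₀ ℤ) =
            Finsupp.single (P 0) 1 := by
          intro γ hγ
          rw [smul_single, hP γ (h₁ γ hγ) 0 h01, map_zero]
        rw [Finset.sum_congr rfl e2, Finset.sum_const, Finsupp.smul_single, nsmul_eq_mul, mul_one]
      have e3 : (Finsupp.single (P 0) (s.card : ℤ) : V.pt Ω →₀ ℤ) =
          Finsupp.single (P 0) ((s.card - 1 : ℕ) : ℤ) + Finsupp.single (P 0) 1 := by
        rw [← Finsupp.single_add]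
        congr 1
        omega
      rw [e1, e3]
      abel

end cj

end GX
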