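import Pool.Agent.Lib.MP_f80667_ag.Gy.TB

/-! The trace relation for the points above an arc. -/

open ZC BE PE CV Polynomial IntermediateField

namespace GX

variable {F : Type} [Field F] {N d : ℕ} {ι : Type} {f : ι → MvPolynomial (Fin N) F} {K Ω : Type}
  [Field K] [CharZero K] [Field Ω] [Algebra K Ω] [Algebra F K] [Algebra F Ω]
  [IsScalarTower F K Ω] [IsAlgClosure K Ω] {L : Ld K Ω} {ψ : Prj K N d}

/-- A point near `x` is a point above the arc modulo displacements of level `2`. -/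
private theorem tcn_near [L.Unr] (hψ : Pj f L ψ) {M : IntermediateField K Ω} {x : Fin N → Ω}
    (hx : Iv L M x) (hD : L.nm (MvPolynomial.aeval (ψ.uv x) ψ.D) = 1)
    {a : Fin (d + 1) → Polynomial Ω} {Q : Ω → (Xf f).pt Ω} (hQ : Brc f L ψ M x a Q) {M' : IntermediateField K Ω} (hM' : Um L M')
    (h : M ≤ M') {b : Ω} (hb : b ∈ M') (hb1 : L.nm b < 1) {x' : Fin N → Ω} (hx' : Iv L M' x')
    {P' : (Xf f).pt Ω} (hP' : Co P' x') (hn : ∀ j, L.nm (x' j - x j) < 1)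
    (hu : ∀ r, L.nm (ψ.uv x' r - (a r).eval b) ≤ L.nm (L.p : Ω) ^ 2) :
    (Finsupp.single P' 1 - Finsupp.single (Q b) 1 : (Xf f).pt Ω →₀ ℤ) ∈ Dl f L 2 M' ∧
      Fx M' (Finsupp.single (Q b) 1 : (Xf f).pt Ω →₀ ℤ) := by
  have hfd : FiniteDimensional K M' := hM'.fd
  have hp1 : L.nm (L.p : Ω) ^ 2 < 1 := pow_lt_one₀ (L.nonneg _) L.lt two_ne_zero
  obtain ⟨z, hz, hz1, hz2, hz3⟩ := hQ.co b hb1
  have hx1 : ∀ j, L.nm (x j) ≤ 1 := fun j => (hx j).2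
  obtain ⟨hu1, hy1⟩ := hψ.uv_le hx1
  have hDz : L.nm (MvPolynomial.aeval (ψ.uv z) ψ.D) = 1 := by
    refine hψ.D_close hu1 (hψ.uv_le hz1).1 (fun r => ?_) hD
    exact lv_lt (L := L) (a := ψ.u r) (hψ.iu r) (x := x) (x' := z) fun j => by
      rw [L.sub_comm]
      exact (hz2 j).trans_lt hb1
  have hne : ∀ {y : Fin N → Ω}, Co (Q b) y → y ≠ 0 := fun h => co_ne h
  have hzz := hψ.near (x := z) (x' := x') hz1 (fun j => (hx' j).2) (co_zero hz) (co_zero hP') hDz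
    (fun j => by
      have e1 : x' j - z j = (x' j - x j) + -(z j - x j) := by ring
      rw [e1]
      refine (L.add _ _).trans_lt (max_lt (hn j) ?_)
      rw [L.neg]
      exact (hz2 j).trans_lt hb1) (pow_nonneg (L.nonneg _) 2) (fun r => by
      rw [hz3 r]
      exact hu r)
  obtain ⟨-, hpt⟩ := hψ.pt_eq (hne hz) (co_zero hz) (L.ne_zero (by rw [hDz]; exact zero_lt_one))
  obtain ⟨-, ⟨i, hi⟩, -⟩ := hψ.pt_iv (M := ⊤) (c := ψ.uv z) (w := ψ.yv z)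
    (fun r => ⟨IntermediateField.mem_top, (hψ.uv_le hz1).1 r⟩) IntermediateField.mem_top
    (hψ.uv_le hz1).2 (hψ.pt_eq (hne hz) (co_zero hz)
      (L.ne_zero (by rw [hDz]; exact zero_lt_one))).1 hDz
  rw [hpt] at hi
  have hFQ : Fp (Xf f) M' (Q b) := by
    intro γ hγ
    rw [hQ.act γ (fix_le h hγ) b hb1]
    congr 1
    exact (IntermediateField.mem_fixingSubgroup_iff M' γ).1 hγ _ hb
  refine ⟨dsp_pt (fp_co hP' fun j => (hx' j).1) hFQ ?_, fx_single hFQ 1⟩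
  exact nrh_symm (nrh_mk hp1 hz hP' hz1 (fun j => (hx' j).2) ⟨i, hi⟩ fun j => by
    rw [L.sub_comm]
    exact hzz j)

/-- **The trace relation.** `x` is over `M`, `x₁` over `M'` has the projection `u (x) + p c ξ` and `x₂` over `M` has the projection
`u (x) + p Tr (c) ξ` modulo `p ^ 2`. -/
theorem tc_norm [L.Unr] (hψ : Pj f L ψ) {M M' : IntermediateField K Ω} (hM : Um L M)
    (hM' : Um L M') (h : M ≤ M') {x x₁ x₂ : Fin N → Ω} (hx : Iv L M x) (hx₁ : Iv L M' x₁)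
    (hx₂ : Iv L M x₂) (hD : L.nm (MvPolynomial.aeval (ψ.uv x) ψ.D) = 1)
    {P P₁ P₂ : (Xf f).pt Ω} (hP : Co P x) (hP₁ : Co P₁ x₁) (hP₂ : Co P₂ x₂)
    (hn₁ : ∀ j, L.nm (x₁ j - x j) < 1) (hn₂ : ∀ j, L.nm (x₂ j - x j) < 1) {c : Ω} (hc : c ∈ M')
    (hc1 : L.nm c ≤ 1) {ξ : Fin (d + 1) → Ω} (hξ : Iv L M ξ)
    (hu₁ : ∀ r, L.nm (ψ.uv x₁ r - (L.p * c * ξ r + ψ.uv x r)) ≤ L.nm (L.p : Ω) ^ 2)
    (hu₂ : ∀ r, L.nm (ψ.uv x₂ r - (L.p * Nm M M' c * ξ r + ψ.uv x r)) ≤ L.nm (L.p : Ω) ^ 2) :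
    Nm (K := K) ⊥ M' (Finsupp.single P₁ 1 - Finsupp.single P 1 : (Xf f).pt Ω →₀ ℤ) -
      Nm (K := K) ⊥ M (Finsupp.single P₂ 1 - Finsupp.single P 1) ∈
        Dl f L 2 ⊥ ⊔ (Xf f).ratEq K Ω := by
  have hfd : FiniteDimensional K M := hM.fd
  have hfd' : FiniteDimensional K M' := hM'.fd
  have hp0 := L.p_pos
  have h01 : L.nm (0 : Ω) < 1 := by rw [L.zero]; exact zero_lt_one
  have hx1 : ∀ j, L.nm (x j) ≤ 1 := fun j => (hx j).2
  have h0 := co_zero hP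
  -- the arc
  obtain ⟨a, ha⟩ : ∃ a : Fin (d + 1) → Polynomial Ω, ∀ r, a r = C (ξ r) * X + C (ψ.uv x r) :=
    ⟨_, fun _ => rfl⟩
  have hae : ∀ r c, (a r).eval c = ξ r * c + ψ.uv x r := fun r c => by
    rw [ha, eval_add, eval_mul, eval_C, eval_X, eval_C]
  have hArc : Arc L M a := by
    intro r j
    rw [ha, coeff_add, coeff_C_mul, coeff_X, coeff_C]
    rcases j with _ | _ | j
    · simp only [if_neg (show ¬ (1 = 0) by omega), if_true, mul_zero, zero_add]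
      exact ⟨lv_mem _ fun j => (hx j).1, (hψ.uv_le hx1).1 r⟩
    · simp only [zero_add, if_true, if_neg (show ¬ (1 = 0) by omega), mul_one, add_zero]
      exact hξ r
    · rw [if_neg (by omega), if_neg (by omega), mul_zero, add_zero]
      exact ⟨zero_mem M, by rw [L.zero]; exact zero_le_one⟩
  obtain ⟨Q, hQ⟩ := exists_brc hψ hM hx h0 hD hArc fun r => by rw [hae, mul_zero, zero_add]
  have hQ0 : Q 0 = P := by
    obtain ⟨z, hz, -, hz2, -⟩ := hQ.co 0 h01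
    have e1 : z = x := funext fun j => by
      have e2 := hz2 j
      rw [L.zero] at e2
      exact sub_eq_zero.1 ((L.zero_iff _).1 (le_antisymm e2 (L.nonneg _)))
    rw [e1] at hz
    exact co_eq hz hP
  -- the element `b = p c`
  obtain ⟨b, hb⟩ : ∃ b : Ω, b = L.p • c := ⟨_, rfl⟩
  have hbc : b = L.p * c := by rw [hb, nsmul_eq_mul]
  have hbM : b ∈ M' := by
    rw [hbc]
    exact mul_mem (IntermediateField.natCast_mem M' L.p) hc
  have hbn : L.nm b ≤ L.nm (L.p : Ω) := by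
    rw [hbc, L.mul]
    exact mul_le_of_le_one_right hp0.le hc1
  have hb1 : L.nm b < 1 := hbn.trans_lt L.lt
  have hNb : Nm M M' b = L.p * Nm M M' c := by rw [hb, nm_nsmul h, nsmul_eq_mul]
  have hNbM : Nm M M' b ∈ M := fx_mem.1 (nm_fx h (fx_mem.2 hbM))
  obtain ⟨q, q', hq, hq', hqd, hqq, hr⟩ := exists_cj (L := L) h hbM hbn L.lt
  obtain ⟨hr1, hr2⟩ := hr Q hQ.act
  have hNb1 : L.nm (Nm M M' b) < 1 := by
    obtain ⟨s, -, -, -, h₃⟩ := nm_rep h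
    rw [h₃ Ω b]
    refine lt_of_le_of_lt (L.sum_le _ _ hp0.le fun γ _ => ?_) L.lt
    change L.nm (γ b) ≤ _
    rw [L.act]
    exact hbn
  have hla := hQ.la q q' hq hq' hqd 2 two_ne_zero hqq
  rw [hr1, hr2, hQ0] at hla
  -- the two points
  obtain ⟨k₁, k₂⟩ := tcn_near hψ hx hD hQ hM' h hbM hb1 hx₁ hP₁ hn₁ fun r => by
    have e1 := hu₁ r
    have e2 : (a r).eval b = L.p * c * ξ r + ψ.uv x r := by
      rw [hae, hbc]
      ring
    rwa [e2]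
  obtain ⟨k₃, k₄⟩ := tcn_near hψ hx hD hQ hM le_rfl hNbM hNb1 hx₂ hP₂ hn₂ fun r => by
    have e1 := hu₂ r
    have e2 : (a r).eval (Nm M M' b) = L.p * Nm M M' c * ξ r + ψ.uv x r := by
      rw [hae, hNb]
      ring
    rwa [e2]
  have hFP : Fx M (Finsupp.single P 1 : (Xf f).pt Ω →₀ ℤ) :=
    fx_single (fp_co hP fun j => (hx j).1) 1
  -- the norm of the relation
  have hFx : Fx M (Nm M M' (Finsupp.single (Q b) 1 : (Xf f).pt Ω →₀ ℤ) -
      (Nm M M' (Finsupp.single P 1) + (Finsupp.single (Q (Nm M M' b)) 1 -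
        Finsupp.single P 1))) :=
    (nm_fx h k₂).sub ((nm_fx h (hFP.mono h)).add (k₄.sub hFP))
  have h1 := GM.nm_sup hM hla hFx
  have d₁ := GM.nm_dsp hM' k₁
  have d₂ := GM.nm_dsp hM k₃
  have e1 : Nm (K := K) ⊥ M (Nm M M' (Finsupp.single (Q b) 1 : (Xf f).pt Ω →₀ ℤ) -
      (Nm M M' (Finsupp.single P 1) + (Finsupp.single (Q (Nm M M' b)) 1 -
        Finsupp.single P 1))) =
      Nm (K := K) ⊥ M' (Finsupp.single (Q b) 1 : (Xf f).pt Ω →₀ ℤ) -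
      (Nm (K := K) ⊥ M' (Finsupp.single P 1) + (Nm (K := K) ⊥ M (Finsupp.single (Q (Nm M M' b)) 1) -
        Nm (K := K) ⊥ M (Finsupp.single P 1))) := by
    simp only [← GM.nmh_apply, map_sub, map_add]
    rw [GM.nmh_apply, GM.nmh_apply, ← nm_tr bot_le h k₂, ← nm_tr bot_le h (hFP.mono h)]
    rfl
  rw [e1] at h1
  have e2 : ∀ (M : IntermediateField K Ω) [FiniteDimensional K M] (P P' : (Xf f).pt Ω),
      Nm (K := K) ⊥ M (Finsupp.single P 1 - Finsupp.single P' 1 : (Xf f).pt Ω →₀ ℤ) =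
        Nm (K := K) ⊥ M (Finsupp.single P 1 : (Xf f).pt Ω →₀ ℤ) -
          Nm (K := K) ⊥ M (Finsupp.single P' 1 : (Xf f).pt Ω →₀ ℤ) := by
    intro M _ P P'
    simp only [← GM.nmh_apply, map_sub]
  rw [e2] at d₁ d₂ ⊢
  rw [e2]
  have e3 : Nm (K := K) ⊥ M' (Finsupp.single P₁ 1 : (Xf f).pt Ω →₀ ℤ) -
      Nm (K := K) ⊥ M' (Finsupp.single P 1 : (Xf f).pt Ω →₀ ℤ) -
      (Nm (K := K) ⊥ M (Finsupp.single P₂ 1 : (Xf f).pt Ω →₀ ℤ) -
        Nm (K := K) ⊥ M (Finsupp.single P 1 : (Xf f).pt Ω →₀ ℤ)) =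
      ((Nm (K := K) ⊥ M' (Finsupp.single P₁ 1 : (Xf f).pt Ω →₀ ℤ) -
        Nm (K := K) ⊥ M' (Finsupp.single (Q b) 1 : (Xf f).pt Ω →₀ ℤ)) -
      (Nm (K := K) ⊥ M (Finsupp.single P₂ 1 : (Xf f).pt Ω →₀ ℤ) -
        Nm (K := K) ⊥ M (Finsupp.single (Q (Nm M M' b)) 1 : (Xf f).pt Ω →₀ ℤ))) +
      (Nm (K := K) ⊥ M' (Finsupp.single (Q b) 1 : (Xf f).pt Ω →₀ ℤ) -
      (Nm (K := K) ⊥ M' (Finsupp.single P 1) + (Nm (K := K) ⊥ M (Finsupp.single (Q (Nm M M' b)) 1) -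
        Nm (K := K) ⊥ M (Finsupp.single P 1)))) := by
    abel
  rw [e3]
  exact add_mem (AddSubgroup.mem_sup_left (sub_mem d₁ d₂)) h1

end GX
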