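import Pool.Agent.Lib.MP_f80667_ag.Gx.VD

/-!
The statement on the classes of the cycles with reduction `0`.

* `DmF g f`: any `g + 1` global `1`-forms are linearly dependent.
* `Cbk f V K m b`: the cycles over `K` with reduction `0` have at most `b` classes modulo `m` and rational equivalence.
-/

open ZC BE

namespace GX

/-- Any `g + 1` global `1`-forms are linearly dependent. -/
def DmF {κ : Type} [Field κ] {N : ℕ} {ι : Type} (g : ℕ) (f : ι → MvPolynomial (Fin N) κ) :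
    Prop :=
  ∀ ℓ : Fin (g + 1) → (Fin N → κ) → (Fin N → κ) → κ, (∀ l, Frm f (ℓ l)) →
    ∃ η : Fin (g + 1) → κ, η ≠ 0 ∧ ∀ x t, Tg f x t → ∑ l, η l * ℓ l x t = 0

/-- The cycles over `K` with reduction `0` have at most `b` classes modulo `m` and rational equivalence. -/
def Cbk {F : Type} [Field F] {N : ℕ} {ι : Type} (f : ι → MvPolynomial (Fin N) F) {Ω : Type}
    [Field Ω] [Algebra F Ω] (V : ValuationSubring Ω) (K : Type) [Field K] [Algebra F K]
    [Algebra K Ω] [IsScalarTower F K Ω] (m b : ℕ) : Prop :=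
  ∃ E : Finset ((Xf f).pt Ω →₀ ℤ), E.card ≤ b ∧
    (∀ e ∈ E, e ∈ (Xf f).cyc K Ω ∧ Zrd f V e) ∧
    ∀ z ∈ (Xf f).cyc K Ω, Zrd f V z → ∃ e ∈ E, ∃ z' ∈ (Xf f).cyc K Ω, Zrd f V z' ∧
      z - e - m • z' ∈ (Xf f).ratEq K Ω

end GX
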