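import Mathlib

/-! Counting functions with a Frobenius equation. -/

namespace GX

/-- **Descent.** Proof: choose a family `e : Fin s → E` which is linearly independent over `κ` with `s` maximal (`s ≤ g` by `hd`). For `ℓ ∈ E`: `ℓ = ∑ c_i e_i`; `∑ (c_i ^ q - c_i) (e_i z) ^ q = ℓ (z) ^ q - ℓ (φ z) = 0`, `q = p ^ r`; with the roots `b_i ^ q = c_i ^ q - c_i` (`κ` algebraically closed) and the
injectivity of `x ↦ x ^ q`: `∑ b_i e_i = 0`, `b = 0`: `c_i ^ q = c_i`. So `E` is finite with at most `(p ^ r) ^ s` elements: the `c_i` are roots of `X ^ q - X`. -/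
theorem dc_card {κ X : Type} [Field κ] [IsAlgClosed κ] {p r g : ℕ} [Fact p.Prime] [CharP κ p]
    (hr : r ≠ 0) {φ : X → X} (E : AddSubgroup (X → κ))
    (hE : ∀ ℓ ∈ E, ∀ z, ℓ (φ z) = ℓ z ^ p ^ r)
    (hd : ∀ e : Fin (g + 1) → X → κ, (∀ i, e i ∈ E) → ¬ LinearIndependent κ e) :
    Finite E ∧ Nat.card E ≤ (p ^ r) ^ g := by
  classical
  obtain ⟨q, hq⟩ : ∃ q, q = p ^ r := ⟨_, rfl⟩
  have hp1 : 1 < p := (Fact.out : p.Prime).one_lt
  have hq1 : 1 < q := hq ▸ Nat.one_lt_pow hr hp1
  have hadd : ∀ {n : ℕ} (f : Fin n → κ), (∑ i, f i) ^ q = ∑ i, f i ^ q := by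
    intro n f
    rw [hq]
    exact sum_pow_char_pow p r Finset.univ f
  have hinj : ∀ x : κ, x ^ q = 0 → x = 0 := fun x hx => (pow_eq_zero_iff (by omega)).1 hx
  rw [← hq] at hE ⊢
  let P : ℕ → Prop := fun s => ∃ e : Fin s → X → κ, (∀ i, e i ∈ E) ∧ LinearIndependent κ e
  have hP0 : P 0 := ⟨fun i => i.elim0, fun i => i.elim0, linearIndependent_empty_type⟩
  obtain ⟨s, hs⟩ : ∃ s, s = Nat.findGreatest P g := ⟨_, rfl⟩
  have hsg : s ≤ g := hs ▸ Nat.findGreatest_le g
  have hPs : P s := by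
    rw [hs]
    exact Nat.findGreatest_spec (Nat.zero_le g) hP0
  have hPs1 : ¬ P (s + 1) := by
    intro h
    rcases Nat.lt_or_ge s g with hlt | hge
    · have h1 : s + 1 ≤ Nat.findGreatest P g := Nat.le_findGreatest hlt h
      omega
    · obtain ⟨e, he, hli⟩ := h
      have h2 : s = g := le_antisymm hsg hge
      subst h2
      exact hd e he hli
  obtain ⟨e, he, hli⟩ := hPs
  have hspan : ∀ ℓ ∈ E, ∃ c : Fin s → κ, ∑ i, c i • e i = ℓ := by
    intro ℓ hℓ
    have h1 : ℓ ∈ Submodule.span κ (Set.range e) := by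
      by_contra hc
      refine hPs1 ⟨Fin.snoc e ℓ, ?_, linearIndependent_finSnoc.2 ⟨hli, hc⟩⟩
      intro i
      refine Fin.lastCases ?_ (fun j => ?_) i
      · rw [Fin.snoc_last]
        exact hℓ
      · rw [Fin.snoc_castSucc]
        exact he j
    exact (Submodule.mem_span_range_iff_exists_fun κ).1 h1
  have hfix : ∀ ℓ ∈ E, ∀ c : Fin s → κ, ∑ i, c i • e i = ℓ → ∀ i, c i ^ q = c i := by
    intro ℓ hℓ c hc i
    have hz : ∀ z, ∑ i, c i * e i z = ℓ z := by
      intro z
      have h1 := congrFun hc z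
      rw [Finset.sum_apply] at h1
      simpa using h1
    choose b hb using fun i => IsAlgClosed.exists_pow_nat_eq (c i ^ q - c i) (by omega : 0 < q)
    have h2 : ∀ z, ∑ i, b i * e i z = 0 := by
      intro z
      apply hinj
      rw [hadd]
      have h3 : ∑ i, (b i * e i z) ^ q = ∑ i, (c i * e i z) ^ q - ∑ i, c i * e i (φ z) := by
        rw [← Finset.sum_sub_distrib]
        refine Finset.sum_congr rfl fun i _ => ?_
        rw [mul_pow, mul_pow, hb, hE _ (he i)]
        ring
      rw [h3, ← hadd, hz, hz, hE ℓ hℓ, sub_self]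
    have h4 : ∑ i, b i • e i = 0 := by
      funext z
      rw [Finset.sum_apply]
      simpa using h2 z
    have h5 := Fintype.linearIndependent_iff.1 hli b h4 i
    have h6 := hb i
    rw [h5, zero_pow (by omega)] at h6
    exact (sub_eq_zero.1 h6.symm)
  obtain ⟨Q, hQ⟩ : ∃ Q : Polynomial κ, Q = Polynomial.X ^ q - Polynomial.X := ⟨_, rfl⟩
  have hQd : Q.natDegree = q := by
    rw [hQ]
    exact FiniteField.X_pow_card_sub_X_natDegree_eq κ hq1
  have hQ0 : Q ≠ 0 := by
    intro h
    rw [h, Polynomial.natDegree_zero] at hQd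
    omega
  have hR : Q.roots.toFinset.card ≤ q :=
    (Multiset.toFinset_card_le _).trans ((Polynomial.card_roots' Q).trans hQd.le)
  have hmem : ∀ x : κ, x ^ q = x → x ∈ Q.roots.toFinset := by
    intro x hx
    rw [Multiset.mem_toFinset, Polynomial.mem_roots hQ0, Polynomial.IsRoot.def, hQ]
    simp [hx]
  choose c hc using fun ℓ : E => hspan ℓ.1 ℓ.2
  let Φ : E → (Fin s → Q.roots.toFinset) := fun ℓ i =>
    ⟨c ℓ i, hmem _ (hfix ℓ.1 ℓ.2 (c ℓ) (hc ℓ) i)⟩
  have hΦ : Function.Injective Φ := by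
    intro ℓ ℓ' h
    apply Subtype.ext
    rw [← hc ℓ, ← hc ℓ']
    refine Finset.sum_congr rfl fun i _ => ?_
    have h1 : c ℓ i = c ℓ' i := congrArg Subtype.val (congrFun h i)
    rw [h1]
  refine ⟨Finite.of_injective Φ hΦ, (Nat.card_le_card_of_injective Φ hΦ).trans ?_⟩
  rw [Nat.card_eq_fintype_card, Fintype.card_fun, Fintype.card_fin, Fintype.card_coe]
  exact (Nat.pow_le_pow_left hR s).trans (Nat.pow_le_pow_right (by omega) hsg)

/-- Proof: if `V` is not finite then its dimension is infinite and there are infinitely many linear forms (a linearly independent family `ℕ → V`, `Module.Basis.extend`, or the dual of a subspace of dimension `n` has `p ^ n` elements and all of them extend). If `V` is finite: `Subspace.dual_finrank_eq`,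
`Module.natCard_eq_pow_finrank`. -/
theorem du_card {p : ℕ} [Fact p.Prime] {V : Type} [AddCommGroup V] [Module (ZMod p) V] {n : ℕ}
    (hf : Finite (Module.Dual (ZMod p) V)) (h : Nat.card (Module.Dual (ZMod p) V) ≤ n) :
    Finite V ∧ Nat.card V ≤ n := by
  have h2 : Finite (Module.Dual (ZMod p) (Module.Dual (ZMod p) V)) :=
    Finite.of_injective (fun f : Module.Dual (ZMod p) (Module.Dual (ZMod p) V) =>
      (f : Module.Dual (ZMod p) V → ZMod p)) DFunLike.coe_injective
  have hV : Finite V := by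
    refine Finite.of_injective (Module.Dual.eval (ZMod p) V) ?_
    rw [← LinearMap.ker_eq_bot]
    exact Module.eval_ker (ZMod p) V
  refine ⟨hV, ?_⟩
  have hfd : FiniteDimensional (ZMod p) V := Module.Finite.of_finite
  rw [Module.natCard_eq_pow_finrank (K := ZMod p), Subspace.dual_finrank_eq] at h
  rwa [Module.natCard_eq_pow_finrank (K := ZMod p)]

end GX
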