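import Pool.Agent.Lib.MP_f80667_ag.Gy.Va

/-! The field with p ^ n elements: points and tangent vectors. -/

open ZC BE PE CV IntermediateField

namespace GX

variable {F : Type} [Field F] {N d m : ℕ} {ι : Type} {f : ι → MvPolynomial (Fin N) F}
  {K Ω : Type} [Field K] [CharZero K] [Field Ω] [Algebra K Ω] [Algebra F K] [Algebra F Ω]
  [IsScalarTower F K Ω] [IsAlgClosure K Ω] {L : Ld K Ω} {ψ : Fin m → Prj F N d}
  {f₀ : ι → MvPolynomial (Fin N) (L.V.comap (algebraMap F Ω))}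
  {ψ₀ : Fin m → Prj (L.V.comap (algebraMap F Ω)) N d} {r : ℕ}

private theorem vp_ev {R κ σ : Type} [CommRing R] [Field κ] {ρ : R →+* κ} {φ : κ →+* κ}
    (h : ∀ a, φ (ρ a) = ρ a) (P : MvPolynomial σ R) (x : σ → κ) :
    φ (MvPolynomial.eval x (MvPolynomial.map ρ P)) =
      MvPolynomial.eval (fun i => φ (x i)) (MvPolynomial.map ρ P) := by
  rw [MvPolynomial.eval_map, MvPolynomial.eval_map, MvPolynomial.eval₂_comp_left]
  have h1 : φ.comp ρ = ρ := RingHom.ext h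
  rw [h1]
  rfl

private theorem vp_pe {R κ : Type} [CommRing R] [Field κ] {ρ : R →+* κ} {φ : κ →+* κ}
    (h : ∀ a, φ (ρ a) = ρ a) (P : Polynomial (MvPolynomial (Fin (d + 1)) R))
    (c : Fin (d + 1) → κ) (w : κ) : φ (pe c w (P.map (MvPolynomial.map ρ))) =
      pe (fun s => φ (c s)) (φ w) (P.map (MvPolynomial.map ρ)) := by
  rw [pe_sum, pe_sum, map_sum]
  refine Finset.sum_congr rfl fun j _ => ?_
  rw [map_mul, map_pow, Polynomial.coeff_map]
  congr 1
  exact vp_ev h _ c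

private theorem vp_dr {R R' : Type} [CommRing R] [CommRing R'] (ρ : R →+* R')
    (s : Fin (d + 1)) (P : Polynomial (MvPolynomial (Fin (d + 1)) R)) :
    dr s (P.map (MvPolynomial.map ρ)) = (dr s P).map (MvPolynomial.map ρ) := by
  have hc : ∀ {S : Type} [CommRing S] (Q : Polynomial (MvPolynomial (Fin (d + 1)) S)) (n : ℕ),
      (dr s Q).coeff n = MvPolynomial.pderiv s (Q.coeff n) := by
    intro S _ Q n
    rw [dr, Polynomial.sum_def, Polynomial.finset_sum_coeff]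
    simp only [Polynomial.coeff_C_mul, Polynomial.coeff_X_pow, mul_ite, mul_one, mul_zero]
    rw [Finset.sum_ite_eq]
    split_ifs with h
    · rfl
    · rw [Polynomial.notMem_support_iff.1 h, map_zero]
  ext1 n
  rw [hc, Polynomial.coeff_map, Polynomial.coeff_map, hc, MvPolynomial.pderiv_map]

private theorem vp_tp {R R' : Type} [CommRing R] [CommRing R'] (ρ : R →+* R')
    (φ : Prj R N d) (s : Fin (d + 1)) (j : Fin N) :
    (φ.map ρ).tp s j = (φ.tp s j).map (MvPolynomial.map ρ) := by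
  have hA : (φ.map ρ).A j = (φ.A j).map (MvPolynomial.map ρ) := rfl
  have hG : (φ.map ρ).G = φ.G.map (MvPolynomial.map ρ) := rfl
  have hD : (φ.map ρ).D = MvPolynomial.map ρ φ.D := rfl
  rw [Prj.tp, Prj.tp, hA, hG, hD, vp_dr, vp_dr, MvPolynomial.pderiv_map]
  simp only [Polynomial.map_sub, Polynomial.map_mul, Polynomial.map_C,
    Polynomial.derivative_map]

private theorem vp_iter {κ : Type} [Monoid κ] {p n : ℕ} {a : κ} (h : a ^ p ^ n = a) (e : ℕ) :
    a ^ p ^ (n * e) = a := by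
  rw [pow_mul]
  induction e with
  | zero => rw [pow_zero, pow_one]
  | succ e ih => rw [pow_succ, pow_mul, ih, h]

private theorem vp_frob (L : Ld K Ω) (n : ℕ) : ∃ φ : L.κ →+* L.κ, ∀ a, φ a = a ^ L.p ^ n := by
  have h1 : CharP L.κ L.p := L.char_κ
  have h2 : ExpChar L.κ L.p := ExpChar.prime L.pp
  exact ⟨iterateFrobenius L.κ L.p n, fun a => iterateFrobenius_def L.p n a⟩

/-- The residues of the elements of `F`. Proof: `rdO_hv`, `kf_res` for `n = r`. -/
theorem rdO_kf (hr : L.Rf ⊥ r) (x : L.V.comap (algebraMap F Ω)) :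
    rdO F L.V x ^ L.p ^ r = rdO F L.V x := by
  refine kf_res hr hr.ne dvd_rfl (z := algebraMap F Ω (x : F)) ?_ (rdO_hv x)
  rw [IsScalarTower.algebraMap_apply F K Ω]
  exact (L.Ur ⊥ r).algebraMap_mem _

private theorem vp_rd (hr : L.Rf ⊥ r) {n : ℕ} (hrn : r ∣ n)
    (x : L.V.comap (algebraMap F Ω)) : rdO F L.V x ^ L.p ^ n = rdO F L.V x := by
  obtain ⟨e, rfl⟩ := hrn
  exact vp_iter (rdO_kf (K := K) hr x) e

/-- Proof: the coefficients of `ψ₂ ψ₀ i` are in the field with `p ^ r` elements (`rdO_kf`), which is contained in that with `p ^ n` elements. -/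
theorem pt_kf (hr : L.Rf ⊥ r) {n : ℕ} (hrn : r ∣ n) (i : Fin m) {c : Fin (d + 1) → L.κ}
    {w : L.κ} (hc : ∀ s, c s ^ L.p ^ n = c s) (hw : w ^ L.p ^ n = w) :
    Kfn L n ((ψ₂ ψ₀ i).pt c w) := by
  obtain ⟨φ, hφ⟩ := vp_frob L n
  have h1 : ∀ a, φ (rdO F L.V a) = rdO F L.V a := fun a => by rw [hφ, vp_rd (K := K) hr hrn a]
  have h2 : (fun s => φ (c s)) = c := funext fun s => by rw [hφ, hc s]
  have h3 : φ w = w := by rw [hφ, hw]
  intro j
  rw [← hφ]
  change φ (pe c w (((ψ₀ i).A j).map (MvPolynomial.map (rdO F L.V))) /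
    MvPolynomial.eval c (MvPolynomial.map (rdO F L.V) (ψ₀ i).D)) =
    pe c w (((ψ₀ i).A j).map (MvPolynomial.map (rdO F L.V))) /
    MvPolynomial.eval c (MvPolynomial.map (rdO F L.V) (ψ₀ i).D)
  rw [map_div₀, vp_pe h1, vp_ev h1, h2, h3]

theorem lt_kf (hr : L.Rf ⊥ r) {n : ℕ} (hrn : r ∣ n) (i : Fin m) {c ξ : Fin (d + 1) → L.κ}
    {w : L.κ} (hc : ∀ s, c s ^ L.p ^ n = c s) (hw : w ^ L.p ^ n = w)
    (hξ : ∀ s, ξ s ^ L.p ^ n = ξ s) : Kfn L n ((ψ₂ ψ₀ i).lt c w ξ) := by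
  obtain ⟨φ, hφ⟩ := vp_frob L n
  have h1 : ∀ a, φ (rdO F L.V a) = rdO F L.V a := fun a => by rw [hφ, vp_rd (K := K) hr hrn a]
  have h2 : (fun s => φ (c s)) = c := funext fun s => by rw [hφ, hc s]
  have h3 : φ w = w := by rw [hφ, hw]
  have h4 : ∀ s, φ (ξ s) = ξ s := fun s => by rw [hφ, hξ s]
  have hT : ∀ s j, (ψ₂ ψ₀ i).tp s j = ((ψ₀ i).tp s j).map (MvPolynomial.map (rdO F L.V)) :=
    fun s j => vp_tp _ _ s j
  have hG : Polynomial.derivative (ψ₂ ψ₀ i).G =
      (Polynomial.derivative (ψ₀ i).G).map (MvPolynomial.map (rdO F L.V)) :=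
    Polynomial.derivative_map _ _
  have hD : (ψ₂ ψ₀ i).D = MvPolynomial.map (rdO F L.V) (ψ₀ i).D := rfl
  intro j
  rw [← hφ, Prj.lt, hG, hD, map_div₀, map_sum, map_mul, map_pow, vp_pe h1, vp_ev h1, h2, h3]
  congr 1
  refine Finset.sum_congr rfl fun s _ => ?_
  rw [map_mul, h4, hT, vp_pe h1, h2, h3]

/-- Conjugate tangent vectors. -/
theorem tg_frob (hr : L.Rf ⊥ r) {y u : Fin N → L.κ} (h : Tg (f₂ f₀) y u) :
    Tg (f₂ f₀) (fun i => y i ^ L.p ^ r) fun i => u i ^ L.p ^ r := by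
  obtain ⟨φ, hφ⟩ := vp_frob L r
  have h1 : ∀ a, φ (rdO F L.V a) = rdO F L.V a := fun a => by rw [hφ, rdO_kf (K := K) hr a]
  have h2 : (fun i => y i ^ L.p ^ r) = fun i => φ (y i) := funext fun i => (hφ _).symm
  have h3 : (fun i => u i ^ L.p ^ r) = fun i => φ (u i) := funext fun i => (hφ _).symm
  rw [h2, h3]
  obtain ⟨⟨h4, h5⟩, h6⟩ := h
  refine ⟨⟨fun h0 => h4 (funext fun i => ?_), fun i => ?_⟩, fun i => ?_⟩
  · have h7 : φ (y i) = 0 := congrFun h0 i
    exact (map_eq_zero φ).1 h7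
  · have h7 : φ (MvPolynomial.eval y (MvPolynomial.map (rdO F L.V) (f₀ i))) = 0 := by
      have h8 : MvPolynomial.eval y (MvPolynomial.map (rdO F L.V) (f₀ i)) = 0 := h5 i
      rw [h8, map_zero]
    rw [vp_ev h1] at h7
    exact h7
  · have h8 : φ (∑ j, MvPolynomial.eval y
        (MvPolynomial.pderiv j (MvPolynomial.map (rdO F L.V) (f₀ i))) * u j) = 0 := by
      have h9 : ∑ j, MvPolynomial.eval y
        (MvPolynomial.pderiv j (MvPolynomial.map (rdO F L.V) (f₀ i))) * u j = 0 := h6 i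
      rw [h9, map_zero]
    rw [map_sum] at h8
    rw [← h8]
    refine Finset.sum_congr rfl fun j _ => ?_
    rw [map_mul, MvPolynomial.pderiv_map, vp_ev h1]
    have h9 : MvPolynomial.pderiv j (f₂ f₀ i) =
      MvPolynomial.map (rdO F L.V) (MvPolynomial.pderiv j (f₀ i)) := MvPolynomial.pderiv_map
    rw [h9]

/-- Finitely many elements of `L.κ` are in one of the fields. Proof: `L.κ` is algebraic over the prime field (`L.κ` is the residue field of an algebraic closure; see `Ld` and `GM.kJ`: `Ld.κ_alg` or the Teichmüller representatives); `n` a common multiple. -/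
theorem exists_kf [L.Unr] (hr : L.Rf ⊥ r) (s : Finset L.κ) :
    ∃ n, n ≠ 0 ∧ r ∣ n ∧ ∀ a ∈ s, a ^ L.p ^ n = a := by
  classical
  induction s using Finset.induction_on with
  | empty => exact ⟨r, hr.ne, dvd_rfl, fun a ha => absurd ha (Finset.notMem_empty a)⟩
  | insert b s _ ih =>
    obtain ⟨n, hn, hrn, h⟩ := ih
    obtain ⟨y, hy⟩ := L.hv_surj b
    obtain ⟨N', hN', z, hz, hyz⟩ := Ld.te_rep (L.hv_int hy)
    obtain ⟨t, ht⟩ := L.hv_of (Ld.te_int hN' hz)
    have h3 : b = t := (L.hv_sub hy ht).2 hyz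
    rw [← h3] at ht
    have h4 : b ^ L.p ^ N' = b := by
      have h5 := ht.pow (L.p ^ N')
      rw [show z ^ L.p ^ N' = z from hz] at h5
      exact h5.uniq ht
    refine ⟨n * N', mul_ne_zero hn hN', hrn.mul_right N', fun a ha => ?_⟩
    rcases Finset.mem_insert.1 ha with rfl | ha
    · rw [mul_comm n N']
      exact vp_iter h4 n
    · exact vp_iter (h a ha) N'

end GX
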