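import Pool.Agent.Lib.MP_f80667_ag.Gy.Vc
import Pool.Agent.Lib.MP_f80667_ag.Gy.Vp
import Pool.Agent.Lib.MP_f80667_ag.Gx.Ee

/-! Values: the relation of the curves. -/

open ZC BE PE CV IntermediateField

namespace GX

section vd

variable {k κ : Type} [Field k] [Field κ] [Algebra k κ] {N d : ℕ}

private theorem vd_ev (c : Fin (d + 1) → k) (P : MvPolynomial (Fin (d + 1)) k) :
    MvPolynomial.aeval (fun s => algebraMap k κ (c s)) P =
      algebraMap k κ (MvPolynomial.eval c P) :=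
  MvPolynomial.aeval_algebraMap_apply κ c P

private theorem vd_pe (c : Fin (d + 1) → k) (w : k)
    (P : Polynomial (MvPolynomial (Fin (d + 1)) k)) :
    pe (fun s => algebraMap k κ (c s)) (algebraMap k κ w) P = algebraMap k κ (pe c w P) :=
  (pe_hom (Algebra.ofId k κ) c w P).symm

private theorem vd_pt (ψ : Prj k N d) (c : Fin (d + 1) → k) (w : k) (j : Fin N) :
    (ψ.map (algebraMap k κ)).pt (fun s => algebraMap k κ (c s)) (algebraMap k κ w) j =
      algebraMap k κ (ψ.pt c w j) := by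
  rw [pt_map, vd_pe, vd_ev, Prj.pt, map_div₀]

private theorem vd_sg {κ : Type} [Field κ] (ψ : Prj κ N d) (c : Fin (d + 1) → κ) (w : κ)
    (r : Fin (d + 1)) (j : Fin N) : ψ.lt c w (Pi.single r 1) j = pe c w (ψ.tp r j) /
      (MvPolynomial.eval c ψ.D ^ 2 * pe c w (Polynomial.derivative ψ.G)) := by
  rw [Prj.lt]
  congr 1
  rw [Finset.sum_eq_single r]
  · rw [Pi.single_eq_same, one_mul]
  · intro s _ hs
    rw [Pi.single_eq_of_ne hs, zero_mul]
  · intro hr
    exact absurd (Finset.mem_univ r) hr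

private theorem vd_lin {κ : Type} [Field κ] (ψ : Prj κ N d) (c : Fin (d + 1) → κ) (w : κ)
    (ξ : Fin (d + 1) → κ) (j : Fin N) :
    ψ.lt c w ξ j = ∑ r, ξ r * ψ.lt c w (Pi.single r 1) j := by
  rw [Finset.sum_congr rfl fun r _ => congrArg (ξ r * ·) (vd_sg ψ c w r j), Prj.lt,
    Finset.sum_div]
  exact Finset.sum_congr rfl fun r _ => mul_div_assoc _ _ _

private theorem vd_lt (ψ : Prj k N d) (c : Fin (d + 1) → k) (w : k) (ξ : Fin (d + 1) → k)
    (j : Fin N) :
    (ψ.map (algebraMap k κ)).lt (fun s => algebraMap k κ (c s)) (algebraMap k κ w)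
      (fun s => algebraMap k κ (ξ s)) j = algebraMap k κ (ψ.lt c w ξ j) := by
  rw [vd_lin, vd_lin ψ, map_sum]
  refine Finset.sum_congr rfl fun r _ => ?_
  rw [lt_map, vd_sg, map_mul, map_div₀, map_mul, map_pow, vd_pe, vd_pe, vd_ev]

private theorem vd_gc (ψ : Prj k N d) (c : Fin (d + 1) → k) :
    (ψ.map (algebraMap k κ)).gc (fun s => algebraMap k κ (c s)) =
      (ψ.gc c).map (algebraMap k κ) := by
  have hG : (ψ.map (algebraMap k κ)).G = ψ.G.map (MvPolynomial.map (algebraMap k κ)) := rfl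
  rw [Prj.gc, Prj.gc, hG, Polynomial.map_map, Polynomial.map_map]
  congr 1
  refine RingHom.ext fun P => ?_
  change MvPolynomial.eval (fun s => algebraMap k κ (c s))
    (MvPolynomial.map (algebraMap k κ) P) = algebraMap k κ (MvPolynomial.eval c P)
  rw [eval_map', vd_ev]

private theorem vd_rt (q : Polynomial k) (hq : q ≠ 0)
    (h : ∀ w ∈ (q.map (algebraMap k κ)).roots, ∃ v, algebraMap k κ v = w) :
    (q.map (algebraMap k κ)).roots = q.roots.map (algebraMap k κ) := by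
  classical
  have hq' : q.map (algebraMap k κ) ≠ 0 := (Polynomial.map_ne_zero_iff (algebraMap k κ).injective).2 hq
  refine Multiset.ext.2 fun w => ?_
  by_cases hw : ∃ v, algebraMap k κ v = w
  · obtain ⟨v, rfl⟩ := hw
    rw [Polynomial.count_roots, Multiset.count_map_eq_count' _ _ (algebraMap k κ).injective,
      Polynomial.count_roots]
    exact (Polynomial.eq_rootMultiplicity_map (algebraMap k κ).injective v).symm
  · rw [Multiset.count_eq_zero_of_notMem fun h' => hw (h w h'), eq_comm]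
    refine Multiset.count_eq_zero_of_notMem fun h' => hw ?_
    obtain ⟨v, -, hv⟩ := Multiset.mem_map.1 h'
    exact ⟨v, hv⟩

private theorem vd_av {σ : Type} {a : σ → Polynomial κ} {a' : σ → Polynomial k}
    (h : ∀ s, (a' s).map (algebraMap k κ) = a s) (c : k) :
    av a (algebraMap k κ c) = fun s => algebraMap k κ (av a' c s) := by
  funext s
  change (a s).eval (algebraMap k κ c) = algebraMap k κ ((a' s).eval c)
  rw [← h, Polynomial.eval_map_algebraMap, Polynomial.aeval_algebraMap_apply,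
    Polynomial.coe_aeval_eq_eval]

private theorem vd_dv {σ : Type} {a : σ → Polynomial κ} {a' : σ → Polynomial k}
    (h : ∀ s, (a' s).map (algebraMap k κ) = a s) (c : k) :
    dv a (algebraMap k κ c) = fun s => algebraMap k κ (dv a' c s) := by
  funext s
  change (Polynomial.derivative (a s)).eval (algebraMap k κ c) =
    algebraMap k κ ((Polynomial.derivative (a' s)).eval c)
  rw [← h, Polynomial.derivative_map, Polynomial.eval_map_algebraMap,
    Polynomial.aeval_algebraMap_apply, Polynomial.coe_aeval_eq_eval]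

/-- The values of a polynomial with fixed coefficients at a fixed element. -/
private theorem vd_fx {p n : ℕ} [Fact p.Prime] [CharP κ p] {P : Polynomial κ} {c : κ}
    (hP : ∀ j, P.coeff j ^ p ^ n = P.coeff j) (hc : c ^ p ^ n = c) :
    P.eval c ^ p ^ n = P.eval c ∧
      (Polynomial.derivative P).eval c ^ p ^ n = (Polynomial.derivative P).eval c := by
  have h1 : P.map (iterateFrobenius κ p n) = P := by
    ext j
    rw [Polynomial.coeff_map, iterateFrobenius_def, hP]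
  have h2 : ∀ Q : Polynomial κ, Q.map (iterateFrobenius κ p n) = Q →
      Q.eval c ^ p ^ n = Q.eval c := by
    intro Q hQ
    have h3 := Polynomial.eval_map_apply (iterateFrobenius κ p n) (p := Q) c
    rw [hQ, iterateFrobenius_def, iterateFrobenius_def, hc] at h3
    exact h3.symm
  refine ⟨h2 P h1, h2 _ ?_⟩
  rw [← Polynomial.derivative_map, h1]

end vd

variable {F : Type} [Field F] {N d m : ℕ} {ι : Type} {f : ι → MvPolynomial (Fin N) F}
  {K Ω : Type} [Field K] [CharZero K] [Field Ω] [Algebra K Ω] [Algebra F K] [Algebra F Ω]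
  [IsScalarTower F K Ω] [IsAlgClosure K Ω] {L : Ld K Ω} {ψ : Fin m → Prj F N d}
  {f₀ : ι → MvPolynomial (Fin N) (L.V.comap (algebraMap F Ω))}
  {ψ₀ : Fin m → Prj (L.V.comap (algebraMap F Ω)) N d} {r : ℕ}

variable {B : Type} [AddCommGroup B] {lam : ((Xf f).pt Ω →₀ ℤ) →+ B}

open Classical in
/-- **The relation of the curves.** Proof: `tn_ft`; the arc, `S`, `τ` and the roots are over `kI L n` (`kf_kI`); `Ft.crv`; the roots of `gc` over `kI L n` are those over `L.κ` (all roots over `L.κ` are in `kI L n`; the multiplicities do not change: `Polynomial.eq_rootMultiplicity_map`); `pt_map`, `lt_map`, `eval_map'` of `Gx/Ee.lean`;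
the points and tangent vectors are over the field with `p ^ n` elements, `T y u = Tn .. y u` there (`tn_vn`). -/
theorem tn_crv [L.Unr] (h : Hr f L ψ f₀ ψ₀ r) (hl : Lm f L lam) {n : ℕ} (hn : n ≠ 0)
    (hrn : r ∣ n) (i : Fin m) (a : Fin (d + 1) → Polynomial L.κ) {ρ j : ℕ} {S : Finset L.κ}
    {τ : L.κ} (ha : ∀ s k, (a s).coeff k ^ L.p ^ n = (a s).coeff k)
    (hS : ∀ c ∈ S, c ^ L.p ^ n = c) (hτ : τ ^ L.p ^ n = τ)
    (hw : ∀ c ∈ S, ∀ w ∈ ((ψ₂ ψ₀ i).gc (av a c)).roots, w ^ L.p ^ n = w)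
    (hρ : ∀ s, (a s).natDegree ≤ ρ) (hj : j * ρ < S.card)
    (hD : ∀ c ∈ S, MvPolynomial.eval (av a c) (ψ₂ ψ₀ i).D ≠ 0) :
    ∑ c ∈ S, (((ψ₂ ψ₀ i).gc (av a c)).roots.map fun w => Tn L lam n
      ((ψ₂ ψ₀ i).pt (av a c) w) ((τ * w ^ j * (∏ c' ∈ S.erase c, (c - c'))⁻¹) •
        (ψ₂ ψ₀ i).lt (av a c) w (dv a c))).sum = 0 := by
  obtain ⟨f', ψ', T, hF, e1, e2, hT⟩ := tn_ft h hl hn hrn
  have ok : (ψ₂ ψ₀ i).Ok (f₂ f₀) := (h.dat.ok i).map (rdO F L.V)
  have hf : ∀ i, ∃ e, (f₂ f₀ i).IsHomogeneous e := fun i => by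
    obtain ⟨e, he⟩ := h.dat.hom i
    exact ⟨e, he.map _⟩
  have hch : CharP L.κ L.p := L.char_κ
  have hpp : Fact L.p.Prime := ⟨L.pp⟩
  have e3 : ψ₂ ψ₀ i = (ψ' i).map (algebraMap (GM.kI L n) L.κ) := (congrFun e2 i).symm
  have hlift : ∀ s, ∃ q : Polynomial (GM.kI L n), q.map (algebraMap (GM.kI L n) L.κ) = a s := by
    intro s
    have h1 : a s ∈ Polynomial.lifts (algebraMap (GM.kI L n) L.κ) := by
      rw [Polynomial.lifts_iff_coeff_lifts]
      intro k
      exact ⟨⟨(a s).coeff k, kf_kI (ha s k)⟩, rfl⟩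
    exact (Polynomial.mem_lifts (a s)).1 h1
  choose a' ha' using hlift
  have hSk : ∀ c ∈ S, c ∈ GM.kI L n := fun c hc => kf_kI (hS c hc)
  have hcard : (S.subtype (· ∈ GM.kI L n)).card = S.card := by
    rw [Finset.card_subtype, Finset.filter_true_of_mem hSk]
  have key := hF.crv i a' ρ j (S.subtype (· ∈ GM.kI L n)) ⟨τ, kf_kI hτ⟩
    (fun s => by
      have h1 := hρ s
      rwa [← ha' s, Polynomial.natDegree_map] at h1)
    (by rw [hcard]; exact hj)
    (fun c hc h0 => by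
      refine hD c (Finset.mem_subtype.1 hc) ?_
      have h1 := vd_av ha' c
      have h2 : algebraMap (GM.kI L n) L.κ c = (c : L.κ) := rfl
      rw [h2] at h1
      have h3 : ((ψ' i).map (algebraMap (GM.kI L n) L.κ)).D =
        MvPolynomial.map (algebraMap (GM.kI L n) L.κ) (ψ' i).D := rfl
      rw [h1, e3, h3, eval_map', vd_ev, h0, map_zero])
  rw [← Finset.sum_subtype_of_mem _ hSk, ← key]
  refine Finset.sum_congr rfl fun c hc => ?_
  have hcS : (c : L.κ) ∈ S := Finset.mem_subtype.1 hc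
  have hc2 : algebraMap (GM.kI L n) L.κ c = (c : L.κ) := rfl
  have hava := vd_av ha' c
  have hdva := vd_dv ha' c
  rw [hc2] at hava hdva
  have hgc : (ψ₂ ψ₀ i).gc (av a c) =
      ((ψ' i).gc (av a' c)).map (algebraMap (GM.kI L n) L.κ) := by
    rw [e3, hava, vd_gc]
  have hne : (ψ' i).gc (av a' c) ≠ 0 := by
    intro h0
    rw [h0, Polynomial.map_zero] at hgc
    exact (ok.gc_mon (av a c)).1.ne_zero hgc
  have hw' := hw c hcS
  rw [hgc] at hw'
  have hrt := vd_rt ((ψ' i).gc (av a' c)) hne fun w hwr => ⟨⟨w, kf_kI (hw' w hwr)⟩, rfl⟩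
  rw [hgc, hrt, Multiset.map_map]
  congr 1
  refine Multiset.map_congr rfl fun w hwr => ?_
  have hwm : (w : L.κ) ∈ ((ψ₂ ψ₀ i).gc (av a c)).roots := by
    rw [hgc, hrt]
    exact Multiset.mem_map_of_mem _ hwr
  have hwf : (w : L.κ) ^ L.p ^ n = w := hw c hcS _ hwm
  have hfx : ∀ s, av a c s ^ L.p ^ n = av a c s ∧ dv a c s ^ L.p ^ n = dv a c s := fun s =>
    vd_fx (ha s) (hS c hcS)
  have hpe : pe (av a c) (w : L.κ) (ψ₂ ψ₀ i).G = 0 := ok.mem_gc.1 hwm
  obtain ⟨htg, -⟩ := ok.lt_tg hf hpe (hD c hcS) (dv a c)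
  have hprod : (((∏ c' ∈ (S.subtype (· ∈ GM.kI L n)).erase c, (c - c') : GM.kI L n)) : L.κ) =
      ∏ c' ∈ S.erase (c : L.κ), ((c : L.κ) - c') := by
    rw [← Finset.prod_subtype_of_mem (s := S.erase (c : L.κ)) (fun c' => (c : L.κ) - c')
      (p := (· ∈ GM.kI L n)) fun x hx => hSk x (Finset.mem_of_mem_erase hx)]
    have h1 : (S.erase (c : L.κ)).subtype (· ∈ GM.kI L n) =
        (S.subtype (· ∈ GM.kI L n)).erase c := by
      ext x
      rw [Finset.mem_subtype, Finset.mem_erase, Finset.mem_erase, Finset.mem_subtype]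
      exact and_congr_left fun _ => not_congr Subtype.coe_inj
    rw [h1]
    exact map_prod (algebraMap (GM.kI L n) L.κ) _ _
  obtain ⟨co, hco⟩ : ∃ co : GM.kI L n, co = ⟨τ, kf_kI hτ⟩ * w ^ j *
      (∏ c' ∈ (S.subtype (· ∈ GM.kI L n)).erase c, (c - c'))⁻¹ := ⟨_, rfl⟩
  have hco2 : (co : L.κ) = τ * (w : L.κ) ^ j * (∏ c' ∈ S.erase (c : L.κ), ((c : L.κ) - c'))⁻¹ := by
    rw [hco, ← hprod]
    rfl
  have hcof : (co : L.κ) ^ L.p ^ n = co := by
    rw [hco2, mul_pow, mul_pow, hτ, inv_pow, ← Finset.prod_pow, ← pow_mul, mul_comm j, pow_mul,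
      hwf]
    congr 2
    refine Finset.prod_congr rfl fun c' hc' => ?_
    rw [sub_pow_char_pow, hS _ hcS, hS _ (Finset.mem_of_mem_erase hc')]
  have hyy : (ψ₂ ψ₀ i).pt (av a c) (w : L.κ) =
      fun s => (((ψ' i).pt (av a' c) w s : GM.kI L n) : L.κ) := by
    funext s
    rw [e3, hava]
    exact vd_pt (ψ' i) (av a' c) w s
  have huu : (co : L.κ) • (ψ₂ ψ₀ i).lt (av a c) (w : L.κ) (dv a c) =
      fun s => (((co • (ψ' i).lt (av a' c) w (dv a' c)) s : GM.kI L n) : L.κ) := by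
    funext s
    rw [e3, hava, hdva]
    exact congrArg ((co : L.κ) * ·) (vd_lt (ψ' i) (av a' c) w (dv a' c) s)
  change Tn L lam n ((ψ₂ ψ₀ i).pt (av a c) (w : L.κ)) ((τ * (w : L.κ) ^ j *
    (∏ c' ∈ S.erase (c : L.κ), ((c : L.κ) - c'))⁻¹) •
      (ψ₂ ψ₀ i).lt (av a c) (w : L.κ) (dv a c)) = _
  rw [← hco2]
  refine Eq.trans (b := T ((ψ' i).pt (av a' c) w) (co • (ψ' i).lt (av a' c) w (dv a' c))) ?_
    (by rw [hco]; congr; exact Subsingleton.elim _ _)
  have hkl := lt_kf (ψ₀ := ψ₀) h.rf hrn i (fun s => (hfx s).1) hwf fun s => (hfx s).2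
  have htg2 := tg_smul htg (co : L.κ)
  have hv := tn_vn h hn hrn (lam := lam) (pt_kf (ψ₀ := ψ₀) h.rf hrn i (fun s => (hfx s).1) hwf)
    (u := (co : L.κ) • (ψ₂ ψ₀ i).lt (av a c) (w : L.κ) (dv a c)) (fun s => by
      change ((co : L.κ) * (ψ₂ ψ₀ i).lt (av a c) (w : L.κ) (dv a c) s) ^ L.p ^ n =
        (co : L.κ) * (ψ₂ ψ₀ i).lt (av a c) (w : L.κ) (dv a c) s
      rw [mul_pow, hcof, hkl s]) htg2
  refine (hT _ _ ?_ _ ?_).symm
  · rw [← tg_coe (κ := L.κ)]
    rw [e1, ← hyy, ← huu]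
    exact htg2
  · rw [← hyy, ← huu]
    exact hv

end GX
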