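import Pool.Agent.Lib.MP_f80667_ag.Gy.Lb
import Pool.Agent.Lib.MP_f80667_ag.Gy.Vd

/-! The trace functionals: the relation of the curves. -/

open ZC BE PE CV IntermediateField

namespace GX

variable {F : Type} [Field F] {N d m : ℕ} {ι : Type} {f : ι → MvPolynomial (Fin N) F}
  {K Ω : Type} [Field K] [CharZero K] [Field Ω] [Algebra K Ω] [Algebra F K] [Algebra F Ω]
  [IsScalarTower F K Ω] [IsAlgClosure K Ω] {L : Ld K Ω} {ψ : Fin m → Prj F N d}
  {f₀ : ι → MvPolynomial (Fin N) (L.V.comap (algebraMap F Ω))}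
  {ψ₀ : Fin m → Prj (L.V.comap (algebraMap F Ω)) N d} {r : ℕ}

variable {B : Type} [AddCommGroup B] {lam : ((Xf f).pt Ω →₀ ℤ) →+ B} {χ : B → ZMod L.p}
  {ℓ : (Fin N → L.κ) → (Fin N → L.κ) → L.κ}

/-- Additive on a subgroup: sums over multisets. -/
private theorem lc_ms {A C α : Type} [AddCommGroup A] [AddCommGroup C] {H : AddSubgroup A}
    {χ : A → C} (h : ∀ b ∈ H, ∀ b' ∈ H, χ (b + b') = χ b + χ b') (s : Multiset α) {g : α → A}
    (hg : ∀ w ∈ s, g w ∈ H) :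
    (s.map g).sum ∈ H ∧ χ (s.map g).sum = (s.map fun w => χ (g w)).sum := by
  induction s using Multiset.induction_on with
  | empty =>
    rw [Multiset.map_zero, Multiset.sum_zero, Multiset.map_zero, Multiset.sum_zero]
    refine ⟨zero_mem _, ?_⟩
    have h2 := h 0 (zero_mem _) 0 (zero_mem _)
    rw [add_zero] at h2
    exact left_eq_add.mp h2
  | cons a s ih =>
    obtain ⟨h1, h2⟩ := ih fun w hw => hg w (Multiset.mem_cons_of_mem hw)
    have h3 := hg a (Multiset.mem_cons_self a s)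
    rw [Multiset.map_cons, Multiset.sum_cons, Multiset.map_cons, Multiset.sum_cons]
    exact ⟨add_mem h3 h1, by rw [h _ h3 _ h1, h2]⟩

/-- Additive on a subgroup: finite sums. -/
private theorem lc_fs {A C α : Type} [AddCommGroup A] [AddCommGroup C] {H : AddSubgroup A}
    {χ : A → C} (h : ∀ b ∈ H, ∀ b' ∈ H, χ (b + b') = χ b + χ b') (s : Finset α) {g : α → A}
    (hg : ∀ w ∈ s, g w ∈ H) : χ (∑ w ∈ s, g w) = ∑ w ∈ s, χ (g w) :=
  (lc_ms h s.1 hg).2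

private theorem lc_fx {κ : Type} [Field κ] {p n : ℕ} [Fact p.Prime] [CharP κ p]
    {P : Polynomial κ} {c : κ} (hP : ∀ k, P.coeff k ^ p ^ n = P.coeff k) (hc : c ^ p ^ n = c) :
    (P.eval c) ^ p ^ n = P.eval c ∧
      ((Polynomial.derivative P).eval c) ^ p ^ n = (Polynomial.derivative P).eval c := by
  have hφ : ∀ x : κ, iterateFrobenius κ p n x = x ^ p ^ n := fun x => rfl
  have h1 : P.map (iterateFrobenius κ p n) = P := by
    ext k
    rw [Polynomial.coeff_map, hφ, hP k]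
  constructor
  · rw [← hφ, ← Polynomial.eval_map_apply, h1, hφ, hc]
  · rw [← hφ, ← Polynomial.eval_map_apply, ← Polynomial.derivative_map, h1, hφ, hc]

open Classical in
/-- **The relation of the curves.** Proof: `exists_kf` for the coefficients of the arc, the elements of `S` and all the roots: `n`; for `τ` with `τ ^ p ^ n = τ`: `tn_crv`, `hχ` (a sum of elements of `Vg`, `tn_mem`), so `trn (τ b) = 0` for the sum `b` of the statement (`hℓ`, `tlf_smul`, `trn_add`; `b ^ p ^ n = b`: `pt_kf`, `lt_kf`, `Tlg`); `fp_uniq`. -/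
theorem tlf_crv [L.Unr] (h : Hr f L ψ f₀ ψ₀ r) (hl : Lm f L lam) (hχ : Ad f L lam χ)
    (hℓ : Tlf f₀ r lam χ ℓ) (i : Fin m) (a : Fin (d + 1) → Polynomial L.κ) {ρ j : ℕ}
    {S : Finset L.κ} (hρ : ∀ s, (a s).natDegree ≤ ρ) (hj : j * ρ < S.card)
    (hD : ∀ c ∈ S, MvPolynomial.eval (av a c) (ψ₂ ψ₀ i).D ≠ 0) :
    ∑ c ∈ S, (∏ c' ∈ S.erase c, (c - c'))⁻¹ *
      (((ψ₂ ψ₀ i).gc (av a c)).roots.map fun w => w ^ j *
        ℓ ((ψ₂ ψ₀ i).pt (av a c) w) ((ψ₂ ψ₀ i).lt (av a c) w (dv a c))).sum = 0 := by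
  have hpp : Fact L.p.Prime := ⟨L.pp⟩
  have hch : CharP L.κ L.p := L.char_κ
  have hΩ : IsAlgClosed Ω := IsAlgClosure.isAlgClosed K
  have hκ : IsAlgClosed L.κ := L.κ_closed
  have ok : (ψ₂ ψ₀ i).Ok (f₂ f₀) := (h.dat.ok i).map (rdO F L.V)
  have hf : ∀ i, ∃ e, (f₂ f₀ i).IsHomogeneous e := fun i => by
    obtain ⟨e, he⟩ := h.dat.hom i
    exact ⟨e, he.map _⟩
  obtain ⟨n, hn, hrn, hs⟩ := exists_kf (L := L) (r := r) h.rf
    ((Finset.univ.biUnion fun s => (Finset.range (ρ + 1)).image fun k => (a s).coeff k) ∪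
      (S ∪ S.biUnion fun c => ((ψ₂ ψ₀ i).gc (av a c)).roots.toFinset))
  have hp0 : L.p ^ n ≠ 0 := pow_ne_zero n L.pp.ne_zero
  have ha : ∀ s k, (a s).coeff k ^ L.p ^ n = (a s).coeff k := by
    intro s k
    by_cases hk : k < ρ + 1
    · exact hs _ (Finset.mem_union_left _ (Finset.mem_biUnion.2 ⟨s, Finset.mem_univ _,
        Finset.mem_image_of_mem _ (Finset.mem_range.2 hk)⟩))
    · rw [Polynomial.coeff_eq_zero_of_natDegree_lt (lt_of_le_of_lt (hρ s) (by omega)),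
        zero_pow hp0]
  have hS : ∀ c ∈ S, c ^ L.p ^ n = c := fun c hc =>
    hs _ (Finset.mem_union_right _ (Finset.mem_union_left _ hc))
  have hw : ∀ c ∈ S, ∀ w ∈ ((ψ₂ ψ₀ i).gc (av a c)).roots, w ^ L.p ^ n = w := fun c hc w hw =>
    hs _ (Finset.mem_union_right _ (Finset.mem_union_right _
      (Finset.mem_biUnion.2 ⟨c, hc, Multiset.mem_toFinset.2 hw⟩)))
  obtain ⟨π, hπ⟩ : ∃ π : L.κ → L.κ, ∀ c, π c = (∏ c' ∈ S.erase c, (c - c'))⁻¹ :=
    ⟨_, fun _ => rfl⟩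
  have hπn : ∀ c ∈ S, π c ^ L.p ^ n = π c := by
    intro c hc
    rw [hπ, inv_pow, ← Finset.prod_pow]
    congr 1
    refine Finset.prod_congr rfl fun c' hc' => ?_
    rw [sub_pow_char_pow, hS _ hc, hS _ (Finset.mem_of_mem_erase hc')]
  -- the points and tangent vectors
  have hpt : ∀ c ∈ S, ∀ w ∈ ((ψ₂ ψ₀ i).gc (av a c)).roots,
      Kfn L n ((ψ₂ ψ₀ i).pt (av a c) w) ∧ Kfn L n ((ψ₂ ψ₀ i).lt (av a c) w (dv a c)) ∧
      Tg (f₂ f₀) ((ψ₂ ψ₀ i).pt (av a c) w) ((ψ₂ ψ₀ i).lt (av a c) w (dv a c)) := by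
    intro c hc w hwr
    have hfx : ∀ s, av a c s ^ L.p ^ n = av a c s ∧ dv a c s ^ L.p ^ n = dv a c s := fun s =>
      lc_fx (ha s) (hS c hc)
    have hwf := hw c hc w hwr
    exact ⟨pt_kf h.rf hrn i (fun s => (hfx s).1) hwf,
      lt_kf h.rf hrn i (fun s => (hfx s).1) hwf fun s => (hfx s).2,
      (ok.lt_tg hf (ok.mem_gc.1 hwr) (hD c hc) (dv a c)).1⟩
  obtain ⟨b, hb⟩ : ∃ b, b = ∑ c ∈ S, π c *
      (((ψ₂ ψ₀ i).gc (av a c)).roots.map fun w => w ^ j *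
        ℓ ((ψ₂ ψ₀ i).pt (av a c) w) ((ψ₂ ψ₀ i).lt (av a c) w (dv a c))).sum := ⟨_, rfl⟩
  have hb0 : b = 0 := by
    refine fp_uniq hn ?_ (zero_pow hp0) fun τ hτ => ?_
    · obtain ⟨k, hk⟩ : ∃ k : Subfield L.κ, ∀ x, x ∈ k ↔ x ^ L.p ^ n = x :=
        ⟨(iterateFrobenius L.κ L.p n).eqLocusField (RingHom.id L.κ), fun x => Iff.rfl⟩
      rw [← hk, hb]
      refine sum_mem fun c hc => mul_mem ((hk _).2 (hπn c hc)) (multiset_sum_mem _ ?_)
      intro x hx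
      obtain ⟨w, hwr, rfl⟩ := Multiset.mem_map.1 hx
      obtain ⟨h1, h2, h3⟩ := hpt c hc w hwr
      exact mul_mem (pow_mem ((hk _).2 (hw c hc w hwr)) j)
        ((hk _).2 (hℓ n _ _ hn hrn h1 h2 h3).1)
    · obtain ⟨tr, htr⟩ : ∃ tr : L.κ →+ L.κ, ∀ x, tr x = trn L.p n x :=
        ⟨AddMonoidHom.mk' (trn L.p n) trn_add, fun x => rfl⟩
      obtain ⟨v, hv⟩ : ∃ v : ZMod L.p →+ L.κ, ∀ x, v x = (x.val : L.κ) :=
        ⟨AddMonoidHom.mk' (fun x => (x.val : L.κ)) fun x y => by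
          rw [ZMod.natCast_val, ZMod.natCast_val, ZMod.natCast_val]
          exact ZMod.cast_add' x y, fun x => rfl⟩
      rw [mul_zero, ← htr, ← htr, map_zero, hb, Finset.mul_sum, map_sum]
      have key := tn_crv h hl hn hrn i a ha hS hτ hw hρ hj hD
      have hmem : ∀ c ∈ S, ∀ w ∈ ((ψ₂ ψ₀ i).gc (av a c)).roots,
          Tn L lam n ((ψ₂ ψ₀ i).pt (av a c) w) ((τ * w ^ j * π c) •
            (ψ₂ ψ₀ i).lt (av a c) w (dv a c)) ∈ Vg f L lam ∧
          v (χ (Tn L lam n ((ψ₂ ψ₀ i).pt (av a c) w) ((τ * w ^ j * π c) •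
            (ψ₂ ψ₀ i).lt (av a c) w (dv a c)))) = tr (τ * (π c * (w ^ j *
              ℓ ((ψ₂ ψ₀ i).pt (av a c) w) ((ψ₂ ψ₀ i).lt (av a c) w (dv a c))))) := by
        intro c hc w hwr
        obtain ⟨h1, h2, h3⟩ := hpt c hc w hwr
        have h4 : (τ * w ^ j * π c) ^ L.p ^ n = τ * w ^ j * π c := by
          rw [mul_pow, mul_pow, hτ, hπn c hc, ← pow_mul, mul_comm j, pow_mul, hw c hc w hwr]
        have h5 : Kfn L n ((τ * w ^ j * π c) • (ψ₂ ψ₀ i).lt (av a c) w (dv a c)) := fun s => by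
          rw [Pi.smul_apply, smul_eq_mul, mul_pow, h4, h2 s]
        refine ⟨tn_mem h hn hrn h1 h5 (tg_smul h3 _), ?_⟩
        rw [hv, (hℓ n _ _ hn hrn h1 h2 h3).2 _ h4, htr]
        congr 1
        ring
      have e1 : ∀ c ∈ S, tr (τ * (π c * (((ψ₂ ψ₀ i).gc (av a c)).roots.map fun w => w ^ j *
          ℓ ((ψ₂ ψ₀ i).pt (av a c) w) ((ψ₂ ψ₀ i).lt (av a c) w (dv a c))).sum)) =
          v (χ ((((ψ₂ ψ₀ i).gc (av a c)).roots.map fun w => Tn L lam n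
            ((ψ₂ ψ₀ i).pt (av a c) w) ((τ * w ^ j * π c) •
              (ψ₂ ψ₀ i).lt (av a c) w (dv a c))).sum)) := by
        intro c hc
        rw [(lc_ms hχ _ fun w hwr => (hmem c hc w hwr).1).2, ← Multiset.sum_map_mul_left,
          ← Multiset.sum_map_mul_left, map_multiset_sum, map_multiset_sum, Multiset.map_map,
          Multiset.map_map]
        congr 1
        refine Multiset.map_congr rfl fun w hwr => ?_
        exact ((hmem c hc w hwr).2).symm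
      rw [Finset.sum_congr rfl e1, ← map_sum, ← lc_fs hχ _ fun c hc =>
        (lc_ms hχ _ fun w hwr => (hmem c hc w hwr).1).1]
      have e2 : (∑ c ∈ S, (((ψ₂ ψ₀ i).gc (av a c)).roots.map fun w => Tn L lam n
            ((ψ₂ ψ₀ i).pt (av a c) w) ((τ * w ^ j * π c) •
              (ψ₂ ψ₀ i).lt (av a c) w (dv a c))).sum) = 0 := by
        rw [← key]
        refine Finset.sum_congr rfl fun c _ => ?_
        rw [hπ]
      rw [e2]
      have h2 := hχ 0 (zero_mem _) 0 (zero_mem _)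
      rw [add_zero] at h2
      rw [left_eq_add.mp h2, map_zero]
  rw [← hb0, hb]
  exact Finset.sum_congr rfl fun c _ => by rw [hπ]

/-- Proof: `tlf_add`, `tlf_smul`, `tlf_hom`, `tlf_rad`, `tlf_crv`. -/
theorem tlf_fv [L.Unr] (h : Hr f L ψ f₀ ψ₀ r) (hl : Lm f L lam) (hχ : Ad f L lam χ)
    (hℓ : Tlf f₀ r lam χ ℓ) : Fv (f₂ f₀) (ψ₂ ψ₀) ℓ where
  add _ _ _ ht ht' := tlf_add h hl hχ hℓ ht ht'
  smul _ _ c ht := tlf_smul h hℓ ht c
  hom _ _ _ hc ht := tlf_hom h hl hℓ ht hc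
  rad _ c hz := tlf_rad h hl hχ hℓ hz c
  crv i a _ _ _ hρ hj hD := tlf_crv h hl hχ hℓ i a hρ hj hD

end GX
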