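import Pool.Agent.Lib.MP_f80667_ag.Gy.Ra
import Pool.Agent.Lib.MP_f80667_ag.Gy.Lc
import Pool.Agent.Lib.MP_f80667_ag.Gy.Dc

/-! The group of the values is finite. -/

open ZC BE PE CV IntermediateField

namespace GX

variable {F : Type} [Field F] {N d m : ℕ} {ι : Type} {f : ι → MvPolynomial (Fin N) F}
  {K Ω : Type} [Field K] [CharZero K] [Field Ω] [Algebra K Ω] [Algebra F K] [Algebra F Ω]
  [IsScalarTower F K Ω] [IsAlgClosure K Ω] {L : Ld K Ω} {ψ : Fin m → Prj F N d}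
  {f₀ : ι → MvPolynomial (Fin N) (L.V.comap (algebraMap F Ω))}
  {ψ₀ : Fin m → Prj (L.V.comap (algebraMap F Ω)) N d} {r : ℕ}

variable {B : Type} [AddCommGroup B] {lam : ((Xf f).pt Ω →₀ ℤ) →+ B}

/-- The pairs (point, tangent vector). -/
abbrev Tx {κ : Type} [Field κ] (f : ι → MvPolynomial (Fin N) κ) : Type :=
  {z : (Fin N → κ) × (Fin N → κ) // Tg f z.1 z.2}

/-- The Frobenius map. -/
noncomputable def frx (hr : L.Rf ⊥ r) (z : Tx (f₂ f₀)) : Tx (f₂ f₀) :=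
  ⟨(fun i => z.1.1 i ^ L.p ^ r, fun i => z.1.2 i ^ L.p ^ r), tg_frob hr z.2⟩

private theorem rb_val {R : Type} [Field R] {p : ℕ} [Fact p.Prime] [CharP R p] (a b : ZMod p) :
    ((a + b).val : R) = (a.val : R) + (b.val : R) := by
  rw [ZMod.natCast_val, ZMod.natCast_val, ZMod.natCast_val]
  exact ZMod.cast_add' a b

private theorem rb_zero {R : Type} [Field R] {p : ℕ} [Fact p.Prime] [CharP R p] {a : ZMod p}
    (h : (a.val : R) = 0) : a = 0 := by
  have h1 := (CharP.cast_eq_zero_iff R p a.val).1 h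
  have h2 := Nat.eq_zero_of_dvd_of_lt h1 a.val_lt
  exact (ZMod.val_eq_zero a).1 h2

open Classical in
/-- The extension by `0`. -/
private noncomputable def rbx (H : AddSubgroup B) {A : Type} [AddCommGroup A] (θ : H →+ A)
    (b : B) : A :=
  if hb : b ∈ H then θ ⟨b, hb⟩ else 0

private theorem rbx_mem {H : AddSubgroup B} {A : Type} [AddCommGroup A] (θ : H →+ A) {b : B}
    (hb : b ∈ H) : rbx H θ b = θ ⟨b, hb⟩ := by
  rw [rbx, dif_pos hb]

private theorem rbx_add {H : AddSubgroup B} {A : Type} [AddCommGroup A] (θ θ' : H →+ A) (b : B) :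
    rbx H (θ + θ') b = rbx H θ b + rbx H θ' b := by
  by_cases hb : b ∈ H
  · rw [rbx_mem _ hb, rbx_mem _ hb, rbx_mem _ hb, AddMonoidHom.add_apply]
  · rw [rbx, rbx, rbx, dif_neg hb, dif_neg hb, dif_neg hb, add_zero]

/-- **Embedding of the characters.** Proof: `θ` extended by `0` is `χ` (`Ad`); `exists_tl`: `ℓ`, `e θ` its restriction; additive: at every tangent vector `fp_uniq` (`exists_kf`, `Tlg`, `trn_add`); injective: if the values of `ℓ` are `0` then `χ (Tn .. y u) = 0` (`Tlg` with `τ = 1`; `trn 0 = 0`), `vg_gen`;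
`tlf_fv`, `tlf_frob`. -/
theorem exists_emb [L.Unr] (h : Hr f L ψ f₀ ψ₀ r) (hl : Lm f L lam) :
    ∃ e : (Vg f L lam →+ ZMod L.p) →+ (Tx (f₂ f₀) → L.κ),
      Function.Injective e ∧ ∀ θ, (∀ z, e θ (frx h.rf z) = e θ z ^ L.p ^ r) ∧
        ∃ ℓ, Fv (f₂ f₀) (ψ₂ ψ₀) ℓ ∧ ∀ z, e θ z = ℓ z.1.1 z.1.2 := by
  classical
  have : Fact L.p.Prime := ⟨L.pp⟩
  have : CharP L.κ L.p := L.char_κ
  have : IsAlgClosed Ω := IsAlgClosure.isAlgClosed K
  have : IsAlgClosed L.κ := L.κ_closed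
  have hχ : ∀ θ : Vg f L lam →+ ZMod L.p, Ad f L lam (rbx (Vg f L lam) θ) := by
    intro θ b hb b' hb'
    rw [rbx_mem θ hb, rbx_mem θ hb', rbx_mem θ (add_mem hb hb'), ← map_add]
    rfl
  choose ℓ hℓ using fun θ : Vg f L lam →+ ZMod L.p => exists_tl h hl (hχ θ)
  have hadd : ∀ (θ θ' : Vg f L lam →+ ZMod L.p) (z : Tx (f₂ f₀)),
      ℓ (θ + θ') z.1.1 z.1.2 = ℓ θ z.1.1 z.1.2 + ℓ θ' z.1.1 z.1.2 := by
    rintro θ θ' ⟨⟨y, u⟩, ht⟩
    have ht : Tg (f₂ f₀) y u := ht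
    obtain ⟨n, hn, hrn, hs⟩ := exists_kf (L := L) (r := r) h.rf
      (Finset.univ.image y ∪ Finset.univ.image u)
    have hy : Kfn L n y := fun i => hs _ (Finset.mem_union_left _
      (Finset.mem_image_of_mem _ (Finset.mem_univ _)))
    have hu : Kfn L n u := fun i => hs _ (Finset.mem_union_right _
      (Finset.mem_image_of_mem _ (Finset.mem_univ _)))
    have h1 := hℓ θ n y u hn hrn hy hu ht
    have h2 := hℓ θ' n y u hn hrn hy hu ht
    have h3 := hℓ (θ + θ') n y u hn hrn hy hu ht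
    change ℓ (θ + θ') y u = ℓ θ y u + ℓ θ' y u
    refine fp_uniq hn h3.1 ?_ fun τ hτ => ?_
    · rw [add_pow_char_pow, h1.1, h2.1]
    · rw [← h3.2 τ hτ, mul_add, trn_add, ← h1.2 τ hτ, ← h2.2 τ hτ, rbx_add, rb_val]
  refine ⟨AddMonoidHom.mk' (fun θ z => ℓ θ z.1.1 z.1.2) fun θ θ' => funext fun z => hadd θ θ' z,
    ?_, fun θ => ⟨fun z => ?_, ℓ θ, tlf_fv h hl (hχ θ) (hℓ θ), fun z => rfl⟩⟩
  · rw [injective_iff_map_eq_zero]
    intro θ hθ
    have h0 : ∀ z : Tx (f₂ f₀), ℓ θ z.1.1 z.1.2 = 0 := fun z => congrFun hθ z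
    have hle : AddSubgroup.closure {b | ∃ (n : ℕ) (y u : Fin N → L.κ), n ≠ 0 ∧ r ∣ n ∧
        Kfn L n y ∧ Kfn L n u ∧ Tg (f₂ f₀) y u ∧ b = Tn L lam n y u} ≤
          θ.ker.map (Vg f L lam).subtype := by
      rw [AddSubgroup.closure_le]
      rintro b ⟨n, y, u, hn, hrn, hy, hu, ht, rfl⟩
      have hm := tn_mem (lam := lam) h hn hrn hy hu ht
      refine ⟨⟨_, hm⟩, ?_, rfl⟩
      have h1 := (hℓ θ n y u hn hrn hy hu ht).2 1 (one_pow _)
      rw [one_smul, one_mul, h0 ⟨(y, u), ht⟩, rbx_mem θ hm] at h1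
      have h2 : trn L.p n (0 : L.κ) = 0 := by
        unfold trn
        exact Finset.sum_eq_zero fun i _ => zero_pow (pow_ne_zero i L.pp.ne_zero)
      rw [h2] at h1
      exact rb_zero h1
    ext b
    obtain ⟨c, hc, hcb⟩ := hle (vg_gen h hl b.2)
    have e1 : c = b := Subtype.ext hcb
    rw [e1] at hc
    exact hc
  · exact tlf_frob h hl (hℓ θ) z.2

/-- Proof: `du_card`, `AddMonoidHom.toZModLinearMapEquiv`, `AddCommGroup.zmodModule`. -/
theorem du_card' {p : ℕ} [Fact p.Prime] {V : Type} [AddCommGroup V] (hV : ∀ x : V, p • x = 0)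
    {n : ℕ} (hf : Finite (V →+ ZMod p)) (h : Nat.card (V →+ ZMod p) ≤ n) :
    Finite V ∧ Nat.card V ≤ n := by
  let _ : Module (ZMod p) V := AddCommGroup.zmodModule hV
  have e : (V →+ ZMod p) ≃ Module.Dual (ZMod p) V :=
    { toFun := fun φ => φ.toZModLinearMap p
      invFun := fun φ => φ.toAddMonoidHom
      left_inv := fun φ => rfl
      right_inv := fun φ => rfl }
  exact du_card (Finite.of_equiv _ e) (by rwa [← Nat.card_congr e])

/-- **The group of the values is finite.** Proof: `exists_emb`; `dc_card` for the range of `e` (`hd` from `hg`: a linear dependence; `r ≠ 0`: `h.rf.ne`); `du_card'` (`hl.tor`). -/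
theorem vg_card [L.Unr] (h : Hr f L ψ f₀ ψ₀ r) (hl : Lm f L lam) {g : ℕ}
    (hg : Dmf g (f₂ f₀) (ψ₂ ψ₀)) :
    Finite (Vg f L lam) ∧ Nat.card (Vg f L lam) ≤ (L.p ^ r) ^ g := by
  have : Fact L.p.Prime := ⟨L.pp⟩
  have : CharP L.κ L.p := L.char_κ
  have : IsAlgClosed Ω := IsAlgClosure.isAlgClosed K
  have : IsAlgClosed L.κ := L.κ_closed
  obtain ⟨e, he, h1⟩ := exists_emb h hl
  obtain ⟨h2, h3⟩ := dc_card (p := L.p) h.rf.ne (φ := frx h.rf) (g := g) e.range (by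
    rintro _ ⟨θ, rfl⟩ z
    exact (h1 θ).1 z) (by
    intro e' he' hli
    choose θ hθ using he'
    choose ℓ hℓ hℓ' using fun i => (h1 (θ i)).2
    obtain ⟨η, hη, hs⟩ := hg ℓ hℓ
    refine hη (funext fun i => Fintype.linearIndependent_iff.1 hli η (funext fun z => ?_) i)
    rw [Finset.sum_apply, Pi.zero_apply, ← hs z.1.1 z.1.2 z.2]
    refine Finset.sum_congr rfl fun l _ => ?_
    rw [Pi.smul_apply, smul_eq_mul, ← hθ l, hℓ' l z])
  have e1 := e.ofInjective he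
  refine du_card' (p := L.p) (fun x => ?_) (Finite.of_equiv _ e1.symm.toEquiv) ?_
  · obtain ⟨_, z, hz, rfl⟩ := x
    refine Subtype.ext ?_
    exact hl.tor z hz
  · rw [Nat.card_congr e1.toEquiv]
    exact h3

end GX
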