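import Pool.Agent.Lib.MP_f80667_ag.Gy.Fp
import Pool.Agent.Lib.MP_f80667_ag.Gx.TsC
import Pool.Agent.Lib.MP_f80667_ag.Gx.TsD
import Pool.Agent.Lib.MP_f80667_ag.Gx.Dt

/-!
Trace functionals.

* `Kfn L n y`: the coordinates are in the field with `p ^ n` elements.
* `Vn lam n y u b`: `b` is the value of `lam` at the trace of `[P'] - [P]`, `P`, `P'` over `Ur ⊥ n`, `y` and `u` the residues of the coordinates `x` and of `(x' - x) / p`.
* `Tn L lam n y u`: this value. `Vg f L lam`: the group of the values of `lam` at the displacements of level `1`. `Ad f L lam χ`: `χ` is additive on it.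
* `Tlg lam χ n y u a`: `χ` of the value at `y`, `τ u` is the trace of `τ a`.
* `f₂ f₀`, `ψ₂ ψ₀`: the reductions over `L.κ`. `Hr f L ψ f₀ ψ₀ r`: the hypotheses; `r` is the degree of the residue field of `K`.
* `Dmf g f ψ`, `Dmn g f ψ`: any `g + 1` functions on the tangent vectors (`Fv`), any `g + 1` compatible systems (`Sy`) are linearly dependent.
-/

open ZC BE PE CV IntermediateField

namespace GX

variable {F : Type} [Field F] {N : ℕ} {ι : Type} (f : ι → MvPolynomial (Fin N) F) {K Ω : Type}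
  [Field K] [Field Ω] [Algebra K Ω] [Algebra F K] [Algebra F Ω] [IsScalarTower F K Ω]
  (L : Ld K Ω)

/-- The coordinates are in the field with `p ^ n` elements. -/
def Kfn (n : ℕ) (y : Fin N → L.κ) : Prop := ∀ i, y i ^ L.p ^ n = y i

variable {B : Type} [AddCommGroup B]

variable {f} in
/-- `b` is the value of `lam` at the trace of `[P'] - [P]`. -/
def Vn (lam : ((Xf f).pt Ω →₀ ℤ) →+ B) (n : ℕ) (y u : Fin N → L.κ) (b : B) : Prop :=
  ∃ (x x' : Fin N → Ω) (P P' : (Xf f).pt Ω), Iv L (L.Ur ⊥ n) x ∧ Iv L (L.Ur ⊥ n) x' ∧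
    Co P x ∧ Co P' x' ∧ (∀ i, L.rs.Hv (x i) (y i)) ∧
    (∀ i, L.rs.Hv ((x' i - x i) / (L.p : Ω)) (u i)) ∧
    b = lam (rtr (Xf f) ⊥ (L.Ur ⊥ n) (Finsupp.single P' 1 - Finsupp.single P 1))

open Classical in
variable {f} in
/-- The value. -/
noncomputable def Tn (lam : ((Xf f).pt Ω →₀ ℤ) →+ B) (n : ℕ) (y u : Fin N → L.κ) : B :=
  if h : ∃ b, Vn L lam n y u b then h.choose else 0

/-- The values of `lam` at the displacements of level `1`. -/
noncomputable def Vg (lam : ((Xf f).pt Ω →₀ ℤ) →+ B) : AddSubgroup B :=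
  (Dl f L 1 (⊥ : IntermediateField K Ω)).map lam

/-- `χ` is additive on the values. -/
def Ad (lam : ((Xf f).pt Ω →₀ ℤ) →+ B) (χ : B → ZMod L.p) : Prop :=
  ∀ b ∈ Vg f L lam, ∀ b' ∈ Vg f L lam, χ (b + b') = χ b + χ b'

variable {f} in
/-- `χ` of the value at `y`, `τ u` is the trace of `τ a`. -/
def Tlg (lam : ((Xf f).pt Ω →₀ ℤ) →+ B) (χ : B → ZMod L.p) (n : ℕ) (y u : Fin N → L.κ)
    (a : L.κ) : Prop :=
  a ^ L.p ^ n = a ∧ ∀ τ : L.κ, τ ^ L.p ^ n = τ →
    ((χ (Tn L lam n y (τ • u))).val : L.κ) = trn L.p n (τ * a)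

section red

variable {f L} {d m : ℕ}

/-- The reduction of the variety. -/
noncomputable def f₂ (f₀ : ι → MvPolynomial (Fin N) (L.V.comap (algebraMap F Ω))) :
    ι → MvPolynomial (Fin N) L.κ := fun i => MvPolynomial.map (rdO F L.V) (f₀ i)

/-- The reductions of the projections. -/
noncomputable def ψ₂ (ψ₀ : Fin m → Prj (L.V.comap (algebraMap F Ω)) N d) :
    Fin m → Prj L.κ N d := fun i => (ψ₀ i).map (rdO F L.V)

variable (f L) in
/-- The hypotheses. -/
structure Hr (ψ : Fin m → Prj F N d)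
    (f₀ : ι → MvPolynomial (Fin N) (L.V.comap (algebraMap F Ω)))
    (ψ₀ : Fin m → Prj (L.V.comap (algebraMap F Ω)) N d) (r : ℕ) : Prop where
  rf : L.Rf ⊥ r
  dat : Dat L.V f ψ f₀ ψ₀
  hp : ∀ i, (ψ i).G.natDegree < L.p
  h2 : 2 < L.p

end red

section

variable {κ : Type} [Field κ] {d m : ℕ}

/-- Any `g + 1` functions on the tangent vectors are linearly dependent. -/
def Dmf (g : ℕ) (f : ι → MvPolynomial (Fin N) κ) (ψ : Fin m → Prj κ N d) : Prop :=
  ∀ ℓ : Fin (g + 1) → (Fin N → κ) → (Fin N → κ) → κ, (∀ l, Fv f ψ (ℓ l)) →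
    ∃ η : Fin (g + 1) → κ, η ≠ 0 ∧ ∀ x t, Tg f x t → ∑ l, η l * ℓ l x t = 0

/-- Any `g + 1` compatible systems are linearly dependent. -/
def Dmn (g : ℕ) (f : ι → MvPolynomial (Fin N) κ) (ψ : Fin m → Prj κ N d) : Prop :=
  ∀ P : Fin (g + 1) → Pv κ m d, (∀ l, Sy f ψ (P l)) →
    ∃ η : Fin (g + 1) → κ, η ≠ 0 ∧ ∀ i j r, ∑ l, MvPolynomial.C (η l) * P l i j r = 0

end

end GX
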