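import Mathlib

/-!
Trace functionals of finite fields inside an algebraically closed field of characteristic `p`: the field with `p ^ n` elements is `{x | x ^ p ^ n = x}`.
-/

namespace GX

/-- The trace to the prime field of an element of the field with `p ^ n` elements. -/
def trn {κ : Type} [Field κ] (p n : ℕ) (a : κ) : κ := ∑ i ∈ Finset.range n, a ^ p ^ i

variable {κ : Type} [Field κ] {p n : ℕ}

theorem trn_add [Fact p.Prime] [CharP κ p] (a b : κ) : trn p n (a + b) = trn p n a + trn p n b := by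
  unfold trn
  rw [← Finset.sum_add_distrib]
  exact Finset.sum_congr rfl fun i _ => add_pow_char_pow ..

private theorem fp_roots [Fact p.Prime] [CharP κ p] [IsAlgClosed κ] (hn : n ≠ 0) :
    ∃ S : Finset κ, (∀ x, x ∈ S ↔ x ^ p ^ n = x) ∧ S.card = p ^ n := by
  classical
  have hp : p.Prime := Fact.out
  have h0 := FiniteField.X_pow_card_pow_sub_X_ne_zero κ hn hp.one_lt
  have hs : (Polynomial.X ^ p ^ n - Polynomial.X : Polynomial κ).Separable :=
    galois_poly_separable p (p ^ n) (dvd_pow_self p hn)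
  refine ⟨(Polynomial.X ^ p ^ n - Polynomial.X : Polynomial κ).roots.toFinset, fun x => ?_, ?_⟩
  · rw [Multiset.mem_toFinset, Polynomial.mem_roots h0, Polynomial.IsRoot, Polynomial.eval_sub,
      Polynomial.eval_pow, Polynomial.eval_X, sub_eq_zero]
  · rw [Multiset.toFinset_card_of_nodup (Polynomial.nodup_roots hs),
      IsAlgClosed.card_roots_eq_natDegree]
    exact FiniteField.X_pow_card_pow_sub_X_natDegree_eq κ hn hp.one_lt

private theorem fp_prime [Fact p.Prime] [CharP κ p] {x : κ} (hx : x ^ p = x) :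
    ∃ c : ZMod p, (c.val : κ) = x := by
  classical
  have hp : p.Prime := Fact.out
  have h0 : (Polynomial.X ^ p - Polynomial.X : Polynomial κ) ≠ 0 :=
    FiniteField.X_pow_card_sub_X_ne_zero κ hp.one_lt
  have hd : (Polynomial.X ^ p - Polynomial.X : Polynomial κ).natDegree = p :=
    FiniteField.X_pow_card_sub_X_natDegree_eq κ hp.one_lt
  have hinj : Function.Injective fun c : ZMod p => (c.val : κ) := by
    intro c d h
    have h2 : ZMod.castHom (dvd_refl p) κ c = ZMod.castHom (dvd_refl p) κ d := by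
      rw [ZMod.castHom_apply, ZMod.castHom_apply, ← ZMod.natCast_val, ← ZMod.natCast_val]
      exact h
    exact (ZMod.castHom (dvd_refl p) κ).injective h2
  have hroot : ∀ c : ZMod p, (c.val : κ) ^ p = (c.val : κ) := by
    intro c
    have h2 : (ZMod.castHom (dvd_refl p) κ c) ^ p = ZMod.castHom (dvd_refl p) κ c := by
      rw [← map_pow, ZMod.pow_card]
    rw [ZMod.castHom_apply, ← ZMod.natCast_val] at h2
    exact h2
  have hsub : (Finset.univ : Finset (ZMod p)).image (fun c => (c.val : κ)) ⊆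
      (Polynomial.X ^ p - Polynomial.X : Polynomial κ).roots.toFinset := by
    intro y hy
    rw [Finset.mem_image] at hy
    obtain ⟨c, _, rfl⟩ := hy
    rw [Multiset.mem_toFinset, Polynomial.mem_roots h0, Polynomial.IsRoot, Polynomial.eval_sub,
      Polynomial.eval_pow, Polynomial.eval_X, sub_eq_zero]
    exact hroot c
  have hcard : (Polynomial.X ^ p - Polynomial.X : Polynomial κ).roots.toFinset.card ≤
      ((Finset.univ : Finset (ZMod p)).image (fun c => (c.val : κ))).card := by
    rw [Finset.card_image_of_injective _ hinj, Finset.card_univ, ZMod.card]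
    exact (Multiset.toFinset_card_le _).trans ((Polynomial.card_roots' _).trans hd.le)
  have he := Finset.eq_of_subset_of_card_le hsub hcard
  have hxm : x ∈ (Polynomial.X ^ p - Polynomial.X : Polynomial κ).roots.toFinset := by
    rw [Multiset.mem_toFinset, Polynomial.mem_roots h0, Polynomial.IsRoot, Polynomial.eval_sub,
      Polynomial.eval_pow, Polynomial.eval_X, sub_eq_zero]
    exact hx
  rw [← he, Finset.mem_image] at hxm
  obtain ⟨c, _, hc⟩ := hxm
  exact ⟨c, hc⟩

private theorem fp_shift (f : ℕ → κ) (m : ℕ) (h : f m = f 0) :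
    ∑ i ∈ Finset.range m, f (i + 1) = ∑ i ∈ Finset.range m, f i := by
  have h1 := Finset.sum_range_succ f m
  have h2 := Finset.sum_range_succ' f m
  rw [h1, h] at h2
  exact (add_right_cancel h2).symm

/-- The trace is in the prime field. Proof: `(trn a) ^ p = trn a` (Frobenius), the roots of `X ^ p - X` are the elements of the prime field. -/
theorem trn_mem [Fact p.Prime] [CharP κ p] {a : κ} (ha : a ^ p ^ n = a) :
    ∃ c : ZMod p, (c.val : κ) = trn p n a := by
  refine fp_prime ?_
  unfold trn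
  rw [sum_pow_char]
  have h1 : ∀ i ∈ Finset.range n, (a ^ p ^ i) ^ p = a ^ p ^ (i + 1) := by
    intro i _
    rw [← pow_mul, ← pow_succ]
  rw [Finset.sum_congr rfl h1]
  exact fp_shift (fun i => a ^ p ^ i) n (by rw [ha, pow_zero, pow_one])

/-- **Trace functionals.** Proof: let `k` be the subfield `{x | x ^ p ^ n = x}` (finite, `p ^ n` elements: the roots of `X ^ p ^ n - X`); `Θ` restricted to `k` is a linear form over `ZMod p`; the trace form is not degenerate (`FiniteField.trace_to_zmod_nondegenerate`,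
`traceForm`; every linear form is `x ↦ tr (x a)`: `LinearMap.BilinForm.toDual` or dimensions) and `tr x = ∑ x ^ p ^ i` (`FiniteField.algebraMap_trace_eq_sum_pow`). Without the trace form: `a ↦ (τ ↦ trn (τ a))` is an injective map from `k` to the
additive maps `k → ZMod p` (`fp_uniq`, `trn_mem`), both have `p ^ n` elements. -/
theorem fp_ex [Fact p.Prime] [CharP κ p] [IsAlgClosed κ] (hn : n ≠ 0) {Θ : κ → ZMod p}
    (h : ∀ τ τ', τ ^ p ^ n = τ → τ' ^ p ^ n = τ' → Θ (τ + τ') = Θ τ + Θ τ') :
    ∃ a : κ, a ^ p ^ n = a ∧ ∀ τ, τ ^ p ^ n = τ → ((Θ τ).val : κ) = trn p n (τ * a) := by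
  classical
  have hp : p.Prime := Fact.out
  obtain ⟨S, hS, hSc⟩ := fp_roots (κ := κ) (p := p) hn
  obtain ⟨k, hk⟩ : ∃ k : Subfield κ, ∀ x, x ∈ k ↔ x ^ p ^ n = x := by
    refine ⟨(iterateFrobenius κ p n).eqLocusField (RingHom.id κ), fun x => ?_⟩
    rw [RingHom.mem_eqLocusField, iterateFrobenius_def, RingHom.id_apply]
  have hset : (k : Set κ) = (S : Set κ) := by
    ext x
    rw [SetLike.mem_coe, hk, Finset.mem_coe, hS]
  have hfin : Finite k := by
    have h1 : Finite (k : Set κ) := by
      rw [hset]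
      exact S.finite_toSet.to_subtype
    exact h1
  have hcard : Nat.card k = p ^ n := by
    have h1 : Nat.card k = (k : Set κ).ncard := Nat.card_coe_set_eq (k : Set κ)
    rw [h1, hset, Set.ncard_coe_finset, hSc]
  have : CharP k p := (RingHom.charP_iff k.subtype k.subtype.injective p).mpr inferInstance
  let _ : Algebra (ZMod p) k := ZMod.algebra k p
  have : Module.Finite (ZMod p) k := Module.Finite.of_finite
  have hrank : Module.finrank (ZMod p) k = n := by
    have h1 := Module.natCard_eq_pow_finrank (K := ZMod p) (V := k)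
    rw [hcard, Nat.card_zmod] at h1
    exact (Nat.pow_right_injective hp.two_le h1).symm
  obtain ⟨L, hL⟩ : ∃ L : k →ₗ[ZMod p] ZMod p, ∀ x : k, L x = Θ x.1 :=
    ⟨(AddMonoidHom.mk' (fun x : k => Θ x.1) (fun x y => h x.1 y.1 ((hk _).mp x.2)
      ((hk _).mp y.2))).toZModLinearMap p, fun x => rfl⟩
  have hB := traceForm_nondegenerate (ZMod p) k
  obtain ⟨a, ha⟩ : ∃ a : k, ∀ x : k, Algebra.trace (ZMod p) k (a * x) = L x := by
    refine ⟨(LinearMap.BilinForm.toDual (Algebra.traceForm (ZMod p) k) hB).symm L, fun x => ?_⟩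
    have h1 := LinearMap.BilinForm.apply_toDual_symm_apply (hB := hB) (f := L) (v := x)
    rw [Algebra.traceForm_apply] at h1
    exact h1
  refine ⟨a.1, (hk _).mp a.2, fun τ hτ => ?_⟩
  have h2 := FiniteField.algebraMap_trace_eq_sum_pow (ZMod p) k
    (a * ⟨τ, (hk τ).mpr hτ⟩)
  rw [ha, hL, hrank, Nat.card_zmod] at h2
  have h3 : algebraMap (ZMod p) k (Θ τ) = ((Θ τ).val : k) := by
    conv_lhs => rw [← ZMod.natCast_zmod_val (Θ τ), map_natCast]
  have h4 := congrArg (fun y : k => (y : κ)) (h3.symm.trans h2)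
  have h5 : ((∑ i ∈ Finset.range n, (a * ⟨τ, (hk τ).mpr hτ⟩ : k) ^ p ^ i : k) : κ) =
      ∑ i ∈ Finset.range n, ((a : κ) * τ) ^ p ^ i := by
    change k.subtype _ = _
    rw [map_sum]
    refine Finset.sum_congr rfl fun i _ => ?_
    rw [map_pow, map_mul]
    rfl
  have h6 : (((Θ τ).val : k) : κ) = ((Θ τ).val : κ) := map_natCast k.subtype (Θ τ).val
  unfold trn
  rw [← h6, mul_comm τ]
  exact h4.trans h5

/-- Proof: for `b = a - a' ≠ 0`: `trn (τ b) = 0` for all `τ` in the field with `p ^ n` elements (`trn_add`), so for all `x = τ b`: the polynomial `∑ X ^ p ^ i` of degree `p ^ (n - 1)` has `p ^ n` roots. -/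
theorem fp_uniq [Fact p.Prime] [CharP κ p] [IsAlgClosed κ] (hn : n ≠ 0) {a a' : κ}
    (ha : a ^ p ^ n = a) (ha' : a' ^ p ^ n = a')
    (h : ∀ τ : κ, τ ^ p ^ n = τ → trn p n (τ * a) = trn p n (τ * a')) : a = a' := by
  classical
  have hp : p.Prime := Fact.out
  by_contra hne
  obtain ⟨b, hb⟩ : ∃ b, b = a - a' := ⟨_, rfl⟩
  have hb0 : b ≠ 0 := by
    rw [hb]
    exact sub_ne_zero.mpr hne
  have hbn : b ^ p ^ n = b := by
    rw [hb, sub_pow_char_pow, ha, ha']
  have hz : ∀ x : κ, x ^ p ^ n = x → trn p n x = 0 := by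
    intro x hx
    have h1 : (x * b⁻¹) ^ p ^ n = x * b⁻¹ := by
      rw [mul_pow, inv_pow, hx, hbn]
    have h2 := h _ h1
    have h3 := trn_add (p := p) (n := n) x (x * b⁻¹ * a')
    have h4 : x + x * b⁻¹ * a' = x * b⁻¹ * a := by
      have h5 : a = b + a' := by rw [hb, sub_add_cancel]
      rw [h5, mul_add, mul_assoc x b⁻¹ b, inv_mul_cancel₀ hb0, mul_one]
    rw [h4, h2] at h3
    exact right_eq_add.mp h3
  obtain ⟨S, hS, hSc⟩ := fp_roots (κ := κ) (p := p) hn
  obtain ⟨P, hP⟩ : ∃ P : Polynomial κ, P = ∑ i ∈ Finset.range n, Polynomial.X ^ p ^ i :=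
    ⟨_, rfl⟩
  have hP0 : P ≠ 0 := by
    intro h0
    have h1 : P.coeff 1 = 1 := by
      rw [hP, Polynomial.finsetSum_coeff, Finset.sum_eq_single 0]
      · rw [pow_zero, pow_one, Polynomial.coeff_X_one]
      · intro i _ hi
        rw [Polynomial.coeff_X_pow, if_neg]
        exact (Nat.one_lt_pow hi hp.one_lt).ne
      · intro h2
        exact absurd (Finset.mem_range.mpr (Nat.pos_of_ne_zero hn)) h2
    rw [h0, Polynomial.coeff_zero] at h1
    exact zero_ne_one h1
  have hPd : P.natDegree ≤ p ^ (n - 1) := by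
    rw [hP]
    refine Polynomial.natDegree_sum_le_of_forall_le _ _ fun i hi => ?_
    rw [Polynomial.natDegree_X_pow]
    rw [Finset.mem_range] at hi
    exact Nat.pow_le_pow_right hp.pos (by omega)
  have hsub : S ⊆ P.roots.toFinset := by
    intro x hx
    rw [Multiset.mem_toFinset, Polynomial.mem_roots hP0, Polynomial.IsRoot, hP,
      Polynomial.eval_finsetSum]
    have h1 := hz x ((hS x).mp hx)
    unfold trn at h1
    rw [← h1]
    refine Finset.sum_congr rfl fun i _ => ?_
    rw [Polynomial.eval_pow, Polynomial.eval_X]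
  have h1 : p ^ n ≤ p ^ (n - 1) := by
    rw [← hSc]
    exact (Finset.card_le_card hsub).trans ((Multiset.toFinset_card_le _).trans
      ((Polynomial.card_roots' _).trans hPd))
  exact absurd h1 (not_le.mpr (Nat.pow_lt_pow_right hp.one_lt (by omega)))

/-- The relative trace. -/
theorem rel_mem [Fact p.Prime] [CharP κ p] {t : ℕ} {τ : κ} (hτ : τ ^ p ^ (n * t) = τ) :
    (∑ j ∈ Finset.range t, τ ^ p ^ (n * j)) ^ p ^ n = ∑ j ∈ Finset.range t, τ ^ p ^ (n * j) := by
  rw [sum_pow_char_pow]
  have h1 : ∀ j ∈ Finset.range t, (τ ^ p ^ (n * j)) ^ p ^ n = τ ^ p ^ (n * (j + 1)) := by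
    intro j _
    rw [← pow_mul, ← pow_add, mul_add, mul_one]
  rw [Finset.sum_congr rfl h1]
  exact fp_shift (fun j => τ ^ p ^ (n * j)) t (by rw [hτ, mul_zero, pow_zero, pow_one])

private theorem fp_iter {a : κ} (ha : a ^ p ^ n = a) (t : ℕ) : a ^ p ^ (n * t) = a := by
  induction t with
  | zero => rw [mul_zero, pow_zero, pow_one]
  | succ t ih => rw [mul_add, mul_one, pow_add, pow_mul, ih, ha]

/-- Transitivity. Proof: `i = n j + i'`, `a ^ p ^ (n j) = a`. -/
theorem trn_rel [Fact p.Prime] [CharP κ p] {t : ℕ} {τ a : κ} (ha : a ^ p ^ n = a) :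
    trn p (n * t) (τ * a) = trn p n ((∑ j ∈ Finset.range t, τ ^ p ^ (n * j)) * a) := by
  have hp : p.Prime := Fact.out
  induction t with
  | zero =>
    rw [mul_zero, Finset.sum_range_zero, zero_mul]
    unfold trn
    rw [Finset.sum_range_zero]
    symm
    refine Finset.sum_eq_zero fun i _ => ?_
    exact zero_pow (pow_ne_zero i hp.ne_zero)
  | succ t ih =>
    rw [Finset.sum_range_succ, add_mul, trn_add, ← ih]
    unfold trn
    rw [mul_add, mul_one, Finset.sum_range_add]
    congr 1
    refine Finset.sum_congr rfl fun i _ => ?_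
    rw [pow_add p (n * t) i, pow_mul, mul_pow τ a, fp_iter ha t]

/-- Invariance. -/
theorem trn_rot {r : ℕ} {a : κ} (ha : a ^ p ^ n = a) : trn p n (a ^ p ^ r) = trn p n a := by
  induction r with
  | zero => rw [pow_zero, pow_one]
  | succ r ih =>
    rw [← ih]
    have hb : (a ^ p ^ r) ^ p ^ n = a ^ p ^ r := by
      rw [← pow_mul, mul_comm, pow_mul, ha]
    rw [pow_succ, pow_mul]
    generalize a ^ p ^ r = b at hb
    unfold trn
    have h1 : ∀ i ∈ Finset.range n, (b ^ p) ^ p ^ i = b ^ p ^ (i + 1) := by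
      intro i _
      rw [← pow_mul, ← pow_succ']
    rw [Finset.sum_congr rfl h1]
    exact fp_shift (fun i => b ^ p ^ i) n (by rw [hb, pow_zero, pow_one])

end GX
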