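import Pool.Agent.Lib.MP_f80667_ag.Gy.Ve
import Pool.Agent.Lib.MP_f80667_ag.Gy.Vp
import Pool.Agent.Lib.MP_f80667_ag.Gy.Vd

/-! The trace functional of a value. -/

open ZC BE PE CV IntermediateField

namespace GX

variable {F : Type} [Field F] {N d m : ℕ} {ι : Type} {f : ι → MvPolynomial (Fin N) F}
  {K Ω : Type} [Field K] [CharZero K] [Field Ω] [Algebra K Ω] [Algebra F K] [Algebra F Ω]
  [IsScalarTower F K Ω] [IsAlgClosure K Ω] {L : Ld K Ω} {ψ : Fin m → Prj F N d}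
  {f₀ : ι → MvPolynomial (Fin N) (L.V.comap (algebraMap F Ω))}
  {ψ₀ : Fin m → Prj (L.V.comap (algebraMap F Ω)) N d} {r : ℕ}

variable {B : Type} [AddCommGroup B] {lam : ((Xf f).pt Ω →₀ ℤ) →+ B} {χ : B → ZMod L.p}

/-- Proof: `fp_ex` for `Θ τ = χ (Tn .. y (τ u))`: additive by `tn_add`, `tn_mem`, `hχ`. -/
theorem tl_ex [L.Unr] (h : Hr f L ψ f₀ ψ₀ r) (hl : Lm f L lam) (hχ : Ad f L lam χ) {n : ℕ}
    (hn : n ≠ 0) (hrn : r ∣ n) {y u : Fin N → L.κ} (hy : Kfn L n y) (hu : Kfn L n u)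
    (ht : Tg (f₂ f₀) y u) : ∃ a, Tlg L lam χ n y u a := by
  have hΩ0 : IsAlgClosed Ω := IsAlgClosure.isAlgClosed K
  have hκ : IsAlgClosed L.κ := L.κ_closed
  have hp : Fact L.p.Prime := ⟨L.pp⟩
  have hc : CharP L.κ L.p := L.char_κ
  have hku : ∀ τ : L.κ, τ ^ L.p ^ n = τ → Kfn L n (τ • u) := fun τ hτ i => by
    rw [Pi.smul_apply, smul_eq_mul, mul_pow, hτ, hu i]
  obtain ⟨a, ha, h1⟩ := fp_ex (κ := L.κ) (p := L.p) hn
    (Θ := fun τ => χ (Tn L lam n y (τ • u))) (fun τ τ' hτ hτ' => by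
      change χ (Tn L lam n y ((τ + τ') • u)) =
        χ (Tn L lam n y (τ • u)) + χ (Tn L lam n y (τ' • u))
      rw [add_smul, tn_add h hl hn hrn hy (hku τ hτ) (hku τ' hτ') (tg_smul ht τ)
        (tg_smul ht τ')]
      exact hχ _ (tn_mem h hn hrn hy (hku τ hτ) (tg_smul ht τ)) _
        (tn_mem h hn hrn hy (hku τ' hτ') (tg_smul ht τ')))
  exact ⟨a, ha, h1⟩

/-- Proof: `fp_uniq`. -/
theorem tl_uniq {n : ℕ} (hn : n ≠ 0) {y u : Fin N → L.κ} {a a' : L.κ}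
    (ha : Tlg L lam χ n y u a) (ha' : Tlg L lam χ n y u a') : a = a' := by
  have hΩ0 : IsAlgClosed Ω := IsAlgClosure.isAlgClosed K
  have hκ : IsAlgClosed L.κ := L.κ_closed
  have hp : Fact L.p.Prime := ⟨L.pp⟩
  have hc : CharP L.κ L.p := L.char_κ
  exact fp_uniq hn ha.1 ha'.1 fun τ hτ => (ha.2 τ hτ).symm.trans (ha'.2 τ hτ)

private theorem la_iter {κ : Type} [Monoid κ] {p n : ℕ} {a : κ} (h : a ^ p ^ n = a) (e : ℕ) :
    a ^ p ^ (n * e) = a := by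
  rw [pow_mul]
  induction e with
  | zero => rw [pow_zero, pow_one]
  | succ e ih => rw [pow_succ, pow_mul, ih, h]

/-- Proof: `tn_rel`, `rel_mem`, `trn_rel`. -/
theorem tl_up [L.Unr] (h : Hr f L ψ f₀ ψ₀ r) (hl : Lm f L lam) {n t : ℕ} (hn : n ≠ 0)
    (ht : t ≠ 0) (hrn : r ∣ n) {y u : Fin N → L.κ} (hy : Kfn L n y) (hu : Kfn L n u)
    (htg : Tg (f₂ f₀) y u) {a : L.κ} (ha : Tlg L lam χ n y u a) :
    Tlg L lam χ (n * t) y u a := by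
  have hΩ0 : IsAlgClosed Ω := IsAlgClosure.isAlgClosed K
  have hκ : IsAlgClosed L.κ := L.κ_closed
  have hp : Fact L.p.Prime := ⟨L.pp⟩
  have hc : CharP L.κ L.p := L.char_κ
  refine ⟨la_iter ha.1 t, fun τ hτ => ?_⟩
  rw [tn_rel h hl hn ht hrn hy hu htg hτ, ha.2 _ (rel_mem hτ), trn_rel ha.1]

/-- **The function.** Proof: at a tangent vector `y`, `u`: `exists_kf` for the coordinates: some `n`, `tl_ex`: `a`; for every other `n'`: `a'`; `tl_up` to `n n'` and `tl_uniq`: `a = a'`. Elsewhere `0`. -/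
theorem exists_tl [L.Unr] (h : Hr f L ψ f₀ ψ₀ r) (hl : Lm f L lam) (hχ : Ad f L lam χ) :
    ∃ ℓ : (Fin N → L.κ) → (Fin N → L.κ) → L.κ, ∀ n y u, n ≠ 0 → r ∣ n → Kfn L n y →
      Kfn L n u → Tg (f₂ f₀) y u → Tlg L lam χ n y u (ℓ y u) := by
  classical
  obtain ⟨Q, hQ⟩ : ∃ Q : (Fin N → L.κ) → (Fin N → L.κ) → L.κ → Prop, ∀ y u a, Q y u a ↔
      ∃ n, n ≠ 0 ∧ r ∣ n ∧ Kfn L n y ∧ Kfn L n u ∧ Tg (f₂ f₀) y u ∧ Tlg L lam χ n y u a :=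
    ⟨_, fun _ _ _ => Iff.rfl⟩
  refine ⟨fun y u => if hq : ∃ a, Q y u a then hq.choose else 0, fun n y u hn hrn hy hu ht => ?_⟩
  obtain ⟨a, ha⟩ := tl_ex h hl hχ hn hrn hy hu ht
  have hq : ∃ a, Q y u a := ⟨a, (hQ y u a).2 ⟨n, hn, hrn, hy, hu, ht, ha⟩⟩
  change Tlg L lam χ n y u (if hq : ∃ a, Q y u a then hq.choose else 0)
  rw [dif_pos hq]
  obtain ⟨n', hn', hrn', hy', hu', -, ha'⟩ := (hQ y u _).1 hq.choose_spec
  have h1 := tl_up h hl hn hn' hrn hy hu ht ha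
  have h2 := tl_up h hl hn' hn hrn' hy' hu' ht ha'
  rw [mul_comm n' n] at h2
  rw [← tl_uniq (mul_ne_zero hn hn') h1 h2]
  exact ha

end GX
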