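import Pool.Agent.Lib.MP_f80667_ag.Gy.Vc
import Pool.Agent.Lib.MP_f80667_ag.Gy.Vp

/-! Values: conjugate vectors. -/

open ZC BE PE CV IntermediateField

namespace GX

variable {F : Type} [Field F] {N d m : ℕ} {ι : Type} {f : ι → MvPolynomial (Fin N) F}
  {K Ω : Type} [Field K] [CharZero K] [Field Ω] [Algebra K Ω] [Algebra F K] [Algebra F Ω]
  [IsScalarTower F K Ω] [IsAlgClosure K Ω] {L : Ld K Ω} {ψ : Fin m → Prj F N d}
  {f₀ : ι → MvPolynomial (Fin N) (L.V.comap (algebraMap F Ω))}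
  {ψ₀ : Fin m → Prj (L.V.comap (algebraMap F Ω)) N d} {r : ℕ}

variable {B : Type} [AddCommGroup B] {lam : ((Xf f).pt Ω →₀ ℤ) →+ B}

omit [Algebra F Ω] [Algebra F K] [IsScalarTower F K Ω] [CharZero K] [IsAlgClosure K Ω] in
private theorem vf_map (L : Ld K Ω) (n : ℕ) (φ : Ω ≃ₐ[K] Ω) {x : Ω} (hx : x ∈ L.Ur ⊥ n) :
    φ x ∈ L.Ur ⊥ n := by
  have h1 : (L.Ur ⊥ n).map (φ : Ω →ₐ[K] Ω) ≤ L.Ur ⊥ n := by
    unfold Ld.Ur
    rw [IntermediateField.map_sup, IntermediateField.adjoin_map, IntermediateField.map_bot]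
    refine sup_le_sup le_rfl (IntermediateField.adjoin.mono K _ _ ?_)
    rintro _ ⟨x, hx, rfl⟩
    exact Ld.te_act φ hx
  exact h1 ⟨x, hx, rfl⟩

omit [Algebra F Ω] [Algebra F K] [IsScalarTower F K Ω] [CharZero K] [IsAlgClosure K Ω] in
private theorem vf_fix (L : Ld K Ω) (n : ℕ) (φ : Ω ≃ₐ[K] Ω) {γ : Ω ≃ₐ[K] Ω}
    (hγ : γ ∈ (L.Ur ⊥ n).fixingSubgroup) : φ⁻¹ * γ * φ ∈ (L.Ur ⊥ n).fixingSubgroup := by
  rw [IntermediateField.mem_fixingSubgroup_iff] at hγ ⊢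
  intro x hx
  rw [AlgEquiv.mul_apply, AlgEquiv.mul_apply, hγ _ (vf_map L n φ hx), ← AlgEquiv.mul_apply,
    inv_mul_cancel, AlgEquiv.one_apply]

omit [Algebra F Ω] [Algebra F K] [IsScalarTower F K Ω] in
private theorem vf_nm {A : Type} [AddCommGroup A] [DistribMulAction (Ω ≃ₐ[K] Ω) A]
    {N : IntermediateField K Ω} [FiniteDimensional K N] (φ : Ω ≃ₐ[K] Ω)
    (h1 : ∀ γ ∈ N.fixingSubgroup, φ⁻¹ * γ * φ ∈ N.fixingSubgroup)
    (h2 : ∀ γ ∈ N.fixingSubgroup, φ * γ * φ⁻¹ ∈ N.fixingSubgroup) {P : A} (hP : Fx N P) :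
    Nm (⊥ : IntermediateField K Ω) N (φ • P) = Nm (⊥ : IntermediateField K Ω) N P := by
  obtain ⟨s, -, -, h₂, h₃⟩ := nm_rep (M := (⊥ : IntermediateField K Ω)) (N := N) bot_le
  rw [h₃ A (φ • P), nm_eq bot_le (s.map (Equiv.mulRight φ).toEmbedding) ?_ ?_ hP, Finset.sum_map]
  · exact Finset.sum_congr rfl fun γ _ => (mul_smul γ φ P).symm
  · intro γ _
    rw [IntermediateField.fixingSubgroup_bot]
    exact Subgroup.mem_top γ
  · intro γ _
    obtain ⟨δ, ⟨hδ, hδ'⟩, hu⟩ := h₂ (γ * φ⁻¹) (by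
      rw [IntermediateField.fixingSubgroup_bot]
      exact Subgroup.mem_top _)
    refine ⟨δ * φ, ⟨?_, ?_⟩, ?_⟩
    · rw [Finset.mem_map]
      exact ⟨δ, hδ, rfl⟩
    · have h5 := h1 _ hδ'
      have e : φ⁻¹ * (δ⁻¹ * (γ * φ⁻¹)) * φ = (δ * φ)⁻¹ * γ := by group
      rwa [e] at h5
    · rintro _ ⟨hm, hm'⟩
      obtain ⟨δ', hδ1, rfl⟩ := Finset.mem_map.1 hm
      have h5 := h2 _ hm'
      have e : φ * (((Equiv.mulRight φ).toEmbedding δ')⁻¹ * γ) * φ⁻¹ = δ'⁻¹ * (γ * φ⁻¹) := by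
        simp only [Equiv.coe_toEmbedding, Equiv.coe_mulRight]
        group
      rw [e] at h5
      have h6 := hu δ' ⟨hδ1, h5⟩
      rw [h6]
      rfl

/-- **Conjugate values.** Proof: `exists_frob L.toLf ⊥`: `φ`, `q = p ^ r` (`Ld.rf_frob`); `tn_vn`: `x`, `x'`, `P`, `P'`; the images under `φ` are over `Ur ⊥ n` (generated by roots of unity, normal over `K`), their residues are the powers; the trace of the image of a cycle is the trace of the cycle (`rtr` is a sum over the cosets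
of the fixing group of `Ur ⊥ n`; compare `Cv/EtA`, `nm_rep`); `tn_eq`, `tg_frob`. -/
theorem tn_frob [L.Unr] (h : Hr f L ψ f₀ ψ₀ r) (hl : Lm f L lam) {n : ℕ} (hn : n ≠ 0)
    (hrn : r ∣ n) {y u : Fin N → L.κ} (hy : Kfn L n y) (hu : Kfn L n u)
    (ht : Tg (f₂ f₀) y u) :
    Tn L lam n (fun i => y i ^ L.p ^ r) (fun i => u i ^ L.p ^ r) = Tn L lam n y u := by
  obtain ⟨φ, q, hφ⟩ := exists_frob L.toLf (⊥ : IntermediateField K Ω)
  have hq : q = L.p ^ r := Ld.rf_frob h.rf hφ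
  have hfU : FiniteDimensional K (L.Ur ⊥ n) := Ld.ur_fin ⊥ n hn
  obtain ⟨x, x', P, P', hx, hx', hP, hP', hy', hu', hb⟩ := tn_vn (lam := lam) h hn hrn hy hu ht
  have hfr : ∀ (a : Ω) (b : L.κ), L.rs.Hv a b → L.rs.Hv (φ a) (b ^ L.p ^ r) := by
    intro a b hab
    have ha := L.hv_int hab
    obtain ⟨b', hb'⟩ := L.hv_of (x := φ a) (by rw [L.act]; exact ha)
    have h1 := hφ.frob a ha
    rw [hq] at h1
    have h2 : b' = b ^ L.p ^ r := (L.hv_sub hb' (hab.pow _)).2 h1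
    rw [← h2]
    exact hb'
  have hkq : ∀ v : Fin N → L.κ, Kfn L n v → Kfn L n fun i => v i ^ L.p ^ r := by
    intro v hv i
    change (v i ^ L.p ^ r) ^ L.p ^ n = v i ^ L.p ^ r
    rw [← pow_mul, mul_comm, pow_mul, hv i]
  have hIv : ∀ v : Fin N → Ω, Iv L (L.Ur ⊥ n) v → Iv L (L.Ur ⊥ n) fun i => φ (v i) := by
    intro v hv i
    refine ⟨vf_map L n φ (hv i).1, ?_⟩
    rw [L.act]
    exact (hv i).2
  have hfP : Fp (Xf f) (L.Ur ⊥ n) P := fp_co hP fun i => (hx i).1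
  have hfP' : Fp (Xf f) (L.Ur ⊥ n) P' := fp_co hP' fun i => (hx' i).1
  refine tn_eq h hl hn hrn (hkq y hy) (hkq u hu) (tg_frob h.rf ht)
    ⟨fun i => φ (x i), fun i => φ (x' i), (Xf f).act φ P, (Xf f).act φ P', hIv x hx, hIv x' hx',
      co_act φ hP, co_act φ hP', fun i => hfr _ _ (hy' i), fun i => ?_, ?_⟩
  · have h3 := hfr _ _ (hu' i)
    rwa [map_div₀, map_sub, map_natCast] at h3
  · rw [hb]
    congr 1
    rw [rtr_eq bot_le, rtr_eq bot_le, ← smul_single, ← smul_single, ← smul_sub]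
    refine (vf_nm φ (fun γ hγ => vf_fix L n φ hγ) (fun γ hγ => ?_)
      ((fx_single hfP' 1).sub (fx_single hfP 1))).symm
    have h4 := vf_fix L n φ⁻¹ hγ
    rwa [inv_inv] at h4

end GX
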