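import Pool.Agent.Lib.MP_f80667_ag.Gy.La
import Pool.Agent.Lib.MP_f80667_ag.Gy.Vf

/-! The trace functionals: properties. -/

open ZC BE PE CV IntermediateField

namespace GX

variable {F : Type} [Field F] {N d m : ℕ} {ι : Type} {f : ι → MvPolynomial (Fin N) F}
  {K Ω : Type} [Field K] [CharZero K] [Field Ω] [Algebra K Ω] [Algebra F K] [Algebra F Ω]
  [IsScalarTower F K Ω] [IsAlgClosure K Ω] {L : Ld K Ω} {ψ : Fin m → Prj F N d}
  {f₀ : ι → MvPolynomial (Fin N) (L.V.comap (algebraMap F Ω))}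
  {ψ₀ : Fin m → Prj (L.V.comap (algebraMap F Ω)) N d} {r : ℕ}

variable {B : Type} [AddCommGroup B] {lam : ((Xf f).pt Ω →₀ ℤ) →+ B} {χ : B → ZMod L.p}
  {ℓ : (Fin N → L.κ) → (Fin N → L.κ) → L.κ}

/-- The values of `ℓ` are trace functionals. -/
def Tlf (f₀ : ι → MvPolynomial (Fin N) (L.V.comap (algebraMap F Ω))) (r : ℕ)
    (lam : ((Xf f).pt Ω →₀ ℤ) →+ B) (χ : B → ZMod L.p)
    (ℓ : (Fin N → L.κ) → (Fin N → L.κ) → L.κ) : Prop :=
  ∀ n y u, n ≠ 0 → r ∣ n → Kfn L n y → Kfn L n u → Tg (f₂ f₀) y u → Tlg L lam χ n y u (ℓ y u)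

private theorem lb_val {R : Type} [Field R] {p : ℕ} [Fact p.Prime] [CharP R p] (a b : ZMod p) :
    ((a + b).val : R) = (a.val : R) + (b.val : R) := by
  rw [ZMod.natCast_val, ZMod.natCast_val, ZMod.natCast_val]
  exact ZMod.cast_add' a b

private theorem lb_trz {R : Type} [Field R] {p n : ℕ} [Fact p.Prime] : trn p n (0 : R) = 0 := by
  have hp : p.Prime := Fact.out
  unfold trn
  exact Finset.sum_eq_zero fun i _ => zero_pow (pow_ne_zero i hp.ne_zero)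

private theorem lb_pn {R : Type} [Field R] {p n r : ℕ} [Fact p.Prime] {a : R}
    (ha : a ^ p ^ n = a) : (a ^ p ^ r) ^ p ^ n = a ^ p ^ r := by
  rw [← pow_mul, mul_comm, pow_mul, ha]

/-- Roots in the field with `p ^ n` elements. -/
private theorem lb_root {R : Type} [Field R] {p n r : ℕ} [Fact p.Prime] [CharP R p]
    [IsAlgClosed R] {τ : R} (hτ : τ ^ p ^ n = τ) : ∃ σ : R, σ ^ p ^ n = σ ∧ σ ^ p ^ r = τ := by
  have hp : p.Prime := Fact.out
  obtain ⟨σ, hσ⟩ := IsAlgClosed.exists_pow_nat_eq τ (pow_pos hp.pos r)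
  refine ⟨σ, ?_, hσ⟩
  have h1 : (σ ^ p ^ n) ^ p ^ r = σ ^ p ^ r := by
    rw [← pow_mul, mul_comm, pow_mul, hσ, hτ]
  have h2 : (σ ^ p ^ n - σ) ^ p ^ r = 0 := by
    rw [sub_pow_char_pow, h1, sub_self]
  exact sub_eq_zero.mp (pow_eq_zero_iff (pow_ne_zero r hp.ne_zero) |>.mp h2)

/-- Proof: `exists_kf` for all coordinates; `fp_uniq`; `tn_add`, `tn_mem`, `hχ`, `trn_add`. -/
theorem tlf_add [L.Unr] (h : Hr f L ψ f₀ ψ₀ r) (hl : Lm f L lam) (hχ : Ad f L lam χ)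
    (hℓ : Tlf f₀ r lam χ ℓ) {y u u' : Fin N → L.κ} (ht : Tg (f₂ f₀) y u)
    (ht' : Tg (f₂ f₀) y u') : ℓ y (u + u') = ℓ y u + ℓ y u' := by
  classical
  have : Fact L.p.Prime := ⟨L.pp⟩
  have : CharP L.κ L.p := L.char_κ
  have : IsAlgClosed Ω := IsAlgClosure.isAlgClosed K
  have : IsAlgClosed L.κ := L.κ_closed
  obtain ⟨n, hn, hrn, hs⟩ := exists_kf (L := L) (r := r) h.rf
    (Finset.univ.image y ∪ (Finset.univ.image u ∪ Finset.univ.image u'))
  have hy : Kfn L n y := fun i => hs _ (Finset.mem_union_left _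
    (Finset.mem_image_of_mem _ (Finset.mem_univ _)))
  have hu : Kfn L n u := fun i => hs _ (Finset.mem_union_right _ (Finset.mem_union_left _
    (Finset.mem_image_of_mem _ (Finset.mem_univ _))))
  have hu' : Kfn L n u' := fun i => hs _ (Finset.mem_union_right _ (Finset.mem_union_right _
    (Finset.mem_image_of_mem _ (Finset.mem_univ _))))
  have huu : Kfn L n (u + u') := fun i => by
    rw [Pi.add_apply, add_pow_char_pow, hu i, hu' i]
  have h1 := hℓ n y u hn hrn hy hu ht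
  have h2 := hℓ n y u' hn hrn hy hu' ht'
  have h3 := hℓ n y (u + u') hn hrn hy huu (tg_add ht ht')
  refine fp_uniq hn h3.1 ?_ fun τ hτ => ?_
  · rw [add_pow_char_pow, h1.1, h2.1]
  · have hk : Kfn L n (τ • u) := fun i => by
      rw [Pi.smul_apply, smul_eq_mul, mul_pow, hτ, hu i]
    have hk' : Kfn L n (τ • u') := fun i => by
      rw [Pi.smul_apply, smul_eq_mul, mul_pow, hτ, hu' i]
    rw [← h3.2 τ hτ, mul_add, trn_add, ← h1.2 τ hτ, ← h2.2 τ hτ, smul_add,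
      tn_add h hl hn hrn hy hk hk' (tg_smul ht τ) (tg_smul ht' τ),
      hχ _ (tn_mem h hn hrn hy hk (tg_smul ht τ)) _ (tn_mem h hn hrn hy hk' (tg_smul ht' τ)),
      lb_val]

/-- Proof: `fp_uniq`: `χ` of the value at `y`, `τ c u`. -/
theorem tlf_smul [L.Unr] (h : Hr f L ψ f₀ ψ₀ r) (hℓ : Tlf f₀ r lam χ ℓ)
    {y u : Fin N → L.κ} (ht : Tg (f₂ f₀) y u) (c : L.κ) : ℓ y (c • u) = c * ℓ y u := by
  classical
  have : Fact L.p.Prime := ⟨L.pp⟩
  have : CharP L.κ L.p := L.char_κ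
  have : IsAlgClosed Ω := IsAlgClosure.isAlgClosed K
  have : IsAlgClosed L.κ := L.κ_closed
  obtain ⟨n, hn, hrn, hs⟩ := exists_kf (L := L) (r := r) h.rf
    (Finset.univ.image y ∪ (Finset.univ.image u ∪ {c}))
  have hy : Kfn L n y := fun i => hs _ (Finset.mem_union_left _
    (Finset.mem_image_of_mem _ (Finset.mem_univ _)))
  have hu : Kfn L n u := fun i => hs _ (Finset.mem_union_right _ (Finset.mem_union_left _
    (Finset.mem_image_of_mem _ (Finset.mem_univ _))))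
  have hc : c ^ L.p ^ n = c := hs _ (Finset.mem_union_right _ (Finset.mem_union_right _
    (Finset.mem_singleton_self _)))
  have hcu : Kfn L n (c • u) := fun i => by
    rw [Pi.smul_apply, smul_eq_mul, mul_pow, hc, hu i]
  have h1 := hℓ n y u hn hrn hy hu ht
  have h2 := hℓ n y (c • u) hn hrn hy hcu (tg_smul ht c)
  refine fp_uniq hn h2.1 ?_ fun τ hτ => ?_
  · rw [mul_pow, h1.1, hc]
  · have h3 : (τ * c) ^ L.p ^ n = τ * c := by rw [mul_pow, hτ, hc]
    rw [← h2.2 τ hτ, smul_smul, h1.2 (τ * c) h3, mul_assoc]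

omit [CharZero K] [Algebra F K] [IsScalarTower F K Ω] [IsAlgClosure K Ω] in
private theorem lb_homf (h : Hr f L ψ f₀ ψ₀ r) (i : ι) : ∃ e, (f₂ f₀ i).IsHomogeneous e := by
  obtain ⟨e, he⟩ := h.dat.hom i
  exact ⟨e, he.map _⟩

/-- Proof: `tn_hom`. -/
theorem tlf_hom [L.Unr] (h : Hr f L ψ f₀ ψ₀ r) (hl : Lm f L lam) (hℓ : Tlf f₀ r lam χ ℓ)
    {y u : Fin N → L.κ} (ht : Tg (f₂ f₀) y u) {c : L.κ} (hc : c ≠ 0) :
    ℓ (c • y) (c • u) = ℓ y u := by
  classical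
  have : Fact L.p.Prime := ⟨L.pp⟩
  have : CharP L.κ L.p := L.char_κ
  have : IsAlgClosed Ω := IsAlgClosure.isAlgClosed K
  have : IsAlgClosed L.κ := L.κ_closed
  obtain ⟨n, hn, hrn, hs⟩ := exists_kf (L := L) (r := r) h.rf
    (Finset.univ.image y ∪ (Finset.univ.image u ∪ {c}))
  have hy : Kfn L n y := fun i => hs _ (Finset.mem_union_left _
    (Finset.mem_image_of_mem _ (Finset.mem_univ _)))
  have hu : Kfn L n u := fun i => hs _ (Finset.mem_union_right _ (Finset.mem_union_left _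
    (Finset.mem_image_of_mem _ (Finset.mem_univ _))))
  have hcn : c ^ L.p ^ n = c := hs _ (Finset.mem_union_right _ (Finset.mem_union_right _
    (Finset.mem_singleton_self _)))
  have hcy : Kfn L n (c • y) := fun i => by
    rw [Pi.smul_apply, smul_eq_mul, mul_pow, hcn, hy i]
  have hcu : Kfn L n (c • u) := fun i => by
    rw [Pi.smul_apply, smul_eq_mul, mul_pow, hcn, hu i]
  have h1 := hℓ n y u hn hrn hy hu ht
  have h2 := hℓ n (c • y) (c • u) hn hrn hcy hcu (tg_hom (lb_homf h) ht hc)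
  refine fp_uniq hn h2.1 h1.1 fun τ hτ => ?_
  have hk : Kfn L n (τ • u) := fun i => by
    rw [Pi.smul_apply, smul_eq_mul, mul_pow, hτ, hu i]
  rw [← h2.2 τ hτ, ← h1.2 τ hτ, smul_comm τ c u,
    tn_hom h hl hn hrn hy hk (tg_smul ht τ) hcn hc]

/-- Proof: `tn_rad`; `χ 0 = 0` (`hχ`). -/
theorem tlf_rad [L.Unr] (h : Hr f L ψ f₀ ψ₀ r) (hl : Lm f L lam) (hχ : Ad f L lam χ)
    (hℓ : Tlf f₀ r lam χ ℓ) {y : Fin N → L.κ} (hz : Zp (f₂ f₀) y) (c : L.κ) :
    ℓ y (c • y) = 0 := by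
  classical
  have : Fact L.p.Prime := ⟨L.pp⟩
  have : CharP L.κ L.p := L.char_κ
  have : IsAlgClosed Ω := IsAlgClosure.isAlgClosed K
  have : IsAlgClosed L.κ := L.κ_closed
  obtain ⟨n, hn, hrn, hs⟩ := exists_kf (L := L) (r := r) h.rf (Finset.univ.image y ∪ {c})
  have hy : Kfn L n y := fun i => hs _ (Finset.mem_union_left _
    (Finset.mem_image_of_mem _ (Finset.mem_univ _)))
  have hcn : c ^ L.p ^ n = c := hs _ (Finset.mem_union_right _ (Finset.mem_singleton_self _))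
  have hcy : Kfn L n (c • y) := fun i => by
    rw [Pi.smul_apply, smul_eq_mul, mul_pow, hcn, hy i]
  have h1 := hℓ n y (c • y) hn hrn hy hcy (tg_rad (lb_homf h) hz c)
  have hp0 : L.p ^ n ≠ 0 := pow_ne_zero n L.pp.ne_zero
  have hχ0 : χ 0 = 0 := by
    have h2 := hχ 0 (zero_mem _) 0 (zero_mem _)
    rw [add_zero] at h2
    exact left_eq_add.mp h2
  refine fp_uniq hn h1.1 (zero_pow hp0) fun τ hτ => ?_
  have h3 : (τ * c) ^ L.p ^ n = τ * c := by rw [mul_pow, hτ, hcn]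
  rw [← h1.2 τ hτ, smul_smul, tn_rad h hl hn hrn hy hz h3, hχ0, mul_zero, lb_trz, ZMod.val_zero,
    Nat.cast_zero]

/-- Proof: `n` for the coordinates of `y`, `u`; for `τ = σ ^ (p ^ r)`, `σ` in the field with `p ^ n` elements: `χ` of the value at the conjugate vectors and `τ` is that at `y`, `σ u` (`tn_frob`), so `trn (σ ℓ(y, u)) = trn (τ ℓ(y, u) ^ (p ^ r))` (`trn_rot`); `fp_uniq`. -/
theorem tlf_frob [L.Unr] (h : Hr f L ψ f₀ ψ₀ r) (hl : Lm f L lam) (hℓ : Tlf f₀ r lam χ ℓ)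
    {y u : Fin N → L.κ} (ht : Tg (f₂ f₀) y u) :
    ℓ (fun i => y i ^ L.p ^ r) (fun i => u i ^ L.p ^ r) = ℓ y u ^ L.p ^ r := by
  classical
  have : Fact L.p.Prime := ⟨L.pp⟩
  have : CharP L.κ L.p := L.char_κ
  have : IsAlgClosed Ω := IsAlgClosure.isAlgClosed K
  have : IsAlgClosed L.κ := L.κ_closed
  obtain ⟨n, hn, hrn, hs⟩ := exists_kf (L := L) (r := r) h.rf
    (Finset.univ.image y ∪ Finset.univ.image u)
  have hy : Kfn L n y := fun i => hs _ (Finset.mem_union_left _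
    (Finset.mem_image_of_mem _ (Finset.mem_univ _)))
  have hu : Kfn L n u := fun i => hs _ (Finset.mem_union_right _
    (Finset.mem_image_of_mem _ (Finset.mem_univ _)))
  have hyq : Kfn L n fun i => y i ^ L.p ^ r := fun i => lb_pn (hy i)
  have huq : Kfn L n fun i => u i ^ L.p ^ r := fun i => lb_pn (hu i)
  have h1 := hℓ n y u hn hrn hy hu ht
  have h2 := hℓ n (fun i => y i ^ L.p ^ r) (fun i => u i ^ L.p ^ r) hn hrn hyq huq
    (tg_frob h.rf ht)
  refine fp_uniq hn h2.1 (lb_pn h1.1) fun τ hτ => ?_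
  obtain ⟨σ, hσ, hσq⟩ := lb_root (r := r) hτ
  have hk : Kfn L n (σ • u) := fun i => by
    rw [Pi.smul_apply, smul_eq_mul, mul_pow, hσ, hu i]
  have e1 : (τ • fun i => u i ^ L.p ^ r) = fun i => (σ • u) i ^ L.p ^ r := by
    funext i
    rw [Pi.smul_apply, Pi.smul_apply, smul_eq_mul, smul_eq_mul, mul_pow, hσq]
  have e2 : τ * ℓ y u ^ L.p ^ r = (σ * ℓ y u) ^ L.p ^ r := by rw [mul_pow, hσq]
  have e3 : (σ * ℓ y u) ^ L.p ^ n = σ * ℓ y u := by rw [mul_pow, hσ, h1.1]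
  rw [← h2.2 τ hτ, e1, tn_frob h hl hn hrn hy hk (tg_smul ht σ), h1.2 σ hσ, e2, trn_rot e3]

end GX
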