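import Pool.Agent.Lib.MP_f80667_ag.Gy.Vb
import Pool.Agent.Lib.MP_f80667_ag.Gx.TsF

/-! Values: comparison with the function T over kI. -/

open ZC BE PE CV IntermediateField

namespace GX

variable {F : Type} [Field F] {N d m : ℕ} {ι : Type} {f : ι → MvPolynomial (Fin N) F}
  {K Ω : Type} [Field K] [CharZero K] [Field Ω] [Algebra K Ω] [Algebra F K] [Algebra F Ω]
  [IsScalarTower F K Ω] [IsAlgClosure K Ω] {L : Ld K Ω} {ψ : Fin m → Prj F N d}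
  {f₀ : ι → MvPolynomial (Fin N) (L.V.comap (algebraMap F Ω))}
  {ψ₀ : Fin m → Prj (L.V.comap (algebraMap F Ω)) N d} {r : ℕ}

variable {B : Type} [AddCommGroup B] {lam : ((Xf f).pt Ω →₀ ℤ) →+ B}

/-- **Comparison with the function `T` over `kI L n`.** Proof: `T = Tf L lam (L.Ur ⊥ n) n f'`; `tf_ft`; `Vn` for vectors over `kI L n` is `Tv` with `s = 1` (`rf_n`: `Mu .. 1 = Ur ⊥ n`; `(1 : ZMod p)⁻¹.val = 1`); `tf_eq`. -/
theorem tn_ft [L.Unr] (h : Hr f L ψ f₀ ψ₀ r) (hl : Lm f L lam) {n : ℕ} (hn : n ≠ 0)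
    (hrn : r ∣ n) :
    ∃ (f' : ι → MvPolynomial (Fin N) (GM.kI L n)) (ψ' : Fin m → Prj (GM.kI L n) N d)
      (T : (Fin N → GM.kI L n) → (Fin N → GM.kI L n) → B), Ft f' ψ' T ∧
      (fun i => MvPolynomial.map (algebraMap (GM.kI L n) L.κ) (f' i)) = f₂ f₀ ∧
      (fun i => (ψ' i).map (algebraMap (GM.kI L n) L.κ)) = ψ₂ ψ₀ ∧
      ∀ y u : Fin N → GM.kI L n, Tg f' y u → ∀ b,
        Vn L lam n (fun i => (y i : L.κ)) (fun i => (u i : L.κ)) b → T y u = b := by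
  obtain ⟨f', ψ', hx, e1, e2⟩ := h.rdx hn hrn
  obtain ⟨hR, hM, hMu⟩ := rf_n h.rf hn hrn
  have hf : Hm f := fun i => by
    obtain ⟨e, he⟩ := h.dat.hom i
    refine ⟨e, ?_⟩
    rw [← h.dat.mf i]
    exact he.map _
  have hp : ∀ i, ((ψ i).map (algebraMap F K)).G.natDegree < L.p := fun i =>
    lt_of_le_of_lt Polynomial.natDegree_map_le (h.hp i)
  refine ⟨f', ψ', Tf L lam (L.Ur ⊥ n) n f', tf_ft hf hx.hom hp h.h2 hl hM hR hx, e1, e2, ?_⟩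
  intro y u ht b hb
  refine tf_eq h.h2 hl hM hR hx ht ?_
  obtain ⟨x, x', P, P', h1, h2, h3, h4, h5, h6, rfl⟩ := hb
  have h1J : ¬ L.p ∣ 1 := fun h => L.pp.one_lt.ne' (Nat.dvd_one.1 h)
  refine ⟨1, h1J, x, x', P, P', ?_, ?_, h3, h4, h5, h6, ?_⟩
  · rw [hMu]
    exact h1
  · rw [hMu]
    exact h2
  · have hF : Fact L.p.Prime := ⟨L.pp⟩
    have h7 : (((1 : ℕ) : ZMod L.p)⁻¹).val = 1 := by
      rw [Nat.cast_one, inv_one]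
      have : Fact (1 < L.p) := ⟨L.pp.one_lt⟩
      exact ZMod.val_one _
    rw [vl, hMu, h7, one_smul]

/-- The function `T` and the function `Tn`. -/
private theorem vc_t [L.Unr] (h : Hr f L ψ f₀ ψ₀ r) (hl : Lm f L lam) {n : ℕ} (hn : n ≠ 0)
    (hrn : r ∣ n) :
    ∃ (f' : ι → MvPolynomial (Fin N) (GM.kI L n)) (ψ' : Fin m → Prj (GM.kI L n) N d)
      (T : (Fin N → GM.kI L n) → (Fin N → GM.kI L n) → B), Ft f' ψ' T ∧
      ∀ y u : Fin N → GM.kI L n, Kfn L n (fun i => (y i : L.κ)) →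
        Kfn L n (fun i => (u i : L.κ)) →
        Tg (f₂ f₀) (fun i => (y i : L.κ)) (fun i => (u i : L.κ)) → Tg f' y u ∧
          T y u = Tn L lam n (fun i => (y i : L.κ)) (fun i => (u i : L.κ)) := by
  obtain ⟨f', ψ', T, hT, e1, -, hv⟩ := tn_ft h hl hn hrn
  refine ⟨f', ψ', T, hT, fun y u hy hu ht => ?_⟩
  have ht' : Tg f' y u := by
    rw [← e1] at ht
    exact tg_coe.1 ht
  exact ⟨ht', hv y u ht' _ (tn_vn h hn hrn hy hu (by exact ht))⟩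

private theorem vc_hom (h : Hr f L ψ f₀ ψ₀ r) (i : ι) :
    ∃ e, (f₂ f₀ i).IsHomogeneous e := by
  obtain ⟨e, he⟩ := h.dat.hom i
  exact ⟨e, he.map _⟩

private theorem vc_lift {n : ℕ} {y : Fin N → L.κ} (hy : Kfn L n y) :
    ∃ y' : Fin N → GM.kI L n, (fun i => (y' i : L.κ)) = y :=
  ⟨fun i => ⟨y i, kf_kI (hy i)⟩, rfl⟩

/-- Proof: `tn_ft`, `tn_vn`, `kf_kI`, `tg_coe`. -/
theorem tn_eq [L.Unr] (h : Hr f L ψ f₀ ψ₀ r) (hl : Lm f L lam) {n : ℕ} (hn : n ≠ 0)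
    (hrn : r ∣ n) {y u : Fin N → L.κ} (hy : Kfn L n y) (hu : Kfn L n u)
    (ht : Tg (f₂ f₀) y u) {b : B} (hb : Vn L lam n y u b) : Tn L lam n y u = b := by
  obtain ⟨f', ψ', T, hT, e1, -, hv⟩ := tn_ft h hl hn hrn
  obtain ⟨y', rfl⟩ := vc_lift hy
  obtain ⟨u', rfl⟩ := vc_lift hu
  have ht' : Tg f' y' u' := by
    rw [← e1] at ht
    exact tg_coe.1 ht
  exact (hv y' u' ht' _ (tn_vn h hn hrn hy hu ht)).symm.trans (hv y' u' ht' b hb)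

/-- Proof: `tn_ft`, `Ft.add`. -/
theorem tn_add [L.Unr] (h : Hr f L ψ f₀ ψ₀ r) (hl : Lm f L lam) {n : ℕ} (hn : n ≠ 0)
    (hrn : r ∣ n) {y u u' : Fin N → L.κ} (hy : Kfn L n y) (hu : Kfn L n u)
    (hu' : Kfn L n u') (ht : Tg (f₂ f₀) y u) (ht' : Tg (f₂ f₀) y u') :
    Tn L lam n y (u + u') = Tn L lam n y u + Tn L lam n y u' := by
  have hp : Fact L.p.Prime := ⟨L.pp⟩
  have hc : CharP L.κ L.p := L.char_κ
  obtain ⟨f', ψ', T, hT, hv⟩ := vc_t h hl hn hrn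
  have huu : Kfn L n (u + u') := fun i => by
    rw [Pi.add_apply, add_pow_char_pow, hu i, hu' i]
  obtain ⟨y, rfl⟩ := vc_lift hy
  obtain ⟨v, rfl⟩ := vc_lift hu
  obtain ⟨v', rfl⟩ := vc_lift hu'
  obtain ⟨t1, h1⟩ := hv y v hy hu ht
  obtain ⟨t2, h2⟩ := hv y v' hy hu' ht'
  obtain ⟨t3, h3⟩ := hv y (v + v') hy huu (tg_add ht ht')
  rw [← h1, ← h2, ← hT.add y v v' t1 t2]
  exact h3.symm

/-- Proof: `tn_ft`, `Ft.hom`. -/
theorem tn_hom [L.Unr] (h : Hr f L ψ f₀ ψ₀ r) (hl : Lm f L lam) {n : ℕ} (hn : n ≠ 0)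
    (hrn : r ∣ n) {y u : Fin N → L.κ} (hy : Kfn L n y) (hu : Kfn L n u)
    (ht : Tg (f₂ f₀) y u) {c : L.κ} (hc : c ^ L.p ^ n = c) (hc0 : c ≠ 0) :
    Tn L lam n (c • y) (c • u) = Tn L lam n y u := by
  obtain ⟨f', ψ', T, hT, hv⟩ := vc_t h hl hn hrn
  have hcy : Kfn L n (c • y) := fun i => by
    rw [Pi.smul_apply, smul_eq_mul, mul_pow, hc, hy i]
  have hcu : Kfn L n (c • u) := fun i => by
    rw [Pi.smul_apply, smul_eq_mul, mul_pow, hc, hu i]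
  obtain ⟨y, rfl⟩ := vc_lift hy
  obtain ⟨u, rfl⟩ := vc_lift hu
  obtain ⟨c', hc'⟩ : ∃ c' : GM.kI L n, (c' : L.κ) = c := ⟨⟨c, kf_kI hc⟩, rfl⟩
  subst hc'
  have hc1 : c' ≠ 0 := fun h0 => hc0 (by rw [h0]; rfl)
  obtain ⟨t1, h1⟩ := hv y u hy hu ht
  obtain ⟨t2, h2⟩ := hv (c' • y) (c' • u) hcy hcu (tg_hom (vc_hom h) ht hc0)
  rw [← h1, ← hT.hom y u c' hc1 t1]
  exact h2.symm

/-- Proof: `tn_ft`, `Ft.rad`. -/
theorem tn_rad [L.Unr] (h : Hr f L ψ f₀ ψ₀ r) (hl : Lm f L lam) {n : ℕ} (hn : n ≠ 0)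
    (hrn : r ∣ n) {y : Fin N → L.κ} (hy : Kfn L n y) (hz : Zp (f₂ f₀) y) {c : L.κ}
    (hc : c ^ L.p ^ n = c) : Tn L lam n y (c • y) = 0 := by
  obtain ⟨f', ψ', T, hT, hv⟩ := vc_t h hl hn hrn
  have hcy : Kfn L n (c • y) := fun i => by
    rw [Pi.smul_apply, smul_eq_mul, mul_pow, hc, hy i]
  obtain ⟨y, rfl⟩ := vc_lift hy
  obtain ⟨c', hc'⟩ : ∃ c' : GM.kI L n, (c' : L.κ) = c := ⟨⟨c, kf_kI hc⟩, rfl⟩
  subst hc'
  obtain ⟨t1, h1⟩ := hv y (c' • y) hy hcy (tg_rad (vc_hom h) hz _)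
  rw [← hT.rad y c' t1.1]
  exact h1.symm

end GX
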