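import Pool.Agent.Lib.MP_f80667_ag.Gy.Ra0
import Pool.Agent.Lib.MP_f80667_ag.Gy.Vc

/-! Generators of the group of the values. -/

open ZC BE PE CV IntermediateField

namespace GX

variable {F : Type} [Field F] {N d m : ℕ} {ι : Type} {f : ι → MvPolynomial (Fin N) F}
  {K Ω : Type} [Field K] [CharZero K] [Field Ω] [Algebra K Ω] [Algebra F K] [Algebra F Ω]
  [IsScalarTower F K Ω] [IsAlgClosure K Ω] {L : Ld K Ω} {ψ : Fin m → Prj F N d}
  {f₀ : ι → MvPolynomial (Fin N) (L.V.comap (algebraMap F Ω))}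
  {ψ₀ : Fin m → Prj (L.V.comap (algebraMap F Ω)) N d} {r : ℕ}

variable {B : Type} [AddCommGroup B] {lam : ((Xf f).pt Ω →₀ ℤ) →+ B}

/-- Congruent coordinates with values in `M`, one of them is `1`. -/
private theorem ra_co (hG : Hm f) {M : IntermediateField K Ω} {P P' : (Xf f).pt Ω}
    (hP : Fp (Xf f) M P) (hP' : Fp (Xf f) M P') {r : ℝ} (hr : r < 1) (h : Nrh f L r P' P) :
    ∃ (x x' : Fin N → Ω) (i : Fin N), Co P x ∧ Co P' x' ∧ Iv L M x ∧ Iv L M x' ∧ x i = 1 ∧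
      ∀ j, L.nm (x' j - x j) ≤ r := by
  obtain ⟨a', a, h1, h2, h3, h4, ⟨i, hi'⟩, -, h5⟩ := h
  have hi : L.nm (a i) = 1 := by
    have e : a i = a' i - (a' i - a i) := by ring
    have h6 : L.nm (a' i - a i) < L.nm (a' i) := by
      rw [hi']
      exact (h5 i).trans_lt hr
    refine le_antisymm (h4 i) ?_
    by_contra hlt
    rw [not_le] at hlt
    have h7 : L.nm (a' i) ≤ max (L.nm (a' i - a i)) (L.nm (a i)) := by
      have e' : a' i = (a' i - a i) + a i := by ring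
      calc L.nm (a' i) = L.nm ((a' i - a i) + a i) := by rw [← e']
        _ ≤ _ := L.add _ _
    rcases le_max_iff.1 h7 with h8 | h8
    · exact absurd h6 (not_lt.2 h8)
    · rw [hi'] at h8
      exact absurd hlt (not_lt.2 h8)
  have ha : a i ≠ 0 := L.ne_zero (by rw [hi]; exact zero_lt_one)
  have ha' : a' i ≠ 0 := L.ne_zero (by rw [hi']; exact zero_lt_one)
  have c1 := co_smul hG h2 (inv_ne_zero ha)
  have c2 := co_smul hG h1 (inv_ne_zero ha')
  have e1 : (fun j => (a i)⁻¹ * a j) i = 1 := inv_mul_cancel₀ ha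
  have e2 : (fun j => (a' i)⁻¹ * a' j) i = 1 := inv_mul_cancel₀ ha'
  refine ⟨fun j => (a i)⁻¹ * a j, fun j => (a' i)⁻¹ * a' j, i, c1, c2, fun j => ⟨fp_mem hP c1 e1 j, ?_⟩,
    fun j => ⟨fp_mem hP' c2 e2 j, ?_⟩, e1, fun j => ?_⟩
  · rw [L.mul, L.inv, hi, inv_one, one_mul]
    exact h4 j
  · rw [L.mul, L.inv, hi', inv_one, one_mul]
    exact h3 j
  · have e3 : (a' i)⁻¹ * a' j - (a i)⁻¹ * a j =
        ((a' i)⁻¹ * (a i)⁻¹) * ((a' j - a j) * a i + a j * (-(a' i - a i))) := by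
      field_simp
      ring
    rw [e3, L.mul, L.mul, L.inv, L.inv, hi, hi', inv_one, one_mul, one_mul]
    refine (L.add _ _).trans (max_le ?_ ?_)
    · rw [L.mul, hi, mul_one]
      exact h5 j
    · rw [L.mul, L.neg]
      have h6 := h5 i
      have h7 := h4 j
      have h8 := L.nonneg (a' i - a i)
      calc L.nm (a j) * L.nm (a' i - a i) ≤ 1 * L.nm (a' i - a i) :=
            mul_le_mul_of_nonneg_right h7 h8
        _ ≤ r := by rw [one_mul]; exact h6

/-- **Generators of the group of the values.** Proof: `AddSubgroup.map_le_iff_le_comap`, `AddSubgroup.closure_le` (`Dl` is a closure): a generator is the trace of `[P'] - [P]` over `M`, `M = Ur ⊥ n` (`um_eq`); coordinates `x`, `x'` over the integers of `M` congruent modulo `p` (`gxfl_co` of `Gx/TsFl.lean`); `y`, `u` their residues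
(`L.hv_of`, `kf_res`; `(x' - x) / p` is integral); `y` is a zero of `f₂` and `u` is tangent (as in `lam_zero` of `Gx/TsFl.lean`: over `kI L n`, `Hr.rdx`, `tg_coe`); the value is `Tn .. y u` (`tn_eq`). -/
theorem vg_gen [L.Unr] (h : Hr f L ψ f₀ ψ₀ r) (hl : Lm f L lam) :
    Vg f L lam ≤ AddSubgroup.closure {b | ∃ (n : ℕ) (y u : Fin N → L.κ), n ≠ 0 ∧ r ∣ n ∧
      Kfn L n y ∧ Kfn L n u ∧ Tg (f₂ f₀) y u ∧ b = Tn L lam n y u} := by
  have hcz : CharZero Ω := charZero_of_injective_algebraMap (algebraMap K Ω).injective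
  have hpp := L.p_pos
  have hp1 : L.nm (L.p : Ω) < 1 := L.lt
  have hf : Hm f := fun i => by
    obtain ⟨e, he⟩ := h.dat.hom i
    refine ⟨e, ?_⟩
    rw [← h.dat.mf i]
    exact he.map _
  refine AddSubgroup.map_le_iff_le_comap.2 ?_
  unfold Dl Dsp
  rw [AddSubgroup.closure_le]
  rintro z ⟨N', M, P', P, hN', -, hM', hP', hP, hnr, rfl⟩
  obtain ⟨n, hn, hrn, rfl⟩ := um_eq h.rf (M := M) ⟨N', hN', hM'⟩
  obtain ⟨f', ψ', hx, e1, -⟩ := h.rdx hn hrn
  rw [pow_one] at hnr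
  obtain ⟨x, x', i, cx, cx', hxi, hxi', hi, hd⟩ := ra_co hf hP hP' hp1 hnr
  -- residues
  have hres : ∀ w ∈ L.Ur ⊥ n, L.nm w ≤ 1 → ∃ t : L.κ, t ^ L.p ^ n = t ∧ L.rs.Hv w t := by
    intro w hw hw1
    obtain ⟨t, ht⟩ := L.hv_of hw1
    exact ⟨t, kf_res h.rf hn hrn hw ht, ht⟩
  have hv : ∀ j, ((x' j - x j) / (L.p : Ω)) ∈ L.Ur ⊥ n ∧
      L.nm ((x' j - x j) / (L.p : Ω)) ≤ 1 := by
    intro j
    refine ⟨div_mem (sub_mem (hxi' j).1 (hxi j).1) (_root_.natCast_mem _ L.p), ?_⟩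
    rw [div_eq_mul_inv, L.mul, L.inv, ← div_eq_mul_inv, div_le_one hpp]
    exact hd j
  choose y hyk hy using fun j => hres _ (hxi j).1 (hxi j).2
  choose u huk hu using fun j => hres _ (hv j).1 (hv j).2
  obtain ⟨y', hy'⟩ : ∃ y' : Fin N → GM.kI L n, ∀ j, (y' j : L.κ) = y j :=
    ⟨fun j => ⟨y j, kf_kI (hyk j)⟩, fun _ => rfl⟩
  obtain ⟨u', hu'⟩ : ∃ u' : Fin N → GM.kI L n, ∀ j, (u' j : L.κ) = u j :=
    ⟨fun j => ⟨u j, kf_kI (huk j)⟩, fun _ => rfl⟩
  have hyv : GM.Rdv L (GM.kI L n) x y' := fun j => by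
    rw [hy' j]
    exact hy j
  have huv : GM.Rdv L (GM.kI L n) (fun j => (x' j - x j) / (L.p : Ω)) u' := fun j => by
    rw [hu' j]
    exact hu j
  have hZ : Zp f' y' := by
    refine ⟨fun h0 => ?_, fun j => ?_⟩
    · have h1 := hyv i
      rw [h0, hi] at h1
      have h2 : (((0 : Fin N → GM.kI L n) i : GM.kI L n) : L.κ) = 1 := h1.uniq Rs.Hv.one
      exact zero_ne_one h2
    · have h1 := (hx.rf j).aeval hyv
      rw [co_zero cx] at h1
      exact Subtype.ext (h1.uniq Rs.Hv.zero)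
  obtain ⟨l, hl'⟩ := hx.cv hZ
  obtain ⟨φ, hφ⟩ : ∃ φ : Prj K N d, φ = (ψ l).map (algebraMap F K) := ⟨_, rfl⟩
  have hpj : Pj f L φ := hφ ▸ hx.pj l
  have hrj : Rdj L (GM.kI L n) φ (ψ' l) := hφ ▸ hx.rj l
  have hlt : ∀ j, u' j = (ψ' l).lt ((ψ' l).uv y') ((ψ' l).yv y') ((ψ' l).uv u') j := by
    intro j
    have hξ : ∀ s, L.rs.Hv ((φ.uv x' s - φ.uv x s) / (L.p : Ω))
        (((ψ' l).uv u' s : GM.kI L n) : L.κ) := by
      intro s
      have h1 := hrj.uv huv s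
      have h3 : (φ.uv x' s - φ.uv x s) / (L.p : Ω) =
          φ.uv (fun j => (x' j - x j) / (L.p : Ω)) s := by
        unfold Prj.uv lv
        rw [← Finset.sum_sub_distrib, Finset.sum_div]
        refine Finset.sum_congr rfl fun j _ => ?_
        rw [← mul_sub, mul_div_assoc]
      rw [h3]
      exact h1
    have h1 := lt_res hpj hrj (hx.ok l) hZ hl' (fun j => (hxi' j).2)
      (fun j => co_zero cx j) (fun j => co_zero cx' j) hyv (fun j => (hd j).trans_lt hp1) hpp hp1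
      hξ j
    exact Subtype.ext ((huv j).uniq h1)
  have hTg : Tg f' y' u' := by
    obtain ⟨h1, h3⟩ := (hx.ok l).pt_eq hZ hl'
    have h4 := ((hx.ok l).lt_tg hx.hom h1 hl' ((ψ' l).uv u')).1
    rw [h3, ← show u' = _ from funext hlt] at h4
    exact h4
  have hTg2 : Tg (f₂ f₀) y u := by
    rw [← e1, ← show (fun j => (y' j : L.κ)) = y from funext hy',
      ← show (fun j => (u' j : L.κ)) = u from funext hu']
    exact tg_coe.2 hTg
  refine AddSubgroup.subset_closure ⟨n, y, u, hn, hrn, hyk, huk, hTg2, ?_⟩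
  exact (tn_eq h hl hn hrn hyk huk hTg2
    ⟨x, x', P, P', hxi, hxi', cx, cx', hy, hu, rfl⟩).symm

end GX
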