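import Pool.Agent.Lib.MP_f80667_ag.Gy.Rb
import Pool.Agent.Lib.MP_f80667_ag.Gx.TeB

/-! The local theorem. -/

open ZC BE PE CV IntermediateField

namespace GX

variable {F : Type} [Field F] {N d m : ℕ} {ι : Type} {f : ι → MvPolynomial (Fin N) F}
  {K Ω : Type} [Field K] [CharZero K] [Field Ω] [Algebra K Ω] [Algebra F K] [Algebra F Ω]
  [IsScalarTower F K Ω] [IsAlgClosure K Ω] {L : Ld K Ω} {ψ : Fin m → Prj F N d}
  {f₀ : ι → MvPolynomial (Fin N) (L.V.comap (algebraMap F Ω))}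
  {ψ₀ : Fin m → Prj (L.V.comap (algebraMap F Ω)) N d} {r : ℕ}

/-- The cycles over `K` with reduction `0` have at most `b` classes modulo `m` and rational equivalence. -/
def Cb (f : ι → MvPolynomial (Fin N) F) (L : Ld K Ω) (m b : ℕ) : Prop :=
  ∃ E : Finset ((Xf f).pt Ω →₀ ℤ), E.card ≤ b ∧
    (∀ e ∈ E, e ∈ (Xf f).cyc K Ω ∧ Zr f L e) ∧
    ∀ z ∈ (Xf f).cyc K Ω, Zr f L z → ∃ e ∈ E, ∃ z' ∈ (Xf f).cyc K Ω, Zr f L z' ∧
      z - e - m • z' ∈ (Xf f).ratEq K Ω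

private theorem rc_hm [L.Unr] (h : Hr f L ψ f₀ ψ₀ r) : Hm f := by
  intro i
  obtain ⟨e, he⟩ := h.dat.hom i
  refine ⟨e, ?_⟩
  rw [← h.dat.mf i]
  exact he.map _

private theorem rc_zero : Zr f L (0 : (Xf f).pt Ω →₀ ℤ) := by
  intro y
  rw [Finsupp.support_zero, Finset.filter_empty, Finset.sum_empty]

theorem zr_smul {z : (Xf f).pt Ω →₀ ℤ} (h : Zr f L z) (n : ℕ) : Zr f L (n • z) := by
  induction n with
  | zero =>
    rw [zero_nsmul]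
    exact rc_zero
  | succ n ih =>
    rw [succ_nsmul]
    exact zr_add ih h

/-- **Modulo `p`.** Proof: `lam` the projection modulo `H = (Dl f L 2 ⊥ ⊔ ratEq) ⊔ p Dl f L 1 ⊥` (`Lm`: as in `dl_le` of `Gx/TeC.lean`); `vg_card`; for each element of `Vg` one displacement `e` of level `1` (`dl_zr`): `E`. For `z`: `zr`: `z = z₁ + ρ`; `lam z₁ = lam e`, so `z₁ - e = z₂ + ρ' + p z₃`, `z₂` of level `2`; `d1` (`l = p`, `u = 1`, `s = 1`): `z₂ = p z₄ + ρ''`;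
`z' = z₃ + z₄` (`dl_zr`). `Hm f`, `Pj`, `Cvr` from `h.dat`. -/
theorem cb_p [L.Unr] (h : Hr f L ψ f₀ ψ₀ r) {g : ℕ}
    (hg : Dmf g (f₂ f₀) (ψ₂ ψ₀)) : Cb f L L.p ((L.p ^ r) ^ g) := by
  classical
  let H : AddSubgroup ((Xf f).pt Ω →₀ ℤ) := (Dl f L 2 (⊥ : IntermediateField K Ω) ⊔
    (Xf f).ratEq K Ω) ⊔ (Dl f L 1 (⊥ : IntermediateField K Ω)).map (nsmulAddMonoidHom L.p)
  have hlm : Lm f L (QuotientAddGroup.mk' H) := by
    refine ⟨fun y hy => ?_, fun y hy => ?_, fun y hy => ?_⟩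
    · exact (QuotientAddGroup.eq_zero_iff y).2
        ((le_sup_right.trans le_sup_left : (Xf f).ratEq K Ω ≤ H) hy)
    · exact (QuotientAddGroup.eq_zero_iff y).2
        ((le_sup_left.trans le_sup_left : Dl f L 2 (⊥ : IntermediateField K Ω) ≤ H) hy)
    · rw [← map_nsmul]
      exact (QuotientAddGroup.eq_zero_iff _).2 ((le_sup_right :
        (Dl f L 1 (⊥ : IntermediateField K Ω)).map (nsmulAddMonoidHom L.p) ≤ H) ⟨y, hy, rfl⟩)
  obtain ⟨hfin, hcard⟩ := vg_card h hlm hg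
  have hm := rc_hm h
  have hch : ∀ v : Vg f L (QuotientAddGroup.mk' H), ∃ e ∈ Dl f L 1 (⊥ : IntermediateField K Ω),
      QuotientAddGroup.mk' H e = v := fun v => v.2
  choose e he1 he2 using hch
  have := Fintype.ofFinite (Vg f L (QuotientAddGroup.mk' H))
  refine ⟨Finset.univ.image e, ?_, ?_, ?_⟩
  · refine Finset.card_image_le.trans ?_
    rw [Finset.card_univ, ← Nat.card_eq_fintype_card]
    exact hcard
  · intro x hx
    obtain ⟨v, -, rfl⟩ := Finset.mem_image.1 hx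
    exact dl_zr hm (he1 v)
  · intro z hz hz0
    obtain ⟨z₁, hz₁, ρ, hρ, rfl⟩ := AddSubgroup.mem_sup.1 (zr hm h.dat.pj h.dat.cvr hz hz0)
    obtain ⟨v, hv⟩ : ∃ v : Vg f L (QuotientAddGroup.mk' H), (v : _) = QuotientAddGroup.mk' H z₁ :=
      ⟨⟨_, z₁, hz₁, rfl⟩, rfl⟩
    refine ⟨e v, Finset.mem_image.2 ⟨v, Finset.mem_univ _, rfl⟩, ?_⟩
    have h1 : z₁ - e v ∈ H := by
      rw [← QuotientAddGroup.eq_zero_iff (z₁ - e v)]
      change QuotientAddGroup.mk' H (z₁ - e v) = 0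
      rw [map_sub, he2 v, hv, sub_self]
    obtain ⟨y, hy, w, ⟨z₃, hz₃, rfl⟩, hsum⟩ := AddSubgroup.mem_sup.1 h1
    obtain ⟨z₂, hz₂, ρ', hρ', rfl⟩ := AddSubgroup.mem_sup.1 hy
    have h2 := h.h2
    obtain ⟨z₄, hz₄, h4⟩ := d1 hm h.dat.pj h.dat.cvr (l := L.p) (u := 1) (s := 1) L.pp
      (by rw [pow_one]) (by omega) z₂ hz₂
    obtain ⟨h5, h6⟩ := dl_zr hm (add_mem hz₃ hz₄)
    refine ⟨z₃ + z₄, h5, h6, ?_⟩
    have e1 : z₁ + ρ - e v - L.p • (z₃ + z₄) = ρ' + (z₂ - L.p • z₄) + ρ := by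
      have e2 : z₂ + ρ' + L.p • z₃ = z₁ - e v := hsum
      rw [nsmul_add, show z₁ + ρ - e v = (z₁ - e v) + ρ by abel, ← e2]
      abel
    rw [e1]
    exact add_mem (add_mem hρ' h4) hρ

private theorem rc_cop [L.Unr] (h : Hr f L ψ f₀ ψ₀ r) (n : ℕ) (hn : ¬ L.p ∣ n) :
    ∀ z ∈ Dl f L 1 (⊥ : IntermediateField K Ω),
      ∃ z' ∈ Dl f L 1 (⊥ : IntermediateField K Ω), z - n • z' ∈ (Xf f).ratEq K Ω := by
  induction n using Nat.recOnMul with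
  | zero => exact absurd (dvd_zero _) hn
  | one => exact fun d hd => ⟨d, hd, by rw [one_nsmul, sub_self]; exact zero_mem _⟩
  | prime l hl =>
    exact d1 (rc_hm h) h.dat.pj h.dat.cvr (u := 0) (s := 1) hl
      (by rw [pow_zero]; exact L.nat_unit hn) (by have := hl.two_le; omega)
  | mul a b iha ihb =>
    intro d hd
    obtain ⟨d₁, h₁, e₁⟩ := iha (fun hd => hn (hd.mul_right b)) d hd
    obtain ⟨d₂, h₂, e₂⟩ := ihb (fun hd => hn (hd.mul_left a)) d₁ h₁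
    refine ⟨d₂, h₂, ?_⟩
    have e : d - (a * b) • d₂ = (d - a • d₁) + a • (d₁ - b • d₂) := by
      rw [nsmul_sub, mul_nsmul']
      abel
    rw [e]
    exact add_mem e₁ (nsmul_mem e₂ a)

/-- Prime to `p`. Proof: `zr`, `d1` (`u = 0`), `dl_zr`; induction on the prime factors (compare `dl_divm` of `Gx/TeC.lean`). -/
theorem div_cop [L.Unr] (h : Hr f L ψ f₀ ψ₀ r) {m' : ℕ} (hm : ¬ L.p ∣ m') :
    ∀ z ∈ (Xf f).cyc K Ω, Zr f L z → ∃ z' ∈ (Xf f).cyc K Ω, Zr f L z' ∧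
      z - m' • z' ∈ (Xf f).ratEq K Ω := by
  intro z hz hr
  obtain ⟨d, hd, ρ, hρ, rfl⟩ := AddSubgroup.mem_sup.1 (zr (rc_hm h) h.dat.pj h.dat.cvr hz hr)
  obtain ⟨d', hd', e⟩ := rc_cop h m' hm d hd
  obtain ⟨h1, h2⟩ := dl_zr (rc_hm h) hd'
  refine ⟨d', h1, h2, ?_⟩
  have e' : d + ρ - m' • d' = (d - m' • d') + ρ := by abel
  rw [e']
  exact add_mem e hρ

/-- Products. Proof: `E = {e + m e' : e, e' in the two sets}`. -/
theorem cb_mul {m m' b b' : ℕ} (h : Cb f L m b) (h' : Cb f L m' b') :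
    Cb f L (m * m') (b * b') := by
  classical
  obtain ⟨E, hE, hE1, hE2⟩ := h
  obtain ⟨E', hE', hE1', hE2'⟩ := h'
  refine ⟨(E ×ˢ E').image fun x => x.1 + m • x.2, ?_, ?_, ?_⟩
  · refine Finset.card_image_le.trans ?_
    rw [Finset.card_product]
    exact Nat.mul_le_mul hE hE'
  · intro x hx
    obtain ⟨⟨e, e'⟩, h1, rfl⟩ := Finset.mem_image.1 hx
    obtain ⟨h2, h3⟩ := Finset.mem_product.1 h1
    exact ⟨add_mem (hE1 e h2).1 (nsmul_mem (hE1' e' h3).1 m),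
      zr_add (hE1 e h2).2 (zr_smul (hE1' e' h3).2 m)⟩
  · intro z hz hz0
    obtain ⟨e, he, z₁, h1, h2, h3⟩ := hE2 z hz hz0
    obtain ⟨e', he', z₂, h4, h5, h6⟩ := hE2' z₁ h1 h2
    refine ⟨e + m • e', Finset.mem_image.2 ⟨(e, e'), Finset.mem_product.2 ⟨he, he'⟩, rfl⟩, z₂, h4,
      h5, ?_⟩
    have e1 : z - (e + m • e') - (m * m') • z₂ = (z - e - m • z₁) + m • (z₁ - e' - m' • z₂) := by
      rw [nsmul_sub, nsmul_sub, mul_nsmul']
      abel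
    rw [e1]
    exact add_mem h3 (nsmul_mem h6 m)

private theorem rc_one {n : ℕ} (h : ∀ z ∈ (Xf f).cyc K Ω, Zr f L z → ∃ z' ∈ (Xf f).cyc K Ω,
    Zr f L z' ∧ z - n • z' ∈ (Xf f).ratEq K Ω) : Cb f L n 1 := by
  refine ⟨{0}, by simp, ?_, ?_⟩
  · intro e he
    rw [Finset.mem_singleton.1 he]
    exact ⟨zero_mem _, rc_zero⟩
  · intro z hz hz0
    obtain ⟨z', h1, h2, h3⟩ := h z hz hz0
    exact ⟨0, Finset.mem_singleton_self _, z', h1, h2, by rwa [sub_zero]⟩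

/-- **Modulo `m`.** Proof: `m = p ^ k m'`, `k ≤ n`, `p` does not divide `m'`; `cb_p`, `cb_mul` `k` times, `div_cop`; `b ^ k ≤ b ^ n`. -/
theorem cb_m [L.Unr] (h : Hr f L ψ f₀ ψ₀ r) {g : ℕ}
    (hg : Dmf g (f₂ f₀) (ψ₂ ψ₀)) {m n : ℕ} (hm : m ≠ 0)
    (hn : ¬ L.p ^ (n + 1) ∣ m) : Cb f L m ((L.p ^ r) ^ (g * n)) := by
  obtain ⟨k, m', hm', rfl⟩ := Nat.exists_eq_pow_mul_and_not_dvd hm L.p L.pp.ne_one
  have hk : k ≤ n := by
    by_contra hcon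
    exact hn ((pow_dvd_pow _ (by omega)).trans (dvd_mul_right _ _))
  have h1 : ∀ k : ℕ, Cb f L (L.p ^ k) ((L.p ^ r) ^ (g * k)) := by
    intro k
    induction k with
    | zero =>
      rw [pow_zero, mul_zero, pow_zero]
      exact rc_one fun z hz hz0 => ⟨z, hz, hz0, by rw [one_nsmul, sub_self]; exact zero_mem _⟩
    | succ k ih =>
      rw [pow_succ, mul_add, mul_one, pow_add]
      exact cb_mul ih (cb_p h hg)
  obtain ⟨E, hE, h2, h3⟩ := cb_mul (h1 k) (rc_one (div_cop h hm'))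
  refine ⟨E, hE.trans ?_, h2, h3⟩
  rw [mul_one]
  exact Nat.pow_le_pow_right (Nat.pow_pos L.pp.pos) (Nat.mul_le_mul_left g hk)

end GX
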