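import Pool.Agent.Lib.MP_f80667_ag.Gm.GsJt
import Pool.Agent.Lib.MP_f80667_ag.Cv.EtC

/-! The residue field of `K`. -/

open ZC BE PE CV IntermediateField

namespace GX

section card

open Polynomial in
private theorem rd1_card {k : Type} [Field k] [IsAlgClosed k] {p f : ℕ} [CharP k p]
    (hp : p.Prime) (hf : f ≠ 0) : Nat.card {a : k // a ^ p ^ f = a} = p ^ f := by
  classical
  have h1 : 1 < p ^ f := Nat.one_lt_pow hf hp.one_lt
  obtain ⟨g, hg⟩ : ∃ g : k[X], g = X ^ p ^ f - X := ⟨_, rfl⟩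
  have hne : g ≠ 0 := by
    rw [hg]
    exact FiniteField.X_pow_card_sub_X_ne_zero k h1
  have hdeg : g.natDegree = p ^ f := by
    rw [hg]
    exact FiniteField.X_pow_card_sub_X_natDegree_eq k h1
  have hsep : g.Separable := by
    rw [hg]
    exact galois_poly_separable p _ (dvd_pow_self p hf)
  have h2 : Nat.card {a : k // a ^ p ^ f = a} = Fintype.card (g.rootSet k) := by
    rw [← Nat.card_eq_fintype_card]
    refine Nat.card_congr (Equiv.subtypeEquivRight fun a => ?_)
    rw [mem_rootSet, hg]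
    constructor
    · intro h
      refine ⟨hg ▸ hne, ?_⟩
      simp [h]
    · rintro ⟨-, h⟩
      simpa [sub_eq_zero] using h
  rw [h2, card_rootSet_eq_natDegree hsep (IsAlgClosed.splits _), hdeg]

end card

section loc

variable {K Ω : Type} [Field K] [CharZero K] [Field Ω] [Algebra K Ω] [IsAlgClosure K Ω]
  {L : Ld K Ω}

/-- The degree of the residue field of `K`. Proof: `exists_frob L.toLf ⊥` gives `φ`, `q`; `Ld` / `frob_q`: `q = p ^ r`; `L.Ur ⊥ r = ⊥`: an automorphism of `Ω` over `K` fixes the residues of the elements of `K`, so the elements of `Te r` (they are determined by their residues, `te_inj`, and by `frob_te` each of them is congruent to an element of `K`); `ur_res`.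
The reduction of the integers of `K` has the kernel of the norm `< 1` and its image is `{x | x ^ p ^ r = x}` with `p ^ r` elements. -/
theorem exists_rfb [L.Unr] : ∃ r, L.Rf ⊥ r ∧
    Nat.card {a : L.κ // ∃ x : K, L.rs.Hv (algebraMap K Ω x) a} = L.p ^ r := by
  have hac : IsAlgClosed Ω := IsAlgClosure.isAlgClosed K
  obtain ⟨φ, q, hφ⟩ := exists_frob L.toLf (⊥ : IntermediateField K Ω)
  obtain ⟨f, hf, hq, -⟩ := Ld.frob_q hφ
  rw [hq] at hφ
  obtain ⟨h1, h2⟩ := Ld.frob_te hφ
  refine ⟨f, ⟨hf, ?_, h1⟩, ?_⟩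
  · exact sup_le le_rfl (adjoin_le_iff.2 fun z hz => h2 z hz)
  have hch : CharP L.κ L.p := L.char_κ
  have hcl : IsAlgClosed L.κ := L.κ_closed
  rw [← rd1_card (k := L.κ) (p := L.p) L.pp hf]
  refine Nat.card_congr (Equiv.subtypeEquivRight fun a => ?_)
  constructor
  · rintro ⟨x, hx⟩
    obtain ⟨z, hz, hxz⟩ := h1 _ ((⊥ : IntermediateField K Ω).algebraMap_mem x) (L.hv_int hx)
    obtain ⟨t, ht⟩ := L.hv_of (Ld.te_int hf hz)
    have h3 : a = t := (L.hv_sub hx ht).2 hxz
    rw [← h3] at ht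
    have h4 := ht.pow (L.p ^ f)
    rw [show z ^ L.p ^ f = z from hz] at h4
    exact h4.uniq ht
  · intro ha
    obtain ⟨y, hy⟩ := L.hv_surj a
    obtain ⟨N', hN', z, hz, hyz⟩ := Ld.te_rep (L.hv_int hy)
    obtain ⟨t, ht⟩ := L.hv_of (Ld.te_int hN' hz)
    have h3 : a = t := (L.hv_sub hy ht).2 hyz
    rw [← h3] at ht
    have h4 : L.rs.Hv (z ^ L.p ^ f) a := by
      have h5 := ht.pow (L.p ^ f)
      rwa [ha] at h5
    have h6 := (L.hv_sub h4 ht).1 rfl
    have h7 : z ^ L.p ^ f ∈ L.Te N' := by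
      change (z ^ L.p ^ f) ^ L.p ^ N' = z ^ L.p ^ f
      rw [pow_right_comm, show z ^ L.p ^ N' = z from hz]
    have h8 : z ∈ L.Te f := Ld.te_inj hN' h7 hz h6
    obtain ⟨x, rfl⟩ := IntermediateField.mem_bot.1 (h2 z h8)
    exact ⟨x, ht⟩

end loc

end GX
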