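import Pool.Agent.Lib.MP_f80667_ag.Gm.GwE
import Pool.Agent.Lib.MP_f80667_ag.Gm.GeC

/-! The residue field of `F_v`. -/

open ZC BE PE CV IntermediateField IsDedekindDomain NumberField

namespace GX

variable {F : Type} [Field F] [NumberField F]

open IsLocalRing in
/-- The residue field of `F_v`. Proof: `𝓞 F / v` maps onto the residue field of the completion (compare `card_residue_ge` of `Dq/GoodS.lean` for the injection, copy it; surjective: `F` is dense in its completion, every integral element is congruent to an element of `𝓞 F` modulo the maximal ideal; Mathlib or `LF/Adic.lean`). -/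
theorem card_rs (v : HeightOneSpectrum (𝓞 F)) :
    Nat.card (IsLocalRing.ResidueField (v.adicCompletionIntegers F)) =
      Ideal.absNorm v.asIdeal := by
  have hmax : v.asIdeal.IsMaximal := v.isMaximal
  let φ : 𝓞 F →+* ResidueField (v.adicCompletionIntegers F) :=
    (residue _).comp (algebraMap (𝓞 F) (v.adicCompletionIntegers F))
  have hφ : ∀ a ∈ v.asIdeal, φ a = 0 := by
    intro a ha
    change residue _ (algebraMap (𝓞 F) (v.adicCompletionIntegers F) a) = 0
    rw [residue_eq_zero_iff, Pool.Agent.Lib.MP_f80667_ag.LF.mem_max_iff]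
    have h1 : Valued.v (((algebraMap (𝓞 F) (v.adicCompletionIntegers F) a :
        v.adicCompletionIntegers F)) : v.adicCompletion F) = v.valuation F (algebraMap (𝓞 F) F a) :=
      HeightOneSpectrum.valuedAdicCompletion_eq_valuation' v (algebraMap (𝓞 F) F a)
    rw [h1]
    exact (v.valuation_lt_one_iff_mem a).2 ha
  let ψ : 𝓞 F ⧸ v.asIdeal →+* ResidueField (v.adicCompletionIntegers F) :=
    Ideal.Quotient.lift v.asIdeal φ hφ
  have h1 : Function.Injective ψ := by
    let i1 : Field (𝓞 F ⧸ v.asIdeal) := Ideal.Quotient.field v.asIdeal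
    exact ψ.injective
  have h3 : Function.Surjective ψ := by
    intro z
    obtain ⟨x, rfl⟩ := residue_surjective z
    obtain ⟨a, ha⟩ := Pool.Agent.Lib.MP_f80667_ag.LF.exists_close F v x
    refine ⟨Ideal.Quotient.mk _ a, ?_⟩
    change φ a = _
    rw [← residue_eq_zero_iff, map_sub, sub_eq_zero] at ha
    exact ha.symm
  have h2 : Ideal.absNorm v.asIdeal = Nat.card (𝓞 F ⧸ v.asIdeal) := by
    rw [Ideal.absNorm_apply, Submodule.cardQuot_apply]
  rw [h2]
  exact (Nat.card_congr (Equiv.ofBijective ψ ⟨h1, h3⟩)).symm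

/-- Proof: the map from `CV.Iv v` (the integers of `F_v`) to `L.κ` has the kernel of the nonunits and the image of the statement; `card_rs`. -/
theorem card_hv (v : HeightOneSpectrum (𝓞 F)) {L : Ld (FK F v) (AlgebraicClosure (FK F v))}
    (hL : ∀ x, x ∈ Ok L ↔ x ∈ CV.Iv v) :
    Nat.card {a : L.κ // ∃ x : FK F v,
      L.rs.Hv (algebraMap (FK F v) (AlgebraicClosure (FK F v)) x) a} =
      Ideal.absNorm v.asIdeal := by
  have h0 : Nat.card (IsLocalRing.ResidueField (CV.Iv v)) = Ideal.absNorm v.asIdeal := card_rs v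
  rw [← h0]
  symm
  let f : CV.Iv v →+* L.V :=
    { toFun := fun x => ⟨algebraMap (FK F v) (AlgebraicClosure (FK F v)) x.1, (hL x.1).2 x.2⟩
      map_one' := Subtype.ext (map_one _)
      map_mul' := fun x y => Subtype.ext (map_mul _ _ _)
      map_zero' := Subtype.ext (map_zero _)
      map_add' := fun x y => Subtype.ext (map_add _ _ _) }
  have hf : ∀ a ∈ IsLocalRing.maximalIdeal (CV.Iv v), (IsLocalRing.residue L.V).comp f a = 0 := by
    intro a ha
    by_contra hne
    have h1 : L.nm (algebraMap (FK F v) (AlgebraicClosure (FK F v)) a.1) = 1 :=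
      (L.hv_ne (r := (IsLocalRing.residue L.V) (f a)) ⟨(f a).2, rfl⟩).1 hne
    rw [IsLocalRing.mem_maximalIdeal, mem_nonunits_iff] at ha
    apply ha
    have h2 : a.1⁻¹ ∈ CV.Iv v := by
      rw [← hL]
      change L.nm (algebraMap (FK F v) (AlgebraicClosure (FK F v)) a.1⁻¹) ≤ 1
      rw [map_inv₀, L.inv, h1, inv_one]
    have h3 : a.1 ≠ 0 := by
      intro h
      rw [h, map_zero, L.zero] at h1
      exact zero_ne_one h1
    exact IsUnit.of_mul_eq_one (⟨a.1⁻¹, h2⟩ : CV.Iv v) (Subtype.ext (mul_inv_cancel₀ h3))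
  let g : IsLocalRing.ResidueField (CV.Iv v) →+* L.κ :=
    Ideal.Quotient.lift _ ((IsLocalRing.residue L.V).comp f) hf
  have hg : ∀ x : CV.Iv v, g (IsLocalRing.residue _ x) = IsLocalRing.residue L.V (f x) :=
    fun x => rfl
  refine Nat.card_congr (Equiv.ofBijective (fun z => ⟨g z, ?_⟩) ⟨?_, ?_⟩)
  · obtain ⟨x, rfl⟩ := IsLocalRing.residue_surjective z
    exact ⟨x.1, (f x).2, (hg x).symm⟩
  · intro z w h
    exact g.injective (congrArg Subtype.val h)
  · rintro ⟨a, x, h, hx⟩
    refine ⟨IsLocalRing.residue _ ⟨x, (hL x).1 h⟩, Subtype.ext ?_⟩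
    exact (hg ⟨x, (hL x).1 h⟩).trans hx

end GX
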