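import Pool.Agent.Lib.MP_f80667_ag.Gy.Zb
import Pool.Agent.Lib.MP_f80667_ag.Gx.VE

/-! The number of linearly independent compatible systems: almost all places. -/

open ZC BE PE CV IntermediateField IsDedekindDomain NumberField

namespace GX

variable {F : Type} [Field F] [NumberField F] {N d m g : ℕ} {ι : Type} [Finite ι]
  {f : ι → MvPolynomial (Fin N) F} {ψ : Fin m → Prj F N d}

omit [NumberField F] [Finite ι] in
private theorem dmn_bar (hf : ∀ i, ∃ e, (f i).IsHomogeneous e) (h : ∀ i, (ψ i).Ok f)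
    (hc : Cov f ψ)
    (hN : DmF g fun i => MvPolynomial.map (algebraMap F (AlgebraicClosure F)) (f i)) :
    Dmn g (fun i => MvPolynomial.map (algebraMap F (AlgebraicClosure F)) (f i))
      fun i => (ψ i).map (algebraMap F (AlgebraicClosure F)) := by
  have : Infinite (AlgebraicClosure F) := inferInstance
  refine dmn_of (fun i => ?_) (fun i => (h i).map _) (hc.map _) (fun i g _ _ => ?_) hN
  · obtain ⟨e, he⟩ := hf i
    exact ⟨e, he.map _⟩
  · exact Polynomial.splits_iff_card_roots.1 (IsAlgClosed.splits g)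

/-- **Almost all places are good.** Proof: as `almost` of `Gx/VE.lean` with `exists_dm` (and `dmn_of` over the algebraic closure as in `nf_bar`) for `exists_nf`. -/
theorem almost_dm (hf : ∀ i, ∃ e, (f i).IsHomogeneous e) (h : ∀ i, (ψ i).Ok f)
    (hc : Cov f ψ)
    (hN : DmF g fun i => MvPolynomial.map (algebraMap F (AlgebraicClosure F)) (f i)) :
    {v : HeightOneSpectrum (𝓞 F) | ¬ ∀ V : ValuationSubring (AlgebraicClosure (FK F v)),
      V.comap (algebraMap (FK F v) _) = CV.Iv v →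
        (∃ f₀ ψ₀, Dat V f ψ f₀ ψ₀ ∧
          Dmn g (fun i => MvPolynomial.map (rdO F V) (f₀ i))
            fun i => (ψ₀ i).map (rdO F V)) ∧
          ∃ p : ℕ, 2 < p ∧ (∀ i, (ψ i).G.natDegree < p) ∧ GM.Urp V (FK F v) p}.Finite := by
  obtain ⟨Z₁, hZ₁⟩ := exists_dat hf h hc
  obtain ⟨Z₂, hZ₂⟩ := exists_dm (dmn_bar hf h hc hN) fun i => (h i).mon
  have hA : (⋃ z ∈ Z₁, {v : HeightOneSpectrum (𝓞 F) | ¬ v.valuation F z ≤ 1}).Finite :=
    Z₁.finite_toSet.biUnion fun z _ => gln_le z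
  have hB := Z₂.finite_toSet.biUnion fun z _ => fin_alg z
  obtain ⟨n, hn⟩ : ∃ n : ℕ, n = 2 + ∑ i, (ψ i).G.natDegree := ⟨_, rfl⟩
  have hn0 : ((n.factorial : ℕ) : F) ≠ 0 := Nat.cast_ne_zero.2 n.factorial_ne_zero
  refine (((hA.union hB).union (gln_unr (F := F))).union (gln_one hn0)).subset fun v hv => ?_
  by_contra hcon
  simp only [Set.mem_union, not_or] at hcon
  obtain ⟨⟨⟨h3, h4⟩, h5⟩, h6⟩ := hcon
  have h5 : ∃ p : ℕ, p.Prime ∧ v.valuation F (p : F) = WithZero.exp (-1 : ℤ) := not_not.1 h5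
  have h6 : v.valuation F ((n.factorial : ℕ) : F) = 1 := not_not.1 h6
  obtain ⟨p, hp, hvp⟩ := h5
  have hnp : n < p := by
    by_contra hle
    obtain ⟨a, ha⟩ := (hp.dvd_factorial (n := n)).2 (not_lt.1 hle)
    have h7 : v.valuation F ((a : ℕ) : F) ≤ 1 := by
      have e : algebraMap (𝓞 F) F ((a : ℕ) : 𝓞 F) = ((a : ℕ) : F) := map_natCast _ _
      rw [← e]
      exact v.valuation_le_one _
    rw [ha, Nat.cast_mul, map_mul, hvp] at h6
    have h9 : (WithZero.exp (-1 : ℤ) : WithZero (Multiplicative ℤ)) < 1 := by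
      rw [← WithZero.exp_zero, WithZero.exp_lt_exp]
      omega
    exact absurd h6 (mul_lt_one_of_lt_of_le h9 h7).ne
  refine hv fun V hV => ⟨?_, p, by omega, fun i => ?_, GM.urp_of hV hp hvp⟩
  · have hz₁ : ∀ z ∈ Z₁, algebraMap F (AlgebraicClosure (FK F v)) z ∈ V := by
      intro z hz
      refine GM.mem_v hV ?_
      by_contra hz'
      exact h3 (Set.mem_biUnion (x := z) hz hz')
    obtain ⟨f₀, ψ₀, hD⟩ := hZ₁ _ V hz₁
    have σ : AlgebraicClosure F →ₐ[F] AlgebraicClosure (FK F v) := IsAlgClosed.lift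
    refine ⟨f₀, ψ₀, hD, hZ₂ _ V σ (fun z hz => ?_) f₀ ψ₀ hD⟩
    by_contra hz'
    exact h4 (Set.mem_biUnion (x := z) hz fun hall => hz' (hall V hV σ))
  · refine lt_of_le_of_lt ?_ hnp
    rw [hn]
    have := Finset.single_le_sum (f := fun i => (ψ i).G.natDegree) (fun _ _ => Nat.zero_le _)
      (Finset.mem_univ i)
    omega

end GX
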