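import Pool.Agent.Lib.MP_f80667_ag.Gy.Rc
import Pool.Agent.Lib.MP_f80667_ag.Gy.Zc
import Pool.Agent.Lib.MP_f80667_ag.Gy.Rd1
import Pool.Agent.Lib.MP_f80667_ag.Gy.Rd2
import Pool.Agent.Lib.MP_f80667_ag.Gx.VD
import Pool.Agent.Lib.MP_f80667_ag.Gm.GwF

/-! The classes of the cycles with reduction `0` modulo `m`: number fields. -/

open ZC BE PE CV IntermediateField IsDedekindDomain NumberField

namespace GX

section nf

variable {F : Type} [Field F] [NumberField F]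

variable {N d m g : ℕ} {ι : Type} [Finite ι] {f : ι → MvPolynomial (Fin N) F}
  {ψ : Fin m → Prj F N d}

/-- **The classes modulo `m` at almost all places.** Proof: `almost_dm`; as `GM.fin_loc` of `Gm/GwF.lean`: `exists_ldI v`, `v_uniq`, `GM.urp_unr`: `L` with `L.V = V`, `L.p = p`, `L.Unr`; `exists_rfb`: `r`, `p ^ r = absNorm v` (`card_hv`); `dmf_of` (`L.κ` algebraically closed of characteristic `p`; `Ok.map`, `Cov.map` from `Dat`); `cb_m`, `zrd_iff`;
`m` not in `v ^ (n + 1)` gives: `p ^ (n + 1)` does not divide `m` (`p` is in `v`). -/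
theorem fin_cb (hf : ∀ i, ∃ e, (f i).IsHomogeneous e) (h : ∀ i, (ψ i).Ok f) (hc : Cov f ψ)
    (hN : DmF g fun i => MvPolynomial.map (algebraMap F (AlgebraicClosure F)) (f i)) :
    {v : HeightOneSpectrum (𝓞 F) | ¬ ∀ V : ValuationSubring (AlgebraicClosure (FK F v)),
      V.comap (algebraMap (FK F v) _) = CV.Iv v → ∀ m n : ℕ, m ≠ 0 →
        (m : 𝓞 F) ∉ v.asIdeal ^ (n + 1) →
          Cbk f V (FK F v) m (Ideal.absNorm v.asIdeal ^ (g * n))}.Finite := by
  refine (almost_dm hf h hc hN).subset fun v hv hcon => hv fun V hV m n hm hmn => ?_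
  obtain ⟨⟨f₀, ψ₀, hD, hDm⟩, p, hp2, hdeg, hu⟩ := hcon V hV
  have hch : CharZero (FK F v) :=
    charZero_of_injective_algebraMap (algebraMap F (FK F v)).injective
  obtain ⟨L, hL⟩ := exists_ldI v
  have h1 : V.comap (algebraMap (FK F v) _) = Ok L := by
    rw [hV]
    exact SetLike.ext fun x => (hL x).symm
  obtain rfl := GM.v_uniq L V h1
  obtain ⟨rfl, hU⟩ := GM.urp_unr hu
  obtain ⟨r, hr, hcard⟩ := exists_rfb (L := L)
  have hcard' := card_hv v (L := L) fun x => hL x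
  rw [hcard] at hcard'
  have hκ : IsAlgClosed L.κ := L.κ_closed
  have hch' : CharP L.κ L.p := L.char_κ
  have hinf : Infinite L.κ := inferInstance
  have hg : Dmf g (f₂ f₀) (ψ₂ ψ₀) := by
    refine dmf_of (p := L.p) (fun i => ?_) (fun i => (hD.ok i).map _) (hD.cov.map _) L.pp
      (fun x => IsAlgClosed.exists_pow_nat_eq x L.pp.pos) hDm
    obtain ⟨e, he⟩ := hD.hom i
    exact ⟨e, he.map _⟩
  have hpv : ((L.p : ℕ) : 𝓞 F) ∈ v.asIdeal := by
    by_contra hpv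
    have h2 : ¬ v.valuation F (algebraMap (𝓞 F) F ((L.p : ℕ) : 𝓞 F)) < 1 := by
      rw [HeightOneSpectrum.valuation_lt_one_iff_mem]
      exact hpv
    rw [map_natCast] at h2
    have h3 : v.valuation F ((L.p : F)⁻¹) ≤ 1 := by
      rw [map_inv₀]
      exact inv_le_one_of_one_le₀ (not_lt.1 h2)
    have h4 := GM.mem_v hV h3
    rw [map_inv₀, map_natCast] at h4
    have h5 : L.nm ((L.p : AlgebraicClosure (FK F v))⁻¹) ≤ 1 := h4
    rw [L.inv] at h5
    exact absurd L.lt (not_lt.2 ((inv_le_one₀ L.p_pos).1 h5))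
  have hn : ¬ L.p ^ (n + 1) ∣ m := by
    rintro ⟨c, rfl⟩
    refine hmn ?_
    rw [Nat.cast_mul, Nat.cast_pow]
    exact Ideal.mul_mem_right _ _ (Ideal.pow_mem_pow hpv _)
  have h5 := cb_m (L := L) (f := f) (ψ := ψ) ⟨hr, hD, hdeg, hp2⟩ hg hm hn
  rw [hcard'] at h5
  obtain ⟨E, hE, h6, h7⟩ := h5
  refine ⟨E, hE, fun e he => ⟨(h6 e he).1, zrd_iff.2 (h6 e he).2⟩, fun z hz hz0 => ?_⟩
  obtain ⟨e, he, z', hz1, hz2, hz3⟩ := h7 z hz (zrd_iff.1 hz0)
  exact ⟨e, he, z', hz1, zrd_iff.2 hz2, hz3⟩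

end nf

end GX
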