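import Pool.Agent.Lib.MP_f80667_ag.Gx.ChD
import Pool.Agent.Lib.MP_f80667_ag.Gx.La
import Pool.Agent.Lib.MP_f80667_ag.Gx.XC
import Pool.Agent.Lib.MP_f80667_ag.Gm.GxE
import Pool.Agent.Lib.MP_f80667_ag.Gy.TA

/-! The points above an arc in the space of a projection and the moving lemma for them. -/

open ZC BE PE CV Polynomial IntermediateField

namespace GX

variable {F : Type} [Field F] {N d : ℕ} {ι : Type} {f : ι → MvPolynomial (Fin N) F} {K Ω : Type}
  [Field K] [CharZero K] [Field Ω] [Algebra K Ω] [Algebra F K] [Algebra F Ω]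
  [IsScalarTower F K Ω] [IsAlgClosure K Ω] {L : Ld K Ω} {ψ : Prj K N d}

/-- `Q c` is the point near `x` with the projection `a (c)`; the cycles of congruent polynomials are equal modulo displacements and
rational equivalence. -/
structure Brc (f : ι → MvPolynomial (Fin N) F) (L : Ld K Ω) (ψ : Prj K N d)
    (M : IntermediateField K Ω) (x : Fin N → Ω) (a : Fin (d + 1) → Polynomial Ω)
    (Q : Ω → (Xf f).pt Ω) : Prop where
  co : ∀ c, L.nm c < 1 → ∃ z : Fin N → Ω, Co (Q c) z ∧ (∀ j, L.nm (z j) ≤ 1) ∧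
    (∀ j, L.nm (z j - x j) ≤ L.nm c) ∧ ∀ r, ψ.uv z r = (a r).eval c
  act : ∀ γ ∈ M.fixingSubgroup, ∀ c, L.nm c < 1 → (Xf f).act γ (Q c) = Q (γ c)
  la : ∀ q q' : Polynomial Ω, Dpo L M q → Dpo L M q' → q.natDegree = q'.natDegree →
    ∀ s, s ≠ 0 → (∀ i, L.nm (q.coeff i - q'.coeff i) ≤ L.nm (L.p : Ω) ^ s) →
      rcy Q q - rcy Q q' ∈ Dl f L s M ⊔ (Xf f).ratEq M Ω

omit [CharZero K] [IsAlgClosure K Ω] in
private theorem tb_pos (L : Ld K Ω) {a : Polynomial Ω} (ha : ∀ j, L.nm (a.coeff j) ≤ 1) {c : Ω}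
    (hc : L.nm c ≤ 1) : L.nm (a.eval c) ≤ 1 ∧ L.nm (a.eval c - a.eval 0) ≤ L.nm c := by
  have h0 : L.nm (0 : Ω) ≤ 1 := by rw [L.zero]; exact zero_le_one
  constructor
  · rw [eval_eq_sum_range]
    refine L.sum_le _ _ zero_le_one fun i _ => ?_
    rw [L.mul, L.pow]
    exact mul_le_one₀ (ha i) (pow_nonneg (L.nonneg _) _) (pow_le_one₀ (L.nonneg _) hc)
  · have h1 := L.eval_close ha hc h0
    rwa [sub_zero] at h1

/-- The points above an arc without the moving lemma. -/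
theorem exists_brc₀ (hψ : Pj f L ψ) {M : IntermediateField K Ω} {x : Fin N → Ω} (hx : Iv L M x)
    (h0 : ∀ i, MvPolynomial.aeval x (f i) = 0)
    (hD : L.nm (MvPolynomial.aeval (ψ.uv x) ψ.D) = 1) {a : Fin (d + 1) → Polynomial Ω}
    (ha : Arc L M a) (hax : ∀ r, (a r).eval 0 = ψ.uv x r) :
    ∃ (Q : Ω → (Xf f).pt Ω) (z : Ω → Fin N → Ω) (w : Ω → Ω), (∀ c, L.nm c < 1 → Co (Q c) (z c) ∧
      (∀ j, L.nm (z c j) ≤ 1) ∧ (∀ j, L.nm (z c j - x j) ≤ L.nm c) ∧
      (∀ r, ψ.uv (z c) r = (a r).eval c) ∧ L.nm (w c - ψ.yv x) ≤ L.nm c ∧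
      pe (fun r => (a r).eval c) (w c) ψ.G = 0 ∧
      (∀ j, z c j = pe (fun r => (a r).eval c) (w c) (ψ.A j) /
        MvPolynomial.aeval (fun r => (a r).eval c) ψ.D) ∧
      L.nm (MvPolynomial.aeval (fun r => (a r).eval c) ψ.D) = 1) ∧
      ∀ γ ∈ M.fixingSubgroup, ∀ c, L.nm c < 1 → (Xf f).act γ (Q c) = Q (γ c) := by
  have hx1 : ∀ j, L.nm (x j) ≤ 1 := fun j => (hx j).2
  obtain ⟨hu1, hy1⟩ := hψ.uv_le hx1
  have hxne : x ≠ 0 := by
    rintro rfl
    have h1 : ψ.uv (0 : Fin N → Ω) = 0 := by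
      funext r
      simp [Prj.uv, lv]
    have h2 : ∀ r, L.nm ((0 : Fin (d + 1) → Ω) r) < 1 := fun r => by
      rw [Pi.zero_apply, L.zero]
      exact zero_lt_one
    obtain ⟨e, he, hh⟩ := hψ.homD
    have h3 := hom_lt (L := L) hψ.iD he hh h2
    rw [h1] at hD
    rw [hD] at h3
    exact lt_irrefl _ h3
  obtain ⟨hG0, hpt⟩ := hψ.pt_eq hxne h0 (L.ne_zero (by rw [hD]; exact zero_lt_one))
  have key : ∀ c : Ω, ∃ (P : (Xf f).pt Ω) (z : Fin N → Ω) (w : Ω), L.nm c < 1 → Co P z ∧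
      (∀ j, L.nm (z j) ≤ 1) ∧ (∀ j, L.nm (z j - x j) ≤ L.nm c) ∧
      (∀ r, ψ.uv z r = (a r).eval c) ∧ L.nm (w - ψ.yv x) ≤ L.nm c ∧
      pe (fun r => (a r).eval c) w ψ.G = 0 ∧
      (∀ j, z j = pe (fun r => (a r).eval c) w (ψ.A j) /
        MvPolynomial.aeval (fun r => (a r).eval c) ψ.D) ∧
      L.nm (MvPolynomial.aeval (fun r => (a r).eval c) ψ.D) = 1 := by
    intro c
    by_cases hc : L.nm c < 1
    · have hval := fun r => tb_pos L (fun j => (ha r j).2) hc.le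
      have hc1 : ∀ r, L.nm ((a r).eval c) ≤ 1 := fun r => (hval r).1
      have hcl : ∀ r, L.nm ((a r).eval c - ψ.uv x r) ≤ L.nm c := fun r => by
        rw [← hax r]
        exact (hval r).2
      have hD' : L.nm (MvPolynomial.aeval (fun r => (a r).eval c) ψ.D) = 1 :=
        hψ.D_close hu1 hc1 (fun r => by
          rw [L.sub_comm]
          exact (hcl r).trans_lt hc) hD
      have hGc : L.nm (pe (fun r => (a r).eval c) (ψ.yv x) ψ.G) ≤ L.nm c := by
        have h1 := pe_close (L := L) hψ.iG hc1 hy1 hu1 hy1 (L.nonneg c) hcl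
          (by rw [sub_self, L.zero]; exact L.nonneg c)
        rwa [hG0, sub_zero] at h1
      obtain ⟨w, -, hw1, hw2, hw3⟩ := hψ.root (M := ⊤)
        (c := fun r => (a r).eval c) (fun r => ⟨IntermediateField.mem_top, hc1 r⟩) hD'
        (w₀ := ψ.yv x) IntermediateField.mem_top hy1 (hGc.trans_lt hc)
      obtain ⟨k1, -, k3, k4, k5, -⟩ := hψ.pt_iv (M := ⊤) (c := fun r => (a r).eval c) (w := w)
        (fun r => ⟨IntermediateField.mem_top, hc1 r⟩) IntermediateField.mem_top hw1 hw2 hD'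
      obtain ⟨P, hP⟩ := co_mk k3 k4
      refine ⟨P, _, w, fun _ => ⟨hP, fun j => (k1 j).2, fun j => ?_, fun r => congrFun k5 r,
        hw3.trans hGc, hw2, fun j => om_pt _ _ _, hD'⟩⟩
      have h1 := hψ.pt_close hc1 hw1 hu1 hy1 hD' hD (L.nonneg c) hcl (hw3.trans hGc) j
      rwa [hpt] at h1
    · obtain ⟨P, hP⟩ := co_mk hxne h0
      exact ⟨P, x, 0, fun h => absurd h hc⟩
  choose Q z w hQ using key
  refine ⟨Q, z, w, fun c hc => hQ c hc, fun γ hγ c hc => ?_⟩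
  have hγc : L.nm (γ c) < 1 := by rw [L.act]; exact hc
  obtain ⟨h1, h2, h3, h4, -⟩ := hQ c hc
  obtain ⟨k1, k2, k3, k4, -⟩ := hQ (γ c) hγc
  have hco := co_act γ h1
  have hxγ : ∀ j, γ (x j) = x j := fun j =>
    (IntermediateField.mem_fixingSubgroup_iff M γ).1 hγ _ (hx j).1
  have e1 : ∀ j, L.nm (γ (z c j)) ≤ 1 := fun j => by rw [L.act]; exact h2 j
  have e2 : ∀ j, L.nm (γ (z c j) - x j) < 1 := fun j => by
    have e3 : γ (z c j) - x j = γ (z c j - x j) := by rw [map_sub, hxγ]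
    rw [e3, L.act]
    exact (h3 j).trans_lt hc
  have e4 : ψ.uv (fun j => γ (z c j)) = ψ.uv (z (γ c)) := by
    funext r
    have e5 : ψ.uv (fun j => γ (z c j)) r = γ (ψ.uv (z c) r) := (lv_act γ _ _).symm
    rw [e5, h4 r, k4 r]
    have e6 : (a r).map (γ : Ω →+* Ω) = a r := by
      ext i
      rw [coeff_map]
      exact (IntermediateField.mem_fixingSubgroup_iff M γ).1 hγ _ (ha r i).1
    have e7 : (γ : Ω →+* Ω) ((a r).eval c) = ((a r).map (γ : Ω →+* Ω)).eval ((γ : Ω →+* Ω) c) := by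
      rw [eval_map, eval₂_hom]
    rw [e6] at e7
    exact e7
  have hDz : L.nm (MvPolynomial.aeval (ψ.uv (z (γ c))) ψ.D) = 1 := by
    refine hψ.D_close hu1 (hψ.uv_le k2).1 (fun r => ?_) hD
    have e5 := lv_lt (L := L) (a := ψ.u r) (hψ.iu r) (x := x) (x' := z (γ c)) fun j => by
      rw [L.sub_comm]
      exact (k3 j).trans_lt hγc
    exact e5
  have e8 := hψ.inj (x := z (γ c)) (x' := fun j => γ (z c j)) k2 e1 (co_zero k1) (co_zero hco) hDz
    (fun j => by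
      have e9 : γ (z c j) - z (γ c) j = (γ (z c j) - x j) + -(z (γ c) j - x j) := by ring
      rw [e9]
      refine (L.add _ _).trans_lt (max_lt (e2 j) ?_)
      rw [L.neg]
      exact (k3 j).trans_lt hγc) e4
  rw [e8] at hco
  exact co_eq hco k1

/-- **The points above an arc.** -/
theorem exists_brc [L.Unr] (hψ : Pj f L ψ) {M : IntermediateField K Ω} (hM : Um L M)
    {x : Fin N → Ω} (hx : Iv L M x) (h0 : ∀ i, MvPolynomial.aeval x (f i) = 0)
    (hD : L.nm (MvPolynomial.aeval (ψ.uv x) ψ.D) = 1) {a : Fin (d + 1) → Polynomial Ω}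
    (ha : Arc L M a) (hax : ∀ r, (a r).eval 0 = ψ.uv x r) :
    ∃ Q : Ω → (Xf f).pt Ω, Brc f L ψ M x a Q := by
  obtain ⟨Q, z, w, h, hact⟩ := exists_brc₀ hψ hx h0 hD ha hax
  refine ⟨Q, fun c hc => ?_, hact, ?_⟩
  · obtain ⟨h1, h2, h3, h4, -⟩ := h c hc
    exact ⟨z c, h1, h2, h3, h4⟩
  · intro q q' hq hq' hd s hs hqq
    have hfd : FiniteDimensional K M := hM.fd
    have hx1 : ∀ j, L.nm (x j) ≤ 1 := fun j => (hx j).2
    obtain ⟨ρ, hρ⟩ : ∃ ρ, ∀ r, (a r).natDegree ≤ ρ :=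
      ⟨Finset.univ.sup fun r => (a r).natDegree, fun r =>
        Finset.le_sup (f := fun r => (a r).natDegree) (Finset.mem_univ r)⟩
    have h01 : L.nm (0 : Ω) < 1 := by rw [L.zero]; exact zero_lt_one
    have ha0 : (fun r => (a r).eval 0) = ψ.uv x := funext hax
    have hw0 : ψ.yv x ∈ M := lv_mem _ fun j => (hx j).1
    have hG0 : pe (fun r => (a r).eval 0) (ψ.yv x) ψ.G = 0 := by
      obtain ⟨-, -, -, -, k5, k6, -⟩ := h 0 h01
      rw [L.zero] at k5
      have k7 : w 0 = ψ.yv x :=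
        sub_eq_zero.1 ((L.zero_iff _).1 (le_antisymm k5 (L.nonneg _)))
      rw [← k7]
      exact k6
    obtain ⟨e, he, he'⟩ := la (ch_of hψ ha hρ) (π := (L.p : Ω))
      (IntermediateField.natCast_mem M L.p) L.p_pos L.lt (GM.um_val hM)
      (by rw [GM.ae_eval (F := K), ha0]; exact hD) hw0 (hψ.uv_le hx1).2
      (by rw [ga_ev, hG0, L.zero]; exact zero_lt_one) (P := Q) (fun c hc => by
        obtain ⟨k1, k2, k3, k4, k5, k6, k7, k8⟩ := h c hc
        refine ⟨w c, k5.trans_lt hc, by rw [ga_ev]; exact k6, ?_⟩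
        have hD0 : MvPolynomial.aeval (fun r => (a r).eval c) ψ.D ≠ 0 :=
          L.ne_zero (by rw [k8]; exact zero_lt_one)
        have k9 := co_smul hψ.hom k1 hD0
        have k10 : (fun j => MvPolynomial.aeval (fun r => (a r).eval c) ψ.D * z c j) =
            fun j => GM.ev₂ (c, w c) (ga a (ψ.A j)) := by
          funext j
          rw [ga_ev, k7 j]
          field_simp
        rw [k10] at k9
        exact k9) hq hq' hd (l := 1) (u := 0) (s := s) (Or.inl ⟨rfl, rfl, hs⟩)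
      (fun i => by rw [add_zero]; exact hqq i)
    rw [one_smul] at he'
    have e1 : rcy Q q - rcy Q q' = e + (rcy Q q - rcy Q q' - e) := by abel
    rw [e1]
    exact AddSubgroup.add_mem_sup he he'

end GX
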