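import Pool.Agent.Lib.MP_f80667_ag.Gy.TN
import Pool.Agent.Lib.MP_f80667_ag.Gx.TsV

/-! The trace relation in terms of residues. -/

open ZC BE PE CV Polynomial IntermediateField

namespace GX

variable {F : Type} [Field F] {N d m : ℕ} {ι : Type} {f : ι → MvPolynomial (Fin N) F}
  {K Ω : Type} [Field K] [CharZero K] [Field Ω] [Algebra K Ω] [Algebra F K] [Algebra F Ω]
  [IsScalarTower F K Ω] [IsAlgClosure K Ω] {L : Ld K Ω} {ψ : Fin m → Prj K N d}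

private theorem tcr_lift {n : ℕ} {t : L.κ} (ht : t ^ L.p ^ n = t) :
    ∃ z ∈ L.Te n, L.rs.Hv z t := by
  obtain ⟨y, hy⟩ := L.hv_surj t
  obtain ⟨N', hN', z, hz, hyz⟩ := Ld.te_rep (L.hv_int hy)
  obtain ⟨r, hr⟩ := L.hv_of (Ld.te_int hN' hz)
  have h3 : t = r := (L.hv_sub hy hr).2 hyz
  rw [← h3] at hr
  refine ⟨z, ?_, hr⟩
  have h4 : L.rs.Hv (z ^ L.p ^ n) t := by
    have h5 := hr.pow (L.p ^ n)
    rwa [ht] at h5
  have h6 := (L.hv_sub h4 hr).1 rfl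
  refine Ld.te_inj hN' ?_ hz h6
  change (z ^ L.p ^ n) ^ L.p ^ N' = z ^ L.p ^ n
  rw [← pow_mul, mul_comm, pow_mul, show z ^ L.p ^ N' = z from hz]

omit [CharZero K] [IsAlgClosure K Ω] in
private theorem tcr_frob {M : IntermediateField K Ω} {φ : Ω ≃ₐ[K] Ω} {q : ℕ}
    (h : Frob L.toLf M φ q) {z : Ω} {t : L.κ} (hz : L.rs.Hv z t) (i : ℕ) :
    L.rs.Hv ((φ ^ i) z) (t ^ q ^ i) := by
  induction i with
  | zero =>
    rw [pow_zero, pow_zero, pow_one]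
    exact hz
  | succ i ih =>
    rw [pow_succ', AlgEquiv.mul_apply]
    have h1 : L.nm (φ ((φ ^ i) z)) ≤ 1 := by
      rw [L.act]
      exact L.hv_int ih
    obtain ⟨r', hr'⟩ := L.hv_of h1
    have h2 := (L.hv_sub hr' (ih.pow q)).2 (h.frob _ (L.hv_int ih))
    rw [h2, ← pow_mul, ← pow_succ] at hr'
    exact hr'

omit [CharZero K] [IsAlgClosure K Ω] in
private theorem tcr_sum {κ' : Type} (S : Finset κ') {g : κ' → Ω} {r : κ' → L.κ}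
    (h : ∀ i ∈ S, L.rs.Hv (g i) (r i)) : L.rs.Hv (∑ i ∈ S, g i) (∑ i ∈ S, r i) := by
  classical
  induction S using Finset.induction_on with
  | empty =>
    rw [Finset.sum_empty, Finset.sum_empty]
    exact Rs.Hv.zero
  | insert a S ha ih =>
    rw [Finset.sum_insert ha, Finset.sum_insert ha]
    exact (h a (Finset.mem_insert_self _ _)).add (ih fun i hi => h i (Finset.mem_insert_of_mem hi))

/-- The trace of `c` has the residue `∑ c ^ (q ^ i)`. -/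
theorem nm_hv {r n t : ℕ} (hr : L.Rf ⊥ r) (hn : n ≠ 0) (ht : t ≠ 0) {z : Ω}
    (hz : z ∈ L.Ur ⊥ (r * n * t)) {c : L.κ} (hc : L.rs.Hv z c) :
    L.rs.Hv (Nm (L.Ur ⊥ (r * n)) (L.Ur ⊥ (r * n * t)) z)
      (∑ i ∈ Finset.range t, c ^ L.p ^ (r * n * i)) := by
  have hR := Ld.rf_ur (K := K) hr hn
  have hfd : FiniteDimensional K (L.Ur ⊥ (r * n)) := Ld.ur_fin ⊥ _ hR.ne
  obtain ⟨φ, q, hφ⟩ := exists_frob L.toLf (L.Ur ⊥ (r * n))
  rw [Ld.rf_frob hR hφ] at hφ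
  have hU : L.Ur (L.Ur ⊥ (r * n)) (r * n * t) = L.Ur ⊥ (r * n * t) :=
    Ld.ur_ur ⊥ (dvd_mul_right _ _)
  have h1 := Ld.ur_nm hφ hR.ne ht (A := Ω) (P := z) (by
    rw [hU]
    exact fx_mem.2 hz)
  rw [hU] at h1
  rw [h1]
  refine tcr_sum _ fun i _ => ?_
  have h2 := tcr_frob hφ hc i
  rw [← pow_mul] at h2
  exact h2

/-- **The trace relation.** -/
theorem tc_rs [L.Unr] (hψ : ∀ i, Pj f L (ψ i)) (hc : Cvr f L ψ) {r n t : ℕ} (hr : L.Rf ⊥ r)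
    (hn : n ≠ 0) (ht : t ≠ 0) {P P₁ P₂ : (Xf f).pt Ω} {x x₁ x₂ : Fin N → Ω} (hP : Co P x)
    (hP₁ : Co P₁ x₁) (hP₂ : Co P₂ x₂) (hx : Iv L (L.Ur ⊥ (r * n)) x)
    (hx₁ : Iv L (L.Ur ⊥ (r * n * t)) x₁) (hx₂ : Iv L (L.Ur ⊥ (r * n)) x₂)
    (h1 : ∃ i, L.nm (x i) = 1) {u : Fin N → L.κ} (hu : ∀ j, u j ^ L.p ^ (r * n) = u j) {c : L.κ}
    (hc' : c ^ L.p ^ (r * n * t) = c) (h1' : ∀ j, L.rs.Hv ((x₁ j - x j) / L.p) (c * u j))
    (h2' : ∀ j, L.rs.Hv ((x₂ j - x j) / L.p)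
      ((∑ i ∈ Finset.range t, c ^ L.p ^ (r * n * i)) * u j)) :
    rtr (Xf f) ⊥ (L.Ur ⊥ (r * n * t)) (Finsupp.single P₁ 1 - Finsupp.single P 1) -
      rtr (Xf f) ⊥ (L.Ur ⊥ (r * n)) (Finsupp.single P₂ 1 - Finsupp.single P 1) ∈
        Dl f L 2 ⊥ ⊔ (Xf f).ratEq K Ω := by
  have hR := Ld.rf_ur (K := K) hr hn
  have hrn : r * n ≠ 0 := hR.ne
  have hrnt : r * n * t ≠ 0 := mul_ne_zero hrn ht
  have hfd : FiniteDimensional K (L.Ur ⊥ (r * n)) := Ld.ur_fin ⊥ _ hrn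
  have hfd' : FiniteDimensional K (L.Ur ⊥ (r * n * t)) := Ld.ur_fin ⊥ _ hrnt
  have hp0 := L.p_pos
  have hpne : (L.p : Ω) ≠ 0 := L.ne_zero hp0
  have hle : L.Ur ⊥ (r * n) ≤ L.Ur ⊥ (r * n * t) := Ld.ur_dvd ⊥ (dvd_mul_right _ _)
  obtain ⟨i, hi⟩ := hc x (fun j => (hx j).2) h1 fun i => by
    rw [co_zero hP i, L.zero]
    exact zero_lt_one
  -- the lifts
  have hlu := fun j => tcr_lift (K := K) (hu j)
  choose v hv hv' using hlu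
  obtain ⟨z, hz, hz'⟩ := tcr_lift (K := K) hc'
  have hvM : ∀ j, v j ∈ L.Ur ⊥ (r * n) := fun j => Ld.te_ur (hv j)
  have hzM : z ∈ L.Ur ⊥ (r * n * t) := Ld.te_ur hz
  have hv1 : ∀ j, L.nm (v j) ≤ 1 := fun j => L.hv_int (hv' j)
  have hz1 : L.nm z ≤ 1 := L.hv_int hz'
  have hNz := nm_hv (K := K) hr hn ht hzM hz'
  have hNM : Nm (L.Ur ⊥ (r * n)) (L.Ur ⊥ (r * n * t)) z ∈ L.Ur ⊥ (r * n) :=
    fx_mem.1 (nm_fx hle (fx_mem.2 hzM))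
  have key : ∀ {n' : ℕ} (_ : n' ≠ 0) {y : Ω} (_ : y ∈ L.Ur ⊥ n') {y' a : Ω} {s : L.κ}
      (_ : y' ∈ L.Ur ⊥ n') (_ : a ∈ L.Ur ⊥ n'), L.rs.Hv ((y' - y) / L.p) s → L.rs.Hv a s →
      L.nm (y' - y) < 1 ∧ L.nm (y' - y - L.p * a) ≤ L.nm (L.p : Ω) ^ 2 := by
    intro n' hn' y hy y' a s hy' ha h h'
    have e1 : y' - y = L.p * ((y' - y) / L.p) := by field_simp
    have h3 : L.nm ((y' - y) / L.p - a) < L.nm (L.p : Ω) ^ 0 := by
      rw [pow_zero]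
      exact (L.hv_sub h h').1 rfl
    have h4 := Ld.ur_lt hn' (sub_mem (div_mem (sub_mem hy' hy)
      (IntermediateField.natCast_mem _ L.p)) ha) h3
    rw [zero_add, pow_one] at h4
    constructor
    · rw [e1, L.mul]
      exact mul_lt_one_of_nonneg_of_lt_one_left hp0.le L.lt (L.hv_int h)
    · have e2 : y' - y - L.p * a = L.p * ((y' - y) / L.p - a) := by
        rw [mul_sub, ← e1]
      rw [e2, L.mul, sq]
      exact mul_le_mul_of_nonneg_left h4 hp0.le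
  have k1 := fun j => key hrnt (hle (hx j).1) (hx₁ j).1
    (mul_mem hzM (hle (hvM j))) (h1' j) (hz'.mul (hv' j))
  have k2 := fun j => key hrn (hx j).1 (hx₂ j).1 (mul_mem hNM (hvM j)) (h2' j)
    (hNz.mul (hv' j))
  have hlin : ∀ (y y' : Fin N → Ω) (a : Ω) (_ : ∀ j, L.nm (y' j - y j - L.p * (a * v j)) ≤
      L.nm (L.p : Ω) ^ 2) (s : Fin (d + 1)), L.nm ((ψ i).uv y' s -
        (L.p * a * (ψ i).uv v s + (ψ i).uv y s)) ≤ L.nm (L.p : Ω) ^ 2 := by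
    intro y y' a hh s
    have e1 : L.p * a * (ψ i).uv v s + (ψ i).uv y s =
        (ψ i).uv (fun j => L.p * a * v j + y j) s := by
      change L.p * a * lv ((ψ i).u s) v + lv ((ψ i).u s) y = lv ((ψ i).u s) _
      unfold lv
      rw [Finset.mul_sum, ← Finset.sum_add_distrib]
      exact Finset.sum_congr rfl fun j _ => by ring
    rw [e1]
    refine lv_close (L := L) ((hψ i).iu s) (pow_nonneg hp0.le 2) fun j => ?_
    have e2 : y' j - (L.p * a * v j + y j) = y' j - y j - L.p * (a * v j) := by ring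
    rw [e2]
    exact hh j
  have hfin := tc_norm (hψ i) (M := L.Ur ⊥ (r * n)) (M' := L.Ur ⊥ (r * n * t))
    ⟨r * n, hrn, le_rfl⟩ ⟨r * n * t, hrnt, le_rfl⟩ hle hx hx₁ hx₂ hi hP hP₁ hP₂
    (fun j => (k1 j).1) (fun j => (k2 j).1) hzM hz1 (ξ := (ψ i).uv v)
    (fun s => ⟨lv_mem _ hvM, ((hψ i).uv_le hv1).1 s⟩)
    (hlin x x₁ z fun j => (k1 j).2) (hlin x x₂ _ fun j => (k2 j).2)
  rw [rtr_eq bot_le, rtr_eq bot_le]
  exact hfin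

/-- **The trace relation.** `M = Ur ⊥ (r n)`, `M' = Ur ⊥ (r n t)`; `x₁` and `x₂` are the point `x` displaced by `p c u` and by `p (tr c) u`, `c` in the residue field of `M'`, `u` over the residue field of `M`.
Proof: `la` for `M`, `l = 1`, `u = 0`, `s = 2` on the sheet of the chart at `x` above the line `uv x + z uv ũ`, with the polynomials `∏ (z - p σ(c̃))` and `z ^ (t - 1) (z - p tr c̃)`. -/
theorem tc [L.Unr] (hf : Hm f) (hψ : ∀ i, Pj f L (ψ i)) (hv : Cvr f L ψ) (h2 : 2 < L.p)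
    {r n t : ℕ}
    (hr : L.Rf ⊥ r) (hn : n ≠ 0) (ht : t ≠ 0) {P P₁ P₂ : (Xf f).pt Ω}
    {x x₁ x₂ : Fin N → Ω} (hP : Co P x) (hP₁ : Co P₁ x₁) (hP₂ : Co P₂ x₂)
    (hx : Iv L (L.Ur ⊥ (r * n)) x) (hx₁ : Iv L (L.Ur ⊥ (r * n * t)) x₁)
    (hx₂ : Iv L (L.Ur ⊥ (r * n)) x₂) (h1 : ∃ i, L.nm (x i) = 1) {u : Fin N → L.κ}
    (hu : ∀ j, u j ^ L.p ^ (r * n) = u j) {c : L.κ} (hc : c ^ L.p ^ (r * n * t) = c)
    (h₁ : ∀ j, L.rs.Hv ((x₁ j - x j) / (L.p : Ω)) (c * u j))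
    (h₂ : ∀ j, L.rs.Hv ((x₂ j - x j) / (L.p : Ω))
      ((∑ i ∈ Finset.range t, c ^ L.p ^ (r * n * i)) * u j)) :
    rtr (Xf f) ⊥ (L.Ur ⊥ (r * n * t)) (Finsupp.single P₁ 1 - Finsupp.single P 1) -
      rtr (Xf f) ⊥ (L.Ur ⊥ (r * n)) (Finsupp.single P₂ 1 - Finsupp.single P 1) ∈
        Dl f L 2 ⊥ ⊔ (Xf f).ratEq K Ω := by
  have _ := hf
  have _ := h2
  exact tc_rs hψ hv hr hn ht hP hP₁ hP₂ hx hx₁ hx₂ h1 hu hc h₁ h₂

end GX
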