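import Pool.Agent.Lib.MP_f80667_ag.Gy.A
import Pool.Agent.Lib.MP_f80667_ag.Gm.GsJt

/-! The fields with p ^ n elements and the fields Ur ⊥ n. -/

open ZC BE PE CV IntermediateField

namespace GX

variable {F : Type} [Field F] {N d m : ℕ} {ι : Type} {f : ι → MvPolynomial (Fin N) F}
  {K Ω : Type} [Field K] [CharZero K] [Field Ω] [Algebra K Ω] [Algebra F K] [Algebra F Ω]
  [IsScalarTower F K Ω] [IsAlgClosure K Ω] {L : Ld K Ω} {ψ : Fin m → Prj F N d}
  {f₀ : ι → MvPolynomial (Fin N) (L.V.comap (algebraMap F Ω))}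
  {ψ₀ : Fin m → Prj (L.V.comap (algebraMap F Ω)) N d} {r : ℕ}

/-- The fields `Ur ⊥ n`. Proof: `Ld.rf_ur` (`M = ⊥`), `sup_le` as in `gxfl_one` of `Gx/TsFl.lean`. -/
theorem rf_n (hr : L.Rf ⊥ r) {n : ℕ} (hn : n ≠ 0) (h : r ∣ n) :
    L.Rf (L.Ur ⊥ n) n ∧ Um L (L.Ur ⊥ n) ∧ GM.Mu L (L.Ur ⊥ n) n 1 = L.Ur ⊥ n := by
  obtain ⟨e, rfl⟩ := h
  have he : e ≠ 0 := right_ne_zero_of_mul hn
  refine ⟨Ld.rf_ur hr he, ⟨r * e, hn, le_rfl⟩, ?_⟩
  change L.Ur (L.Ur ⊥ (r * e)) (r * e * 1) = L.Ur ⊥ (r * e)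
  rw [mul_one]
  exact Ld.ur_bot le_rfl

/-- The elements of the field with `p ^ n` elements are in `kI L n` (`s = 1`). -/
theorem kf_kI {n : ℕ} {a : L.κ} (ha : a ^ L.p ^ n = a) : a ∈ GM.kI L n := by
  refine (GM.mem_kJ L n (GM.Jc L.p L.pp)).2 ⟨1, (GM.Jc L.p L.pp).one_mem, ?_⟩
  rw [mul_one]
  exact ha

/-- Lifts. Proof: `GM.kJ_te` for `J = ⊥` (only `s = 1`), or the Teichmüller representatives. -/
theorem kf_te {n : ℕ} (hn : n ≠ 0) {a : L.κ} (ha : a ^ L.p ^ n = a) :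
    ∃ z ∈ L.Te n, L.rs.Hv z a := by
  have h0 : 0 ∉ (⊥ : Submonoid ℕ) := by
    intro h
    rw [Submonoid.mem_bot] at h
    exact absurd h (by omega)
  have hm : a ∈ GM.kJ L n (⊥ : Submonoid ℕ) := by
    refine (GM.mem_kJ L n ⊥).2 ⟨1, Submonoid.one_mem _, ?_⟩
    rw [mul_one]
    exact ha
  obtain ⟨s, hs, hx⟩ := GM.kJ_te hn h0 (fun _ : Unit => (⟨a, hm⟩ : GM.kJ L n ⊥))
  rw [Submonoid.mem_bot] at hs
  subst hs
  obtain ⟨x, hx1, hx2⟩ := hx ()
  rw [mul_one] at hx1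
  exact ⟨x, hx1, hx2⟩

/-- Residues. Proof: `Rf.res`. -/
theorem kf_res (hr : L.Rf ⊥ r) {n : ℕ} (hn : n ≠ 0) (h : r ∣ n) {z : Ω}
    (hz : z ∈ L.Ur ⊥ n) {a : L.κ} (ha : L.rs.Hv z a) : a ^ L.p ^ n = a := by
  have h1 := (rf_n hr hn h).1
  obtain ⟨w, hw, hzw⟩ := h1.res z hz (L.hv_int ha)
  obtain ⟨b, hb⟩ := L.hv_of (Ld.te_int hn hw)
  have h2 : a = b := (L.hv_sub ha hb).2 hzw
  rw [← h2] at hb
  have h3 := hb.pow (L.p ^ n)
  rw [show w ^ L.p ^ n = w from hw] at h3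
  exact h3.uniq hb

private theorem va_ev {κ : Type} [Field κ] {k : Subfield κ} (P : MvPolynomial (Fin N) k)
    (y : Fin N → k) : MvPolynomial.eval (fun i => (y i : κ))
      (MvPolynomial.map (algebraMap k κ) P) = ((MvPolynomial.eval y P : k) : κ) := by
  rw [MvPolynomial.eval_map]
  have h := MvPolynomial.eval₂_comp_left (algebraMap k κ) (RingHom.id k) y P
  rw [RingHom.comp_id] at h
  exact h.symm

/-- Tangent vectors over a subfield. -/
theorem tg_coe {κ : Type} [Field κ] {k : Subfield κ} {f' : ι → MvPolynomial (Fin N) k}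
    {y u : Fin N → k} : Tg (fun i => MvPolynomial.map (algebraMap k κ) (f' i))
      (fun i => (y i : κ)) (fun i => (u i : κ)) ↔ Tg f' y u := by
  have h1 : ((fun i => (y i : κ)) ≠ 0) ↔ y ≠ 0 := by
    refine not_congr ⟨fun h => funext fun i => Subtype.ext (congrFun h i), fun h => ?_⟩
    rw [h]
    rfl
  have h2 : ∀ i, MvPolynomial.eval (fun i => (y i : κ))
      (MvPolynomial.map (algebraMap k κ) (f' i)) = 0 ↔ MvPolynomial.eval y (f' i) = 0 := by
    intro i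
    rw [va_ev]
    exact ⟨fun h => Subtype.ext h, fun h => by rw [h]; rfl⟩
  have h3 : ∀ i, ∑ j, MvPolynomial.eval (fun i => (y i : κ))
      (MvPolynomial.pderiv j (MvPolynomial.map (algebraMap k κ) (f' i))) * (u j : κ) = 0 ↔
      ∑ j, MvPolynomial.eval y (MvPolynomial.pderiv j (f' i)) * u j = 0 := by
    intro i
    have e : ∑ j, MvPolynomial.eval (fun i => (y i : κ))
        (MvPolynomial.pderiv j (MvPolynomial.map (algebraMap k κ) (f' i))) * (u j : κ) =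
        ((∑ j, MvPolynomial.eval y (MvPolynomial.pderiv j (f' i)) * u j : k) : κ) := by
      rw [← Subfield.subtype_apply, map_sum]
      refine Finset.sum_congr rfl fun j _ => ?_
      rw [MvPolynomial.pderiv_map, va_ev]
      rfl
    rw [e]
    exact ⟨fun h => Subtype.ext h, fun h => by rw [h]; rfl⟩
  constructor
  · rintro ⟨⟨ha, hb⟩, hc⟩
    exact ⟨⟨h1.1 ha, fun i => (h2 i).1 (hb i)⟩, fun i => (h3 i).1 (hc i)⟩
  · rintro ⟨⟨ha, hb⟩, hc⟩
    exact ⟨⟨h1.2 ha, fun i => (h2 i).2 (hb i)⟩, fun i => (h3 i).2 (hc i)⟩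

/-- The residues of the coefficients of `f`. -/
private theorem va_f {g : MvPolynomial (Fin N) F}
    {g₀ : MvPolynomial (Fin N) (L.V.comap (algebraMap F Ω))}
    (hm : MvPolynomial.map (L.V.comap (algebraMap F Ω)).subtype g₀ = g) {k : Subfield L.κ}
    {g' : MvPolynomial (Fin N) k} (hr : GM.Rdp L k g g') :
    MvPolynomial.map (algebraMap k L.κ) g' = MvPolynomial.map (rdO F L.V) g₀ := by
  subst hm
  ext e
  have h1 := hr e
  rw [MvPolynomial.coeff_map] at h1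
  rw [MvPolynomial.coeff_map, MvPolynomial.coeff_map]
  exact h1.uniq (rdO_hv (L := L) (g₀.coeff e))

/-- The residues of the coefficients of a projection. -/
private theorem va_p {ψ : Prj F N d} {ψ₀ : Prj (L.V.comap (algebraMap F Ω)) N d}
    (hm : ψ₀.map (L.V.comap (algebraMap F Ω)).subtype = ψ) {k : Subfield L.κ} {ψ' : Prj k N d}
    (hr : Rdj L k (ψ.map (algebraMap F K)) ψ') :
    ψ'.map (algebraMap k L.κ) = ψ₀.map (rdO F L.V) := by
  subst hm
  have key : ∀ (x : L.V.comap (algebraMap F Ω)) (r : k),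
      L.rs.Hv (algebraMap K Ω (algebraMap F K (x : F))) (r : L.κ) →
        algebraMap k L.κ r = rdO F L.V x := by
    intro x r h
    rw [← IsScalarTower.algebraMap_apply] at h
    exact h.uniq (rdO_hv x)
  have h1 : (ψ'.map (algebraMap k L.κ)).u = (ψ₀.map (rdO F L.V)).u := by
    funext r j
    exact key _ _ (hr.u r j)
  have h2 : (ψ'.map (algebraMap k L.κ)).y = (ψ₀.map (rdO F L.V)).y := by
    funext j
    exact key _ _ (hr.y j)
  have h3 : (ψ'.map (algebraMap k L.κ)).G = (ψ₀.map (rdO F L.V)).G := by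
    refine Polynomial.ext fun j => MvPolynomial.ext _ _ fun e => ?_
    have h := hr.G j e
    simp only [Prj.map, Polynomial.coeff_map, MvPolynomial.coeff_map] at h ⊢
    exact key _ _ h
  have h4 : (ψ'.map (algebraMap k L.κ)).D = (ψ₀.map (rdO F L.V)).D := by
    refine MvPolynomial.ext _ _ fun e => ?_
    have h := hr.D e
    simp only [Prj.map, MvPolynomial.coeff_map] at h ⊢
    exact key _ _ h
  have h5 : (ψ'.map (algebraMap k L.κ)).A = (ψ₀.map (rdO F L.V)).A := by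
    funext i
    refine Polynomial.ext fun j => MvPolynomial.ext _ _ fun e => ?_
    have h := hr.A i j e
    simp only [Prj.map, Polynomial.coeff_map, MvPolynomial.coeff_map] at h ⊢
    exact key _ _ h
  exact (Prj.mk.injEq _ _ _ _ _ _ _ _ _ _).mpr ⟨h1, h2, h3, h4, h5⟩

/-- The reductions over `kI L n`. Proof: `Dat.rdx` (the residues of the elements of `F` are in the field with `p ^ r` elements: `kf_res` for `n = r`, `Ur ⊥ r` contains `⊥`); the images over `L.κ` as in `al2_f`, `al2_p` of `Gx/Al2.lean` (or `Dat.rdx_eq`). -/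
theorem Hr.rdx (h : Hr f L ψ f₀ ψ₀ r) {n : ℕ} (hn : n ≠ 0) (hrn : r ∣ n) :
    ∃ (f' : ι → MvPolynomial (Fin N) (GM.kI L n)) (ψ' : Fin m → Prj (GM.kI L n) N d),
      Rdx f L (GM.kI L n) (fun i => (ψ i).map (algebraMap F K)) f' ψ' ∧
      (fun i => MvPolynomial.map (algebraMap (GM.kI L n) L.κ) (f' i)) = f₂ f₀ ∧
      (fun i => (ψ' i).map (algebraMap (GM.kI L n) L.κ)) = ψ₂ ψ₀ := by
  obtain ⟨f', ψ', hx⟩ := h.dat.rdx (k := GM.kI L n) (by
    intro x _ s hs
    refine kf_kI (kf_res h.rf hn hrn (z := algebraMap F Ω x) ?_ hs)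
    rw [IsScalarTower.algebraMap_apply F K Ω]
    exact (L.Ur ⊥ n).algebraMap_mem _)
  refine ⟨f', ψ', hx, ?_, ?_⟩
  · funext i
    exact va_f (h.dat.mf i) (hx.rf i)
  · funext i
    exact va_p (h.dat.mp i) (hx.rj i)

end GX
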