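import Pool.Agent.Lib.MP_f80667_ag.Gy.Va
import Pool.Agent.Lib.MP_f80667_ag.Gx.TsEx
import Pool.Agent.Lib.MP_f80667_ag.Gx.TsV

/-! Values at tangent vectors over the field with p ^ n elements. -/

open ZC BE PE CV IntermediateField

namespace GX

variable {F : Type} [Field F] {N d m : ℕ} {ι : Type} {f : ι → MvPolynomial (Fin N) F}
  {K Ω : Type} [Field K] [CharZero K] [Field Ω] [Algebra K Ω] [Algebra F K] [Algebra F Ω]
  [IsScalarTower F K Ω] [IsAlgClosure K Ω] {L : Ld K Ω} {ψ : Fin m → Prj F N d}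
  {f₀ : ι → MvPolynomial (Fin N) (L.V.comap (algebraMap F Ω))}
  {ψ₀ : Fin m → Prj (L.V.comap (algebraMap F Ω)) N d} {r : ℕ}

omit [CharZero K] [IsAlgClosure K Ω] in
/-- A vector congruent to a vector with residue `y` has residue `y`. -/
private theorem vb_rdv {k : Subfield L.κ} {n : ℕ} {x x' : Fin n → Ω} {y : Fin n → k}
    (hx : GM.Rdv L k x y) (h : ∀ i, L.nm (x' i - x i) < 1) : GM.Rdv L k x' y := by
  intro i
  have h1 := (L.hv_zero.2 (h i)).add (hx i)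
  rwa [sub_add_cancel, zero_add] at h1

omit [CharZero K] [IsAlgClosure K Ω] [Algebra F K] [Algebra F Ω] [IsScalarTower F K Ω] in
/-- Values of integral linear forms. -/
private theorem vb_iv {a : Fin N → K} (ha : ∀ j, L.nm (algebraMap K Ω (a j)) ≤ 1)
    {M : IntermediateField K Ω} {x : Fin N → Ω} (hx : Iv L M x) :
    lv a x ∈ M ∧ L.nm (lv a x) ≤ 1 := by
  constructor
  · exact sum_mem fun j _ => mul_mem (M.algebraMap_mem _) (hx j).1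
  · refine L.sum_le _ _ zero_le_one fun j _ => ?_
    rw [L.mul]
    exact mul_le_one₀ (ha j) (L.nonneg _) (hx j).2

/-- Lifts of vectors. -/
private theorem vb_te {n : ℕ} (hn : n ≠ 0) {y : Fin N → L.κ} (hy : Kfn L n y) :
    ∃ x : Fin N → Ω, Iv L (L.Ur ⊥ n) x ∧ ∀ i, L.rs.Hv (x i) (y i) := by
  choose g hg1 hg2 using fun i => kf_te (L := L) hn (hy i)
  exact ⟨g, fun i => ⟨Ld.te_ur (hg1 i), L.hv_int (hg2 i)⟩, hg2⟩

/-- Points over `Ur ⊥ n`. Proof: as `tv_ex` in `Gx/TsEx.lean` with `s = 1`: `kf_te` for the coordinates of `y`, a projection with `D ≠ 0` (`Hr.rdx`, `Rdx.cv`), `pt_near`. -/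
theorem vn_pt [L.Unr] (h : Hr f L ψ f₀ ψ₀ r) {n : ℕ} (hn : n ≠ 0) (hrn : r ∣ n)
    {y : Fin N → L.κ} (hy : Kfn L n y) (hz : Zp (f₂ f₀) y) :
    ∃ (x : Fin N → Ω) (P : (Xf f).pt Ω), Iv L (L.Ur ⊥ n) x ∧ Co P x ∧
      ∀ i, L.rs.Hv (x i) (y i) := by
  obtain ⟨f', ψ', hx, hf', -⟩ := h.rdx hn hrn
  obtain ⟨-, hU, -⟩ := rf_n h.rf hn hrn
  have hfd : FiniteDimensional K (L.Ur ⊥ n) := hU.fd
  obtain ⟨y', hy'⟩ : ∃ y' : Fin N → GM.kI L n, ∀ i, (y' i : L.κ) = y i :=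
    ⟨fun i => ⟨y i, kf_kI (hy i)⟩, fun _ => rfl⟩
  have hyy : (fun i => (y' i : L.κ)) = y := funext hy'
  have hz' : Zp f' y' := by
    have h1 : Tg (fun i => MvPolynomial.map (algebraMap (GM.kI L n) L.κ) (f' i))
        (fun i => (y' i : L.κ)) (fun i => ((0 : Fin N → GM.kI L n) i : L.κ)) := by
      rw [hf', hyy]
      refine ⟨hz, fun i => Finset.sum_eq_zero fun j _ => ?_⟩
      exact mul_zero _
    exact (tg_coe.1 h1).1
  obtain ⟨i, hi⟩ := hx.cv hz'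
  obtain ⟨x₀, hx0, hy0⟩ := vb_te hn hy
  have hy0' : GM.Rdv L (GM.kI L n) x₀ y' := fun i => by
    rw [hy' i]
    exact hy0 i
  obtain ⟨x, P, hxM, hP, -, hxy⟩ := pt_near (hx.pj i) (hx.rj i) (hx.ok i) hz' hi hx0 hy0'
    (c := ((ψ i).map (algebraMap F K)).uv x₀) (fun r => vb_iv ((hx.pj i).iu r) hx0)
    ((hx.rj i).uv hy0')
  exact ⟨x, P, hxM, hP, fun j => by
    rw [← hy' j]
    exact hxy j⟩

/-- Displaced points. Proof: as `tv_ex` in `Gx/TsEx.lean` (the second point): `pt_near` over `uv x + p uv u₀`, `lt_res`, `Prj.Ok.lt_eq`. -/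
theorem vn_dp [L.Unr] (h : Hr f L ψ f₀ ψ₀ r) {n : ℕ} (hn : n ≠ 0) (hrn : r ∣ n)
    {y u : Fin N → L.κ} (hy : Kfn L n y) (hu : Kfn L n u) (ht : Tg (f₂ f₀) y u)
    {x : Fin N → Ω} {P : (Xf f).pt Ω} (hx : Iv L (L.Ur ⊥ n) x) (hP : Co P x)
    (hxy : ∀ i, L.rs.Hv (x i) (y i)) :
    ∃ (x' : Fin N → Ω) (P' : (Xf f).pt Ω), Iv L (L.Ur ⊥ n) x' ∧ Co P' x' ∧
      ∀ i, L.rs.Hv ((x' i - x i) / (L.p : Ω)) (u i) := by
  have hp0 : 0 < L.nm (L.p : Ω) := L.p_pos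
  have hp1 : L.nm (L.p : Ω) < 1 := L.lt
  have hpn : (L.p : Ω) ≠ 0 := L.ne_zero hp0
  obtain ⟨f', ψ', hx', hf', -⟩ := h.rdx hn hrn
  obtain ⟨-, hU, -⟩ := rf_n h.rf hn hrn
  have hfd : FiniteDimensional K (L.Ur ⊥ n) := hU.fd
  obtain ⟨y', hy'⟩ : ∃ y' : Fin N → GM.kI L n, ∀ i, (y' i : L.κ) = y i :=
    ⟨fun i => ⟨y i, kf_kI (hy i)⟩, fun _ => rfl⟩
  obtain ⟨u', hu'⟩ : ∃ u' : Fin N → GM.kI L n, ∀ i, (u' i : L.κ) = u i :=
    ⟨fun i => ⟨u i, kf_kI (hu i)⟩, fun _ => rfl⟩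
  have hyy : (fun i => (y' i : L.κ)) = y := funext hy'
  have huu : (fun i => (u' i : L.κ)) = u := funext hu'
  have ht' : Tg f' y' u' := by
    rw [← tg_coe, hf', hyy, huu]
    exact ht
  obtain ⟨i, hi⟩ := hx'.cv ht'.1
  obtain ⟨u₀, hu0, hv0⟩ := vb_te hn hu
  have hv0' : GM.Rdv L (GM.kI L n) u₀ u' := fun i => by
    rw [hu' i]
    exact hv0 i
  have hxy' : GM.Rdv L (GM.kI L n) x y' := fun i => by
    rw [hy' i]
    exact hxy i
  obtain ⟨φ, hφ⟩ : ∃ φ : Prj K N d, φ = (ψ i).map (algebraMap F K) := ⟨_, rfl⟩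
  have hpj : Pj f L φ := hφ ▸ hx'.pj i
  have hrj : Rdj L (GM.kI L n) φ (ψ' i) := hφ ▸ hx'.rj i
  have hpM : (L.p : Ω) ∈ L.Ur ⊥ n := _root_.natCast_mem _ _
  have hc' : Iv L (L.Ur ⊥ n) (fun r => φ.uv x r + (L.p : Ω) * φ.uv u₀ r) := by
    intro r
    have h1 := vb_iv (hpj.iu r) hx
    have h2 := vb_iv (hpj.iu r) hu0
    refine ⟨add_mem h1.1 (mul_mem hpM h2.1), (L.add _ _).trans (max_le h1.2 ?_)⟩
    rw [L.mul]
    exact mul_le_one₀ hp1.le (L.nonneg _) h2.2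
  have hcy' : GM.Rdv L (GM.kI L n) (fun r => φ.uv x r + (L.p : Ω) * φ.uv u₀ r)
      ((ψ' i).uv y') := vb_rdv (hrj.uv hxy') fun r => by
    rw [add_sub_cancel_left, L.mul]
    exact mul_lt_one_of_nonneg_of_lt_one_left (L.nonneg _) hp1 (vb_iv (hpj.iu r) hu0).2
  obtain ⟨x', P', hxM', hP', hxu', hxy''⟩ := pt_near hpj hrj (hx'.ok i) ht'.1 hi hx hxy'
    hc' hcy'
  have hz : ∀ {z : Fin N → Ω} {Q : (Xf f).pt Ω}, Co Q z → ∀ e, MvPolynomial.aeval z (f e) = 0 := by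
    rintro z Q ⟨q, -, rfl⟩ e
    exact q.eq e
  have hnear : ∀ e, L.nm (x' e - x e) < 1 := fun e => L.hv_zero.1 (by
    have h1 := (hxy'' e).sub (hxy' e)
    rwa [sub_self] at h1)
  have hres := lt_res hpj hrj (hx'.ok i) ht'.1 hi (fun e => (hxM' e).2) (hz hP) (hz hP')
    hxy' hnear hp0 hp1 (ξ := (ψ' i).uv u') (fun r => by
      have h1 : (φ.uv x' r - φ.uv x r) / (L.p : Ω) = φ.uv u₀ r := by
        rw [hxu']
        field_simp
        ring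
      rw [h1]
      exact hrj.uv hv0' r)
  rw [(hx'.ok i).lt_eq ht' hi] at hres
  exact ⟨x', P', hxM', hP', fun j => by
    rw [← hu' j]
    exact hres j⟩

variable {B : Type} [AddCommGroup B] {lam : ((Xf f).pt Ω →₀ ℤ) →+ B}

/-- Proof: `vn_pt`, `vn_dp`. -/
theorem tn_vn [L.Unr] (h : Hr f L ψ f₀ ψ₀ r) {n : ℕ} (hn : n ≠ 0) (hrn : r ∣ n)
    {y u : Fin N → L.κ} (hy : Kfn L n y) (hu : Kfn L n u) (ht : Tg (f₂ f₀) y u) :
    Vn L lam n y u (Tn L lam n y u) := by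
  obtain ⟨x, P, hx, hP, hxy⟩ := vn_pt h hn hrn hy ht.1
  obtain ⟨x', P', hx', hP', hxu⟩ := vn_dp h hn hrn hy hu ht hx hP hxy
  have hex : ∃ b, Vn L lam n y u b := ⟨_, x, x', P, P', hx, hx', hP, hP', hxy, hxu, rfl⟩
  unfold Tn
  rw [dif_pos hex]
  exact hex.choose_spec

/-- The values are in `Vg`. Proof: `tn_vn`; `dl_of` over `Ur ⊥ n`, `dl_tr`; a coordinate of `y` is not `0`. -/
theorem tn_mem [L.Unr] (h : Hr f L ψ f₀ ψ₀ r) {n : ℕ} (hn : n ≠ 0) (hrn : r ∣ n)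
    {y u : Fin N → L.κ} (hy : Kfn L n y) (hu : Kfn L n u) (ht : Tg (f₂ f₀) y u) :
    Tn L lam n y u ∈ Vg f L lam := by
  obtain ⟨x, x', P, P', hx, hx', hP, hP', hxy, hxu, hb⟩ := tn_vn (lam := lam) h hn hrn hy hu ht
  obtain ⟨-, hU, -⟩ := rf_n h.rf hn hrn
  have hpn : (L.p : Ω) ≠ 0 := L.ne_zero L.p_pos
  have h1 : ∃ i, L.nm (x i) = 1 := by
    by_contra hcon
    push Not at hcon
    refine ht.1.1 (funext fun i => ?_)
    by_contra hi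
    exact hcon i ((L.hv_ne (hxy i)).1 hi)
  have h2 : ∀ i, L.nm (x' i - x i) ≤ L.nm (L.p : Ω) ^ 1 := by
    intro i
    have h3 := L.hv_int (hxu i)
    have h4 : x' i - x i = (L.p : Ω) * ((x' i - x i) / (L.p : Ω)) := by
      field_simp
    rw [h4, L.mul, pow_one]
    exact mul_le_of_le_one_right (L.nonneg _) h3
  rw [hb]
  exact ⟨_, dl_tr hU (dl_of hP hP' hx hx' h1 one_ne_zero h2), rfl⟩

end GX
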