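import Pool.Agent.Lib.MP_f80667_ag.Gy.Vc
import Pool.Agent.Lib.MP_f80667_ag.Gy.Tc

/-! Values: the trace relation. -/

open ZC BE PE CV IntermediateField

namespace GX

variable {F : Type} [Field F] {N d m : ℕ} {ι : Type} {f : ι → MvPolynomial (Fin N) F}
  {K Ω : Type} [Field K] [CharZero K] [Field Ω] [Algebra K Ω] [Algebra F K] [Algebra F Ω]
  [IsScalarTower F K Ω] [IsAlgClosure K Ω] {L : Ld K Ω} {ψ : Fin m → Prj F N d}
  {f₀ : ι → MvPolynomial (Fin N) (L.V.comap (algebraMap F Ω))}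
  {ψ₀ : Fin m → Prj (L.V.comap (algebraMap F Ω)) N d} {r : ℕ}

variable {B : Type} [AddCommGroup B] {lam : ((Xf f).pt Ω →₀ ℤ) →+ B}

private theorem ve_iter {κ : Type} [Field κ] {p n : ℕ} {a : κ} (ha : a ^ p ^ n = a) (t : ℕ) :
    a ^ p ^ (n * t) = a := by
  induction t with
  | zero => rw [mul_zero, pow_zero, pow_one]
  | succ t ih => rw [mul_add, mul_one, pow_add, pow_mul, ih, ha]

/-- **The trace relation.** Proof: `vn_pt`: `x`, `P` over `Ur ⊥ n`; `vn_dp` over `Ur ⊥ (n t)` for `τ u`: `x₁`; `vn_dp` over `Ur ⊥ n` for the relative trace (`rel_mem`): `x₂`; `tc` with `n / r` (`Dat.pj`, `Dat.cvr`); `tn_eq` twice; `hl.rat`, `hl.two`; `Ur ⊥ n ≤ Ur ⊥ (n t)`; `Hm f` from `Dat.hom`, `Dat.mf`. -/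
theorem tn_rel [L.Unr] (h : Hr f L ψ f₀ ψ₀ r) (hl : Lm f L lam) {n t : ℕ} (hn : n ≠ 0)
    (ht : t ≠ 0) (hrn : r ∣ n) {y u : Fin N → L.κ} (hy : Kfn L n y) (hu : Kfn L n u)
    (htg : Tg (f₂ f₀) y u) {τ : L.κ} (hτ : τ ^ L.p ^ (n * t) = τ) :
    Tn L lam (n * t) y (τ • u) =
      Tn L lam n y ((∑ j ∈ Finset.range t, τ ^ L.p ^ (n * j)) • u) := by
  have hpp : Fact L.p.Prime := ⟨L.pp⟩
  have hch : CharP L.κ L.p := L.char_κ
  have hf : Hm f := fun i => by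
    obtain ⟨e, he⟩ := h.dat.hom i
    refine ⟨e, ?_⟩
    rw [← h.dat.mf i]
    exact he.map _
  have hnt : n * t ≠ 0 := mul_ne_zero hn ht
  have hrnt : r ∣ n * t := hrn.mul_right t
  have hyt : Kfn L (n * t) y := fun i => ve_iter (hy i) t
  have hut : Kfn L (n * t) (τ • u) := fun i => by
    rw [Pi.smul_apply, smul_eq_mul, mul_pow, hτ, ve_iter (hu i) t]
  have hσ : (∑ j ∈ Finset.range t, τ ^ L.p ^ (n * j)) ^ L.p ^ n =
      ∑ j ∈ Finset.range t, τ ^ L.p ^ (n * j) := rel_mem hτ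
  have hus : Kfn L n ((∑ j ∈ Finset.range t, τ ^ L.p ^ (n * j)) • u) := fun i => by
    rw [Pi.smul_apply, smul_eq_mul, mul_pow, hσ, hu i]
  obtain ⟨x, P, hx, hP, hxy⟩ := vn_pt h hn hrn hy htg.1
  have hxt : Iv L (L.Ur ⊥ (n * t)) x := fun i =>
    ⟨Ld.ur_dvd ⊥ (dvd_mul_right _ _) (hx i).1, (hx i).2⟩
  have htg1 := tg_smul htg τ
  have htg2 := tg_smul htg (∑ j ∈ Finset.range t, τ ^ L.p ^ (n * j))
  obtain ⟨x₁, P₁, hx₁, hP₁, hu₁⟩ := vn_dp h hnt hrnt hyt hut htg1 hxt hP hxy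
  obtain ⟨x₂, P₂, hx₂, hP₂, hu₂⟩ := vn_dp h hn hrn hy hus htg2 hx hP hxy
  have e1 := tn_eq h hl hnt hrnt hyt hut htg1
    (b := lam (rtr (Xf f) ⊥ (L.Ur ⊥ (n * t)) (Finsupp.single P₁ 1 - Finsupp.single P 1)))
    ⟨x, x₁, P, P₁, hxt, hx₁, hP, hP₁, hxy, hu₁, rfl⟩
  have e2 := tn_eq h hl hn hrn hy hus htg2
    (b := lam (rtr (Xf f) ⊥ (L.Ur ⊥ n) (Finsupp.single P₂ 1 - Finsupp.single P 1)))
    ⟨x, x₂, P, P₂, hx, hx₂, hP, hP₂, hxy, hu₂, rfl⟩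
  rw [e1, e2]
  have h1 : ∃ i, L.nm (x i) = 1 := by
    by_contra hcon
    push Not at hcon
    refine htg.1.1 (funext fun i => ?_)
    by_contra hi
    exact hcon i ((L.hv_ne (hxy i)).1 hi)
  obtain ⟨e, rfl⟩ := hrn
  have he : e ≠ 0 := right_ne_zero_of_mul hn
  have key := tc hf (fun i => h.dat.pj (K := K) i) (h.dat.cvr (K := K)) h.h2 h.rf he ht hP hP₁ hP₂
    hx hx₁ hx₂ h1 (u := u) hu (c := τ) hτ (fun j => hu₁ j) (fun j => hu₂ j)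
  obtain ⟨a, ha, b, hb, hab⟩ := AddSubgroup.mem_sup.1 key
  have h2 : lam (a + b) = 0 := by
    rw [map_add, hl.two a ha, hl.rat b hb, add_zero]
  rw [hab, map_sub, sub_eq_zero] at h2
  exact h2

end GX
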