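import Pool.Agent.Lib.MP_f80667_ag.Gy.A
import Pool.Agent.Lib.MP_f80667_ag.Gy.St
import Pool.Agent.Lib.MP_f80667_ag.Gx.Wb
import Pool.Agent.Lib.MP_f80667_ag.Gx.Eh
import Pool.Agent.Lib.MP_f80667_ag.Gx.Ed

/-! The number of linearly independent compatible systems: tests. -/

open MvPolynomial

namespace GX

variable {κ : Type} [Field κ] {N d m : ℕ} {ι : Type} {f : ι → MvPolynomial (Fin N) κ}
  {ψ : Fin m → Prj κ N d} {s : Finset (Ix d m)} {g : ℕ}

private theorem za_ev {n : ℕ} (ψ : Prj κ N d)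
    (P : Fin n → ℕ → Fin (d + 1) → MvPolynomial (Fin (d + 1)) κ) (η : Fin n → κ)
    (x t : Fin N → κ) :
    ψ.ev (fun j r => ∑ l, C (η l) * P l j r) x t = ∑ l, η l * ψ.ev (P l) x t := by
  have h1 : ∀ l, η l * ψ.ev (P l) x t = ∑ j ∈ Finset.range ψ.G.natDegree, ∑ r,
      η l * (pe (ψ.uv x) (ψ.yv x) (ψ.bt j) * (eval (ψ.uv x) (P l j r) * ψ.uv t r)) := by
    intro l
    rw [Prj.ev, Finset.mul_sum]
    exact Finset.sum_congr rfl fun j _ => by rw [Finset.mul_sum, Finset.mul_sum]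
  rw [Finset.sum_congr rfl fun l _ => h1 l, Finset.sum_comm, Prj.ev]
  refine Finset.sum_congr rfl fun j _ => ?_
  rw [Finset.sum_comm, Finset.mul_sum]
  refine Finset.sum_congr rfl fun r _ => ?_
  rw [map_sum, Finset.sum_mul, Finset.mul_sum]
  refine Finset.sum_congr rfl fun l _ => ?_
  rw [map_mul, eval_C]
  ring

/-- Linear combinations of compatible systems. -/
theorem sy_sum {n : ℕ} {P : Fin n → Pv κ m d} (hP : ∀ l, Sy f ψ (P l)) (η : Fin n → κ) :
    Sy f ψ fun i j r => ∑ l, C (η l) * P l i j r where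
  hom i j r := by
    refine IsHomogeneous.sum _ _ _ fun l _ => ?_
    have h1 := (isHomogeneous_C (Fin (d + 1)) (η l)).mul ((hP l).hom i j r)
    rwa [zero_add] at h1
  zero i r := Finset.sum_eq_zero fun l _ => by rw [(hP l).zero, mul_zero]
  big i j r hj := Finset.sum_eq_zero fun l _ => by rw [(hP l).big i j r hj, mul_zero]
  triv i j r hD := Finset.sum_eq_zero fun l _ => by rw [(hP l).triv i j r hD, mul_zero]
  rad i x hx hD := by
    rw [za_ev (ψ i) (fun l => P l i) η x x]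
    exact Finset.sum_eq_zero fun l _ => by rw [(hP l).rad i x hx hD, mul_zero]
  ovl i i' x t ht hD hD' := by
    rw [za_ev (ψ i) (fun l => P l i) η x t, za_ev (ψ i') (fun l => P l i') η x t,
      Finset.mul_sum, Finset.mul_sum]
    refine Finset.sum_congr rfl fun l _ => ?_
    rw [mul_left_comm, (hP l).ovl i i' x t ht hD hD', mul_left_comm]

private theorem za_zero [Infinite κ] (hf : ∀ i, ∃ e, (f i).IsHomogeneous e)
    (h : ∀ i, (ψ i).Ok f) (hspl : ∀ i, ∀ g : Polynomial κ, g ≠ 0 →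
      g.natDegree ≤ (ψ i).G.natDegree → Multiset.card g.roots = g.natDegree)
    {P : Pv κ m d} (hP : Sy f ψ P) (hev : ∀ i x t, Tg f x t →
      eval ((ψ i).uv x) (ψ i).D ≠ 0 → (ψ i).ev (P i) x t = 0) :
    ∀ i j r, P i j r = 0 := by
  intro i j r
  by_cases hD0 : (ψ i).D = 0
  · exact hP.triv i j r hD0
  by_cases hj : (ψ i).G.natDegree ≤ j
  · exact hP.big i j r hj
  have key : ∀ c, eval c (ψ i).D ≠ 0 → eval c (P i j r) = 0 := by
    intro c hD
    obtain ⟨hcard, hnd⟩ := (h i).gc_card (hspl i) hD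
    obtain ⟨hmon, hdeg⟩ := (h i).gc_mon c
    have h1 := bt_inj hmon (hcard.trans hdeg.symm) hnd (fun k => eval c (P i k r)) ?_
      j (by rw [hdeg]; omega)
    · exact h1
    intro w hw
    have hG := (h i).mem_gc.1 hw
    obtain ⟨-, hu, hy⟩ := (h i).pt_zp hf hG hD
    obtain ⟨ht, hξ⟩ := (h i).lt_tg hf hG hD (Pi.single r 1)
    have hD' : eval ((ψ i).uv ((ψ i).pt c w)) (ψ i).D ≠ 0 := by rwa [hu]
    have h2 := hev i _ _ ht hD'
    rw [Prj.ev, hu, hy, hξ] at h2
    rw [hdeg, ← h2]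
    refine Finset.sum_congr rfl fun k _ => ?_
    have h3 : ∑ r', eval c (P i k r') * (Pi.single r (1 : κ) : Fin (d + 1) → κ) r' =
        eval c (P i k r) := by
      rw [Finset.sum_eq_single r]
      · rw [Pi.single_eq_same, mul_one]
      · intro r' _ hne
        rw [Pi.single_eq_of_ne hne, mul_zero]
      · intro hr
        exact absurd (Finset.mem_univ r) hr
    rw [h3, bt_pe]
    congr 1
    refine Finset.sum_congr rfl fun l _ => ?_
    rw [Prj.gc, Polynomial.coeff_map]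
    rfl
  have h4 : (ψ i).D * P i j r = 0 := by
    refine MvPolynomial.funext fun c => ?_
    rw [map_mul, map_zero]
    by_cases hD : eval c (ψ i).D = 0
    · rw [hD, zero_mul]
    · rw [key c hD, mul_zero]
  exact (mul_eq_zero.1 h4).resolve_left hD0

/-- Proof: `Sy.frm` for the `P l`: forms; `hN`: `η`; the system `∑ η_l P_l` (`sy_sum`) has `ev = 0` at all tangent vectors with `D_i ≠ 0` (`Prj.ev_add`, `Prj.ev_smul` or the definition: `ev` is linear in `P`); then all its polynomials are `0` as in the proof of `nf_of` in `Gx/Eh.lean`. -/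
theorem dmn_of [Infinite κ] (hf : ∀ i, ∃ e, (f i).IsHomogeneous e) (h : ∀ i, (ψ i).Ok f)
    (hc : Cov f ψ) (hspl : ∀ i, ∀ g : Polynomial κ, g ≠ 0 →
      g.natDegree ≤ (ψ i).G.natDegree → Multiset.card g.roots = g.natDegree)
    (hN : DmF g f) : Dmn g f ψ := by
  intro P hP
  choose ℓ hℓ hev using fun l => (hP l).frm hf h hc
  obtain ⟨η, hη, h0⟩ := hN ℓ hℓ
  refine ⟨η, hη, za_zero hf h hspl (sy_sum hP η) fun i x t ht hD => ?_⟩
  rw [za_ev (ψ i) (fun l => P l i) η x t]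
  have h1 : ∀ l, η l * (ψ i).ev (P l i) x t = (ψ i).gy x * (η l * ℓ l x t) := fun l => by
    rw [hev l i x t ht hD, mul_left_comm]
  rw [Finset.sum_congr rfl fun l _ => h1 l, ← Finset.mul_sum, h0 x t ht, mul_zero]

/-- Proof: `Fv.sy` for the `ℓ l`: systems `P l`; `hN`: `η`; for a tangent vector: `Cov.exists_ne`: `D_i ≠ 0`; `0 = ev (∑ η_l P_l) = gy ∑ η_l ℓ_l`, `gy ≠ 0` (`pt_eq`, `gy_ne`). -/
theorem dmf_of [Infinite κ] (hf : ∀ i, ∃ e, (f i).IsHomogeneous e) (h : ∀ i, (ψ i).Ok f)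
    (hc : Cov f ψ) {p : ℕ} (hp : p.Prime) [CharP κ p] (hpf : ∀ x : κ, ∃ y, y ^ p = x)
    (hN : Dmn g f ψ) : Dmf g f ψ := by
  intro ℓ hℓ
  choose P hP hev using fun l => Fv.sy hf h hp hpf (hℓ l)
  obtain ⟨η, hη, h0⟩ := hN P hP
  refine ⟨η, hη, fun x t ht => ?_⟩
  obtain ⟨i, hD⟩ := hc.exists_ne ht.1
  have h1 := za_ev (ψ i) (fun l => P l i) η x t
  have h2 : (fun j r => ∑ l, C (η l) * P l i j r) = fun _ _ => 0 := by
    funext j r
    exact h0 i j r
  have h3 : (ψ i).ev (fun _ _ => 0) x t = 0 := by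
    rw [Prj.ev]
    exact Finset.sum_eq_zero fun j _ => by
      simp only [map_zero, zero_mul, Finset.sum_const_zero, mul_zero]
  rw [h2, h3] at h1
  have h4 : ∀ l, η l * (ψ i).ev (P l i) x t = (ψ i).gy x * (η l * ℓ l x t) := fun l => by
    rw [hev l i x t ht hD, mul_left_comm]
  rw [Finset.sum_congr rfl fun l _ => h4 l, ← Finset.mul_sum] at h1
  exact (mul_eq_zero.1 h1.symm).resolve_left ((h i).gy_ne ((h i).pt_eq ht.1 hD).1 hD)

/-- **Coordinates.** Proof: let `Z` be the space of the vectors `a : s → κ` which are `0` under the rows of all valid tests. Any `g + 1` elements of `Z` are linearly dependent (`psy_sy`, `hN`, `psy_coeff`), so its dimension is at most `g`. The coordinate functions `Z → κ` span the dual space of `Z`; a basis of it among them (`exists_linearIndependent`)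
has at most `g` elements: `c`. -/
theorem exists_cx (hs : ∀ k, k ∈ s ↔ Idx ψ k) (hN : Dmn g f ψ) :
    ∃ c : Finset (Ix d m), c ⊆ s ∧ c.card ≤ g ∧ ∀ a : Ix d m → κ,
      (∀ τ, Val f ψ τ → ∑ k ∈ s, row ψ τ k * a k = 0) → (∀ k ∈ c, a k = 0) →
        ∀ k ∈ s, a k = 0 := by
  classical
  obtain ⟨Z, hZ⟩ : ∃ Z : Submodule κ (s → κ), ∀ v, v ∈ Z ↔ ∀ τ, Val f ψ τ →
      ∑ k : s, row ψ τ k * v k = 0 := by
    refine ⟨{ carrier := {v | ∀ τ, Val f ψ τ → ∑ k : s, row ψ τ k * v k = 0},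
              add_mem' := ?_, zero_mem' := ?_, smul_mem' := ?_ }, fun v => Iff.rfl⟩
    · intro v w hv hw τ hτ
      simp only [Pi.add_apply, mul_add, Finset.sum_add_distrib]
      rw [hv τ hτ, hw τ hτ, add_zero]
    · intro τ _
      simp only [Pi.zero_apply, mul_zero, Finset.sum_const_zero]
    · intro a v hv τ hτ
      simp only [Pi.smul_apply, smul_eq_mul, mul_left_comm _ a, ← Finset.mul_sum]
      rw [hv τ hτ, mul_zero]
  have hdim : Module.finrank κ Z ≤ g := by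
    by_contra hlt
    obtain ⟨v, hv⟩ := exists_linearIndependent_of_le_finrank (R := κ) (M := Z)
      (n := g + 1) (by omega)
    obtain ⟨a, ha⟩ : ∃ a : Fin (g + 1) → Ix d m → κ, a = fun l k => if h : k ∈ s then
      (v l : s → κ) ⟨k, h⟩ else 0 := ⟨_, rfl⟩
    have ha' : ∀ l (k : s), a l k = (v l : s → κ) k := fun l k => by
      rw [ha]
      exact dif_pos k.2
    obtain ⟨η, hη, h0⟩ := hN (fun l => Psy s (a l)) fun l => psy_sy hs fun τ hτ => by
      rw [← Finset.sum_coe_sort s fun k => row ψ τ k * a l k]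
      simp only [ha']
      exact (hZ _).1 (v l).2 τ hτ
    apply hη
    have h1 : ∑ l, η l • v l = 0 := by
      refine Subtype.ext (funext fun k => ?_)
      have h2 := congrArg (coeff k.1.2.2.2) (h0 k.1.1 k.1.2.1 k.1.2.2.1)
      rw [coeff_sum, coeff_zero] at h2
      simp only [coeff_C_mul, psy_coeff, if_pos k.2, ha'] at h2
      rw [AddSubmonoidClass.coe_finsetSum, Finset.sum_apply]
      exact h2
    funext l
    exact Fintype.linearIndependent_iff.1 hv η h1 l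
  obtain ⟨φ, hφ⟩ : ∃ φ : s → Module.Dual κ Z, ∀ k v, φ k v = (v : s → κ) k :=
    ⟨fun k => (LinearMap.proj k).comp Z.subtype, fun _ _ => rfl⟩
  obtain ⟨b, hbS, hb, hli⟩ := exists_linearIndependent κ (Set.range φ)
  have hbf : b.Finite := (Set.finite_range φ).subset hbS
  have hk : ∀ v : b, ∃ k, φ k = v := fun v => hbS v.2
  choose q hq using hk
  have _ := hbf.fintype
  refine ⟨Finset.univ.image fun v : b => ((q v : s) : Ix d m), ?_, ?_, ?_⟩
  · intro k hk'
    obtain ⟨v, -, rfl⟩ := Finset.mem_image.1 hk'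
    exact (q v).2
  · refine Finset.card_image_le.trans ?_
    rw [Finset.card_univ]
    have h1 := hli.fintype_card_le_finrank
    rw [Subspace.dual_finrank_eq] at h1
    exact h1.trans hdim
  · intro a ha hca k hk'
    obtain ⟨w, hw⟩ : ∃ w : Z, ∀ k : s, (w : s → κ) k = a k :=
      ⟨⟨fun k => a k, (hZ _).2 fun τ hτ => by
        rw [Finset.sum_coe_sort s fun k => row ψ τ k * a k]
        exact ha τ hτ⟩, fun _ => rfl⟩
    have h1 : ∀ θ ∈ Submodule.span κ b, θ w = 0 := by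
      intro θ hθ
      refine Submodule.span_induction (p := fun θ _ => θ w = 0) ?_ ?_ ?_ ?_ hθ
      · intro θ hθ
        have h2 := hq ⟨θ, hθ⟩
        have h3 : θ = φ (q ⟨θ, hθ⟩) := h2.symm
        rw [h3, hφ, hw]
        exact hca _ (Finset.mem_image.2 ⟨⟨θ, hθ⟩, Finset.mem_univ _, rfl⟩)
      · rfl
      · intro θ θ' _ _ h h'
        rw [LinearMap.add_apply, h, h', add_zero]
      · intro e θ _ h
        rw [LinearMap.smul_apply, h, smul_zero]
    rw [hb] at h1
    have h2 := h1 (φ ⟨k, hk'⟩) (Submodule.subset_span ⟨_, rfl⟩)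
    rw [hφ, hw] at h2
    exact h2

/-- **There are tests.** Proof: as `exists_tst` of `Gx/Wb.lean` for the index set `s \ c`: a vector `a` on `s \ c` orthogonal to all rows, extended by `0` to `c`, is `0` by `hc`. -/
theorem exists_tst' {c : Finset (Ix d m)} (hcs : c ⊆ s) (hc : ∀ a : Ix d m → κ,
      (∀ τ, Val f ψ τ → ∑ k ∈ s, row ψ τ k * a k = 0) → (∀ k ∈ c, a k = 0) →
        ∀ k ∈ s, a k = 0) [DecidableEq (Ix d m)] :
    ∃ τ : (s \ c : Finset (Ix d m)) → Tst κ N m, (∀ k, Val f ψ (τ k)) ∧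
      (Matrix.of fun k k' : (s \ c : Finset (Ix d m)) =>
        row ψ (τ k) (k' : Ix d m)).det ≠ 0 := by
  obtain ⟨s', hs'⟩ : ∃ s' : Finset (Ix d m), s' = s \ c := ⟨_, rfl⟩
  rw [← hs']
  have hmem : ∀ k, k ∈ s' ↔ k ∈ s ∧ k ∉ c := fun k => by rw [hs', Finset.mem_sdiff]
  obtain ⟨S, hS⟩ : ∃ S : Set (s' → κ), S = {v | ∃ τ, Val f ψ τ ∧ v = fun k : s' => row ψ τ k} :=
    ⟨_, rfl⟩
  have hspan : Submodule.span κ S = ⊤ := by
    by_contra hne
    obtain ⟨φ, hφ, hle⟩ := Submodule.exists_le_ker_of_lt_top _ (lt_top_iff_ne_top.2 hne)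
    obtain ⟨a, ha⟩ : ∃ a : Ix d m → κ, a = fun k => if h : k ∈ s' then
      φ (fun j => if (⟨k, h⟩ : s') = j then 1 else 0) else 0 := ⟨_, rfl⟩
    have hval : ∀ v : Ix d m → κ, φ (fun k : s' => v k) = ∑ k ∈ s', v k * a k := by
      intro v
      rw [LinearMap.pi_apply_eq_sum_univ, ← Finset.sum_coe_sort s' fun k => v k * a k]
      refine Finset.sum_congr rfl fun k _ => ?_
      rw [smul_eq_mul, ha]
      simp only [Subtype.coe_eta, Finset.coe_mem, dif_pos]
    have hac : ∀ k, k ∉ s' → a k = 0 := fun k hk => by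
      rw [ha]
      exact dif_neg hk
    have hval' : ∀ v : Ix d m → κ, ∑ k ∈ s, v k * a k = ∑ k ∈ s', v k * a k := by
      intro v
      refine (Finset.sum_subset (fun k hk => ((hmem k).1 hk).1) fun k _ hk => ?_).symm
      rw [hac k hk, mul_zero]
    have ha0 : ∀ k ∈ s, a k = 0 := by
      refine hc a (fun τ hτ => ?_) fun k hk => hac k fun h => ((hmem k).1 h).2 hk
      rw [hval', ← hval]
      exact hle (Submodule.subset_span (by
        rw [hS]
        exact ⟨τ, hτ, rfl⟩))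
    apply hφ
    refine LinearMap.ext fun v => ?_
    have h2 := hval fun k => if h : k ∈ s' then v ⟨k, h⟩ else 0
    simp only [Subtype.coe_eta, Finset.coe_mem, dif_pos] at h2
    rw [LinearMap.zero_apply]
    refine h2.trans (Finset.sum_eq_zero fun k hk => ?_)
    rw [ha0 k ((hmem k).1 hk).1, mul_zero]
  obtain ⟨b, hbS, hb, hli⟩ := exists_linearIndependent κ S
  rw [hspan] at hb
  have hB : ⊤ ≤ Submodule.span κ (Set.range ((↑) : b → (s' → κ))) := by
    rw [Subtype.range_coe, hb]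
  obtain ⟨B, hBv⟩ : ∃ B : Module.Basis b κ (s' → κ), ⇑B = ((↑) : b → (s' → κ)) :=
    ⟨Module.Basis.mk hli hB, Module.Basis.coe_mk hli hB⟩
  obtain ⟨e⟩ : Nonempty (s' ≃ b) := ⟨(Pi.basisFun κ s').indexEquiv B⟩
  have h1 : ∀ k : s', ∃ τ, Val f ψ τ ∧ ((e k : b) : s' → κ) = fun k' : s' => row ψ τ k' := by
    intro k
    have h2 := hbS (e k).2
    rw [hS] at h2
    exact h2
  choose τ hτ hτe using h1
  refine ⟨τ, hτ, ?_⟩
  have h3 : LinearIndependent κ
      (Matrix.of fun k k' : s' => row ψ (τ k) (k' : Ix d m)).row := by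
    have h4 : (Matrix.of fun k k' : s' => row ψ (τ k) (k' : Ix d m)).row =
        ((↑) : b → (s' → κ)) ∘ e := by
      funext k
      exact (hτe k).symm
    rw [h4]
    exact hli.comp e e.injective
  exact ((Matrix.isUnit_iff_isUnit_det _).1
    (Matrix.linearIndependent_rows_iff_isUnit.1 h3)).ne_zero

/-- **Tests bound the dimension.** Proof: the `g + 1` vectors of the coefficients with index in `c` (at most `g` indices) of the `P l` are linearly dependent: `η ≠ 0`; the coefficients of `∑ η_l P_l` (`sy_sum`) with index in `c` are `0`, those with index in `s \ c` are `0` by the determinant (`row_sum`, `Matrix.eq_zero_of_mulVec_eq_zero` as in `nf_det` of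
`Gx/Wb.lean`); the others by `hom`, `zero`, `big`, `triv`. -/
theorem dmn_det (hs : ∀ k, Idx ψ k → k ∈ s) {c : Finset (Ix d m)} (hcg : c.card ≤ g)
    [DecidableEq (Ix d m)] (τ : (s \ c : Finset (Ix d m)) → Tst κ N m)
    (hτ : ∀ k, Val f ψ (τ k))
    (hd : (Matrix.of fun k k' : (s \ c : Finset (Ix d m)) =>
      row ψ (τ k) (k' : Ix d m)).det ≠ 0) : Dmn g f ψ := by
  intro P hP
  obtain ⟨s', hs'⟩ : ∃ s' : Finset (Ix d m), s' = s \ c := ⟨_, rfl⟩
  have hmem : ∀ k, k ∈ s' ↔ k ∈ s ∧ k ∉ c := fun k => by rw [hs', Finset.mem_sdiff]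
  obtain ⟨v, hv⟩ : ∃ v : Fin (g + 1) → c → κ, v = fun l k =>
    coeff k.1.2.2.2 (P l k.1.1 k.1.2.1 k.1.2.2.1) := ⟨_, rfl⟩
  have hdep : ¬ LinearIndependent κ v := by
    intro hli
    have h1 := hli.fintype_card_le_finrank
    rw [Fintype.card_fin, Module.finrank_fintype_fun_eq_card, Fintype.card_coe] at h1
    omega
  obtain ⟨η, hη, l₀, hl₀⟩ := Fintype.not_linearIndependent_iff.1 hdep
  obtain ⟨Q, hQ⟩ : ∃ Q : Pv κ m d, Q = fun i j r => ∑ l, C (η l) * P l i j r := ⟨_, rfl⟩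
  have hQs : Sy f ψ Q := by
    rw [hQ]
    exact sy_sum hP η
  have hQc : ∀ k ∈ c, coeff k.2.2.2 (Q k.1 k.2.1 k.2.2.1) = 0 := by
    intro k hk
    have h1 := congrFun hη ⟨k, hk⟩
    rw [Finset.sum_apply, hv] at h1
    rw [hQ]
    change coeff k.2.2.2 (∑ l, C (η l) * P l k.1 k.2.1 k.2.2.1) = 0
    rw [coeff_sum]
    simp only [coeff_C_mul]
    exact h1
  refine ⟨η, fun h => hl₀ (congrFun h l₀), fun i j r => ?_⟩
  have hQi : ∑ l, C (η l) * P l i j r = Q i j r := by rw [hQ]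
  rw [hQi]
  have h1 : (Matrix.of fun k k' : (s \ c : Finset (Ix d m)) =>
      row ψ (τ k) (k' : Ix d m)).mulVec
      (fun k => coeff k.1.2.2.2 (Q k.1.1 k.1.2.1 k.1.2.2.1)) = 0 := by
    funext k
    have h2 := row_sum hs hQs.hom hQs.zero hQs.big hQs.triv (τ k)
    have h3 : (if (τ k).b = true then (ψ (τ k).i').gy (τ k).x *
        (ψ (τ k).i).ev (Q (τ k).i) (τ k).x (τ k).t -
        (ψ (τ k).i).gy (τ k).x * (ψ (τ k).i').ev (Q (τ k).i') (τ k).x (τ k).t
      else (ψ (τ k).i).ev (Q (τ k).i) (τ k).x (τ k).x) = 0 := by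
      by_cases hb : (τ k).b = true
      · rw [if_pos hb, sub_eq_zero]
        exact hQs.ovl _ _ _ _ ((hτ k).tg hb) (hτ k).D ((hτ k).D' hb)
      · rw [if_neg hb]
        exact hQs.rad _ _ (hτ k).zp (hτ k).D
    rw [h3] at h2
    change ∑ k' : (s \ c : Finset (Ix d m)), row ψ (τ k) (k' : Ix d m) *
      coeff k'.1.2.2.2 (Q k'.1.1 k'.1.2.1 k'.1.2.2.1) = 0
    rw [Finset.sum_coe_sort (s \ c) fun k' => row ψ (τ k) k' *
      coeff k'.2.2.2 (Q k'.1 k'.2.1 k'.2.2.1)]
    rw [← h2]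
    refine Finset.sum_subset Finset.sdiff_subset fun k' hk' hk'' => ?_
    rw [hQc k' (by_contra fun h => hk'' (Finset.mem_sdiff.2 ⟨hk', h⟩)), mul_zero]
  have h4 := Matrix.eq_zero_of_mulVec_eq_zero hd h1
  ext μ
  rw [coeff_zero]
  by_cases hD : (ψ i).D = 0
  · rw [hQs.triv i j r hD, coeff_zero]
  by_cases hj : j = 0
  · rw [hj, hQs.zero, coeff_zero]
  by_cases hn : (ψ i).G.natDegree ≤ j
  · rw [hQs.big i j r hn, coeff_zero]
  by_cases hμ : μ.degree = j - 1
  · by_cases hkc : ((i, j, r, μ) : Ix d m) ∈ c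
    · exact hQc (i, j, r, μ) hkc
    · exact congrFun h4 ⟨(i, j, r, μ), Finset.mem_sdiff.2
        ⟨hs (i, j, r, μ) ⟨hD, hj, not_le.1 hn, hμ⟩, hkc⟩⟩
  · exact (hQs.hom i j r).coeff_eq_zero hμ

end GX
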